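import Pool.Agent.P.MP_dcd5d0_pr.S2.St

/-! The chain lemma: tails of long thin crossings. -/

set_option autoImplicit false

open MeasureTheory ProbabilityTheory Finset Filter

namespace Pool.Agent.P.MP_dcd5d0_pr.S2

open SC

open Cx

namespace B1

open Classical in
/-- number of big columns among the first `j` -/
noncomputable def cnt (G : ℕ → ℕ → Prop) : ℕ → ℕ
  | 0 => 0
  | j + 1 => cnt G j + if G j (cnt G j) then 1 else 0

lemma cnt_le (G : ℕ → ℕ → Prop) (j : ℕ) : cnt G j ≤ j := by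
  induction j with
  | zero => exact le_rfl
  | succ j ih => unfold cnt; split_ifs <;> omega

open Classical in
lemma cnt_eq (G : ℕ → ℕ → Prop) (j : ℕ) :
    cnt G j = ((range j).filter (fun i => G i (cnt G i))).card := by
  induction j with
  | zero => simp [cnt]
  | succ j ih =>
    rw [range_add_one, filter_insert]
    conv_lhs => unfold cnt
    split_ifs with h
    · rw [card_insert_of_notMem (by simp), ← ih]
    · rw [← ih, add_zero]

lemma fiber (B : Finset ℕ) : ∃ r, B.card ≤ 20 * (B.filter (fun j => j % 20 = r)).card := by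
  obtain ⟨r, _, hr⟩ := (range 20).exists_max_image
    (fun r => (B.filter (fun j => j % 20 = r)).card) ⟨0, by simp⟩
  refine ⟨r, ?_⟩
  rw [card_eq_sum_card_fiberwise (f := fun j => j % 20) (t := range 20)
    (fun j _ => mem_coe.2 (mem_range.2 (Nat.mod_lt _ (by norm_num))))]
  simpa using sum_le_card_nsmul _ _ _ hr

/-- many big columns are unlikely -/
lemma many {ν : NM.Fld} (A : ℕ → ℕ → Set Om) (S : ℕ → Set V)
    (hm : ∀ j i, MeasurableSet (A j i)) (hl : ∀ j i, ν.Loc (S j) (· ∈ A j i))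
    (hd : ∀ j j', j + 20 ≤ j' → Disjoint (S j) (S j')) (n0 m : ℕ)
    (hp : ∀ j i, ν.Pm.real (A j i) ≤ (1 / 4) ^ n0) {φ : ℝ} (hφ : 20 ≤ φ * n0) :
    ν.Pm.real {ω | φ * m < cnt (fun j i => ω ∈ A j i) m} ≤ (1 / 2) ^ m := by
  classical
  have hsub : {ω | φ * m < cnt (fun j i => ω ∈ A j i) m} ⊆
      ⋃ B ∈ (range m).powerset.filter (fun B => φ * m < B.card),
        {ω | ∀ j ∈ B, ω ∈ A j (B.filter (· < j)).card} := by
    intro ω hω
    simp only [Set.mem_iUnion]
    refine ⟨(range m).filter (fun i => ω ∈ A i (cnt (fun j i => ω ∈ A j i) i)),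
      mem_filter.2 ⟨mem_powerset.2 (filter_subset _ _), ?_⟩, fun j hj => ?_⟩
    · have := cnt_eq (fun j i => ω ∈ A j i) m
      simp only [Set.mem_ofPred_eq] at hω
      convert hω using 2
      convert this.symm
    · obtain ⟨h1, h2⟩ := mem_filter.1 hj
      have h3 := cnt_eq (fun j i => ω ∈ A j i) j
      have h4 : ((range m).filter (fun i => ω ∈ A i (cnt (fun j i => ω ∈ A j i) i))).filter (· < j)
          = (range j).filter (fun i => ω ∈ A i (cnt (fun j i => ω ∈ A j i) i)) := by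
        have := mem_range.1 h1
        ext i
        simp only [mem_filter, mem_range]
        constructor
        · rintro ⟨⟨_, b⟩, c⟩; exact ⟨c, b⟩
        · rintro ⟨a, b⟩; exact ⟨⟨by omega, b⟩, a⟩
      rw [h4]
      convert h2 using 2
      convert h3.symm
  refine (measureReal_mono hsub (measure_ne_top _ _)).trans
    ((measureReal_biUnion_finset_le _ _).trans ?_)
  refine (sum_le_card_nsmul _ _ ((1 / 4 : ℝ) ^ m) fun B hB => ?_).trans ?_
  · obtain ⟨r, hr⟩ := fiber B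
    set F := B.filter (fun j => j % 20 = r) with hF
    have h1 := NM.Fld.Loc.biInter (F := ν) F S (fun j => A j (B.filter (· < j)).card) (fun j _ => hm _ _)
      (fun j _ => hl _ _) (fun j hj j' hj' hne => by
        have a1 := (mem_filter.1 hj).2
        have a2 := (mem_filter.1 hj').2
        rcases lt_or_gt_of_ne hne with h | h
        · exact hd j j' (by omega)
        · exact (hd j' j (by omega)).symm) (fun j _ => hp _ _)
    refine le_trans (measureReal_mono (s₂ := {ω | ∀ j ∈ F, ω ∈ A j (B.filter (· < j)).card})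
      (fun ω hω j hj => hω j (mem_filter.1 hj).1) (measure_ne_top _ _)) (h1.trans ?_)
    rw [← pow_mul]
    refine pow_le_pow_of_le_one (by norm_num) (by norm_num) ?_
    have a1 := (mem_filter.1 hB).2
    have a2 : (B.card : ℝ) ≤ 20 * F.card := by exact_mod_cast hr
    have a3 : (0 : ℝ) ≤ n0 := Nat.cast_nonneg _
    have a4 : (0 : ℝ) ≤ m := Nat.cast_nonneg _
    have a5 : (m : ℝ) ≤ n0 * F.card := by nlinarith
    exact_mod_cast a5
  · have h1 : (((range m).powerset.filter (fun B => φ * m < B.card)).card : ℝ) ≤ 2 ^ m := by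
      have := card_filter_le (range m).powerset (fun B => φ * m < B.card)
      rw [card_powerset, card_range] at this
      exact_mod_cast this
    rw [nsmul_eq_mul]
    calc _ ≤ (2 : ℝ) ^ m * (1 / 4) ^ m := mul_le_mul_of_nonneg_right h1 (by positivity)
      _ = _ := by rw [← mul_pow]; norm_num

lemma diag_le (F : ℕ → ℕ → ℝ) (h0 : ∀ j i, 0 ≤ F j i) (c : ℕ → ℕ) (hc : ∀ j, c j ≤ j) (m : ℕ) :
    ∑ j ∈ range m, F j (c j) ≤ ∑ p ∈ range m ×ˢ range m, F p.1 p.2 := by
  rw [sum_product]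
  refine sum_le_sum fun j hj => single_le_sum (f := fun i => F j i) (fun i _ => h0 j i) ?_
  have := mem_range.1 hj
  have := hc j
  exact mem_range.2 (by omega)

end B1

theorem b1 (hA : St_LineA) (hS : St_S1) (hL : St_Loc) (hC : St_Chain) : St_B1 := by
  classical
  intro C φ hφ hφ1
  have hD := C.D1
  set n0 := ⌈20 / φ⌉₊ with hn0
  have hn : 20 ≤ φ * n0 := by
    have := Nat.le_ceil (20 / φ)
    rwa [div_le_iff₀' hφ] at this
  have hq : (1 / 4 : ℝ) ^ n0 ≤ 1 := pow_le_one₀ (by norm_num) (by norm_num)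
  refine ⟨(1 / 4) ^ n0 / 2, by positivity, by linarith, ?_⟩
  have t2 : Tendsto (fun N : ℕ => 2 * N) atTop atTop :=
    tendsto_atTop_mono (fun n => by show n ≤ 2 * n; omega) tendsto_id
  have tc : Tendsto (fun N : ℕ => (N : ℝ)) atTop atTop := tendsto_natCast_atTop_atTop
  filter_upwards [t2.eventually (hA C), hA C.swap, t2.eventually (hS C), hS C.swap,
    tc.eventually (hL C), tc.eventually (eventually_ge_atTop (200 * C.D / φ))]
    with N A2 A1 S2 S1 L1 hN m y e s x0 y0 hm hs hy hπ M1 M2 M4 he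
  rw [div_le_iff₀ hφ] at hN
  have hN0 : (0 : ℝ) ≤ N := Nat.cast_nonneg N
  have hN1 : (N : ℝ) * φ ≤ N / 100 := by nlinarith
  set a : ℝ := φ / 4 * N + 2 * C.D with ha
  set Yp : ℕ → ℕ → ℝ := fun j i => y0 + 1 + C.D + j * (a + C.D + 2) + i * (N / 25 - a) with hYp
  set d : ℝ := 17 / 20 * N with hd
  set W : ℝ := N - 2 * C.D with hW
  have ha1 : 4 * C.D ≤ a := by rw [ha]; linarith
  have ha2 : a ≤ N / 25 := by rw [ha]; linarith
  have hxW : ∀ j : ℕ, x0 + j * d ≤ x0 + j * d + W := fun j => by linarith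
  have hloc := fun j i : ℕ => L1 (x0 + j * d + N / 2) (Yp j i)
    (C.LR (x0 + j * d) (x0 + j * d + W) (Yp j i) (Yp j i + a)) (LR_ne (hxW j) (by linarith))
    (by
      rintro z ⟨z1, z2, z3, z4⟩
      exact ⟨abs_le.2 ⟨by linarith, by linarith⟩, abs_le.2 ⟨by linarith, by linarith⟩⟩)
    (by
      rintro p q ⟨⟨z1, z2, z3, z4⟩, w1, w2, w3, w4⟩
      exact ⟨⟨abs_le.2 ⟨by linarith, by linarith⟩, abs_le.2 ⟨by linarith, by linarith⟩⟩,
        abs_le.2 ⟨by linarith, by linarith⟩, abs_le.2 ⟨by linarith, by linarith⟩⟩)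
  choose E Xl hE1 hE2 hE3 hX1 hX2 hX3 using hloc
  have hc4 : ⌈4 * (N : ℝ)⌉₊ = 4 * N := by
    rw [show (4 : ℝ) * N = ((4 * N : ℕ) : ℝ) by push_cast; ring, Nat.ceil_natCast]
  simp only [hc4] at hE3
  have hbig := fun j i : ℕ => S2 (x0 + j * d) (x0 + j * d + W) (Yp j i) (Yp j i + N / 25) (hxW j)
    (by push_cast; linarith) (by push_cast; linarith)
  choose pb hpb using hbig
  have hcon := fun j i : ℕ => S1 (Yp j i - 1) (Yp j i + N / 5) (x0 + (j + 1) * d + 1)
    (x0 + j * d + W - 1) (by linarith) (by linarith) (by linarith)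
  choose pc hpc using hcon
  set F : ℕ → ℕ → V → Om → ℝ := fun j i ζ ω =>
    E j i ζ ω + C.pr ((2 * N : ℕ) : ℝ) (pb j i) ζ ω + C.swap.pr N (pc j i) ζ ω with hF
  have hF1 : ∀ j i, C.Adm (F j i) := fun j i => ((hE1 j i).add (A2 _).1).add (A1 _).1
  have hF2 : ∀ j i ζ ω, 0 ≤ F j i ζ ω := fun j i ζ ω =>
    add_nonneg (add_nonneg (hE2 j i ζ ω) ((A2 _).2.1 ζ ω)) ((A1 _).2.1 ζ ω)
  have hF3 : ∀ j i, C.SE (F j i) ≤ 6 * e := by
    intro j i
    have e1 := (A2 (pb j i)).2.2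
    have e2 := (A1 (pc j i)).2.2
    rw [swap_SE] at e2
    simp only [hF]
    rw [SE_add ((hE1 j i).add (A2 _).1) (A1 _).1, SE_add (hE1 j i) (A2 _).1, e1, e2]
    linarith [hE3 j i, C.MH_le (2 * N), C.swap_MH_le N]
  have he0 : 0 ≤ e := by linarith [hF3 0 0, SE_nonneg (hF1 0 0) (hF2 0 0)]
  have hmk := SP_markov (Adm.sum (range m ×ˢ range m) fun p _ => hF1 p.1 p.2)
    (fun ζ ω => sum_nonneg fun p _ => hF2 p.1 p.2 ζ ω) hs
  rw [SE_sum _ fun p _ => hF1 p.1 p.2] at hmk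
  have hsum : ∑ p ∈ range m ×ˢ range m, C.SE (F p.1 p.2) ≤ 6 * (m + 1) ^ 2 * e := by
    refine (sum_le_card_nsmul _ _ _ fun p _ => hF3 p.1 p.2).trans ?_
    rw [card_product, card_range, nsmul_eq_mul]
    push_cast
    have : (0 : ℝ) ≤ m := Nat.cast_nonneg m
    nlinarith [mul_nonneg this he0]
  have hbad := B1.many (ν := C.toFld) (fun j i => {ω | 2 * y ≤ Xl j i ω})
    (fun j => {z | |C.X z - (x0 + j * d + N / 2)| ≤ 5 * N})
    (fun j i => measurableSet_le measurable_const (hX1 j i))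
    (fun j i ω ω' h => by simp only [Set.mem_ofPred_eq, hX2 j i ω ω' h])
    (fun j j' h => Set.disjoint_left.2 fun z z1 z2 => by
      simp only [Set.mem_ofPred_eq, abs_le] at z1 z2
      have h1 : (j : ℝ) + 20 ≤ j' := by exact_mod_cast h
      have h2 := mul_le_mul_of_nonneg_right h1 (show 0 ≤ d by linarith)
      linarith [z1.1, z1.2, z2.1, z2.2]) n0 m
    (fun j i => by
      have h1 := SP_le_add (C := C) (A := fun _ => {ω | 2 * y ≤ Xl j i ω})
        (B := fun ζ => {ω | y ≤ Pi (C.LR (x0 + j * d) (x0 + j * d + W) (Yp j i) (Yp j i + a)) ζ ω})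
        (B' := fun ζ => {ω | y ≤ E j i ζ ω}) ((hX3 j i).mono fun ζ h ω hω => by
          have h2 := (abs_le.1 (h ω)).2
          simp only [Set.mem_ofPred_eq] at hω ⊢
          by_contra hc
          push Not at hc
          linarith [hc.1, hc.2])
      rw [SP_indep] at h1
      have h2 := SP_LR_pos (C := C) (w := N) (t := φ / 4 * N) (y0 := Yp j i) (y1 := Yp j i + a)
        (hxW j) (by linarith) (by linarith) (by linarith) y
      have h3 := SP_markov (hE1 j i) (hE2 j i) hy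
      have h4 : C.SE (E j i) / y ≤ (1 / 4) ^ n0 / 2 := by
        rw [div_le_iff₀ hy]; linarith [hE3 j i]
      show C.Pm.real _ ≤ _
      linarith) hn
  have hfar : C.Far fun ζ => ∀ p ∈ range m ×ˢ range m, ∀ ω, |Xl p.1 p.2 ω -
      Pi (C.LR (x0 + p.1 * d) (x0 + p.1 * d + W) (Yp p.1 p.2) (Yp p.1 p.2 + a)) ζ ω|
        ≤ E p.1 p.2 ζ ω := Far.finset _ fun p _ => hX3 p.1 p.2
  refine (SP_le_add (B := fun _ => {ω | φ * m < B1.cnt (fun j i => ω ∈ {ω | 2 * y ≤ Xl j i ω}) m})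
    (B' := fun ζ => {ω | s ≤ ∑ p ∈ range m ×ˢ range m, F p.1 p.2 ζ ω})
    (hfar.mono fun ζ hζ ω hω => ?_)).trans ?_
  swap
  · rw [SP_indep]
    exact add_le_add hbad (hmk.trans (div_le_div_of_nonneg_right hsum hs.le))
  by_contra hc
  push Not at hc
  obtain ⟨c1, c2⟩ := hc
  simp only [Set.mem_ofPred_eq, not_lt, not_le] at c1 c2 hω
  set G : ℕ → ℕ → Prop := fun j i => 2 * y ≤ Xl j i ω with hG
  set c := B1.cnt G with hcdef
  set hh' : ℕ → ℝ := fun j => if G j (c j) then N / 25 else a with hh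
  have hh1 : ∀ j, 4 * C.D ≤ hh' j := fun j => by simp only [hh]; split_ifs <;> linarith
  have hh2 : ∀ j, hh' j ≤ N / 25 := fun j => by simp only [hh]; split_ifs <;> linarith
  have hyy : ∀ j, Yp (j + 1) (c (j + 1)) = Yp j (c j) + hh' j + C.D + 2 := by
    intro j
    have : c (j + 1) = c j + if G j (c j) then 1 else 0 := by
      rw [hcdef]; conv_lhs => unfold B1.cnt
    simp only [hYp, hh, this]
    split_ifs <;> push_cast <;> ring
  obtain ⟨m', rfl⟩ : ∃ m', m = m' + 1 := ⟨m - 1, by omega⟩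
  have h1 := hC C ζ ω x0 W d (fun j => Yp j (c j)) hh' m' (by linarith) (by linarith) (by linarith)
    hh1 hyy
  have hm0 : (0 : ℝ) ≤ m' := Nat.cast_nonneg m'
  have hc0 : c 0 = 0 := rfl
  have h2 : Pi (C.LR x0 (x0 + 4 / 5 * (m' + 1 : ℕ) * N) y0 (y0 + φ * (m' + 1 : ℕ) * N)) ζ ω
      ≤ Pi (C.LR x0 (x0 + m' * d + W) (Yp 0 (c 0) - 1 - C.D) (Yp (m' + 1) (c (m' + 1)))) ζ ω := by
    have k0 : (0 : ℝ) ≤ c (m' + 1) := Nat.cast_nonneg _
    have k1 := mul_nonneg hm0 hN0
    have k2 := mul_nonneg k0 (sub_nonneg.2 ha2)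
    have k3 := mul_nonneg hm0 (show 0 ≤ a + C.D + 2 by linarith)
    refine Pi_LR_mono le_rfl (by push_cast; linarith) ?_ ?_ ?_ ?_ ζ ω
    · push_cast; rw [hd, hW]; linarith
    · simp only [hYp, hc0]; push_cast; linarith
    · simp only [hYp]
      push_cast at c1 ⊢
      have k4 : (c (m' + 1) : ℝ) * (N / 25 - a) ≤ φ * (m' + 1) * (N / 25) :=
        mul_le_mul c1 (by linarith) (by linarith) (by positivity)
      have k5 : (m' + 1 : ℝ) * (200 * C.D) ≤ (m' + 1) * (N * φ) :=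
        mul_le_mul_of_nonneg_left hN (by linarith)
      have k6 := mul_le_mul_of_nonneg_left hD hm0
      have k7 : (m' + 1 : ℝ) * (a + C.D + 2) = φ * (m' + 1) * N / 4 + (m' + 1) * (3 * C.D + 2) := by
        rw [ha]; ring
      have k8 := mul_nonneg (mul_nonneg hφ.le (show (0 : ℝ) ≤ m' + 1 by linarith)) hN0
      clear_value a
      clear hfar hmk hbad hsum hF3 hF2 hF1 hpc hpb hX3 hX2 hX1 hE3 hE2 hE1 h1 hζ c2 hω
      nlinarith
    · simp only [hYp, hc0]; push_cast; linarith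
  have h3 : ∀ j ∈ range (m' + 1), Pi (C.LR (x0 + j * d) (x0 + j * d + W) (Yp j (c j))
      (Yp j (c j) + hh' j)) ζ ω ≤ 2 * y + (E j (c j) ζ ω + C.pr ((2 * N : ℕ) : ℝ) (pb j (c j)) ζ ω) := by
    intro j hj
    have k1 := hE2 j (c j) ζ ω
    have k2 := (A2 (pb j (c j))).2.1 ζ ω
    simp only [hh]
    split_ifs with h
    · linarith [hpb j (c j) ζ ω]
    · have k3 := mem_range.1 hj
      have k4 : c j ≤ j := B1.cnt_le G j
      have k5 := (abs_le.1 (hζ (j, c j) (mem_product.2 ⟨hj, mem_range.2 (by omega)⟩) ω)).1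
      have k6 : Xl j (c j) ω < 2 * y := not_le.1 h
      linarith
  have h4 : ∀ j ∈ range m', Pi (C.swap.LR (Yp j (c j) - 1) (Yp (j + 1) (c (j + 1)) + hh' (j + 1) + 1)
      (x0 + (j + 1) * d + 1) (x0 + j * d + W - 1)) ζ ω ≤ C.swap.pr N (pc j (c j)) ζ ω := by
    intro j _
    refine le_trans (Pi_LR_mono le_rfl ?_ ?_ le_rfl le_rfl (by rw [swap_D]; linarith) ζ ω)
      (hpc j (c j) ζ ω)
    · rw [hyy]; linarith [hh1 j, hh1 (j + 1)]
    · rw [hyy]; linarith [hh2 j, hh2 (j + 1)]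
  have h5 := sum_le_sum h3
  have h6 := sum_le_sum h4
  have h7 : ∑ j ∈ range m', C.swap.pr N (pc j (c j)) ζ ω
      ≤ ∑ j ∈ range (m' + 1), C.swap.pr N (pc j (c j)) ζ ω := by
    rw [sum_range_succ]; linarith [(A1 (pc m' (c m'))).2.1 ζ ω]
  have h8 := B1.diag_le (fun j i => F j i ζ ω) (fun j i => hF2 j i ζ ω) c (B1.cnt_le G) (m' + 1)
  rw [sum_add_distrib, sum_const, card_range, nsmul_eq_mul] at h5
  simp only [hF] at h8 c2
  rw [sum_add_distrib] at h8
  linarith

end Pool.Agent.P.MP_dcd5d0_pr.S2
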