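import Pool.Agent.P.MP_dcd5d0_pr.S2.St

/-! Blocking: the a priori bound and the induction on scales. -/

set_option autoImplicit false

open MeasureTheory ProbabilityTheory Finset Function Filter

namespace Pool.Agent.P.MP_dcd5d0_pr.S2

open SC

open Cx

theorem blkLe (hR : St_RA) : St_BlkLe := by
  intro C h h0 h1
  filter_upwards [hR C (h / 2) (by positivity), eventually_ge_atTop (16 * C.D / h)]
    with L hL hLD σ P q hσ hq hB
  have hD := C.D1
  rw [div_le_iff₀ h0] at hLD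
  have hL0 : 0 < L := by
    by_contra hc
    nlinarith [not_lt.1 hc]
  have hhL : L * h ≤ L := mul_le_of_le_one_right hL0.le h1
  have hσL : h / 8 * L ≤ σ * L := by gcongr
  obtain ⟨z, z1, z2⟩ := C.near (L + C.D) C.D
  rw [abs_le] at z1 z2
  obtain ⟨ne, hE⟩ := hL z (by linarith) (by linarith) (by linarith) _ rfl
  by_contra hP
  push Not at hP
  have hp : 0 < L ^ (77 / 100 : ℝ) := by positivity
  have hP0 : 0 < P := by linarith
  have m1 := SP_markov (Adm_Pi (C := C) ne) (Pi_nonneg _) hP0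
  have m2 := one_le_SP_add (C := C) (A := fun ζ => {ω | Pi (C.BX L h σ) ζ ω < P})
    (B := fun ζ => {ω | P ≤ Pi ⟨{y | -(h / 2 * L) ≤ C.X y ∧ C.X y ≤ C.X z + h / 2 * L ∧
      -(h / 2 * L) ≤ C.Y y ∧ C.Y y ≤ C.Y z + h / 2 * L}, fun p q => p = 0 ∧ q = z⟩ ζ ω})
    (Far.of_forall fun ζ ω => by
      by_cases hc : Pi (C.BX L h σ) ζ ω < P
      · exact Or.inl hc
      refine Or.inr ((not_lt.1 hc).trans (le_Pi ne ?_))
      rintro p q y ⟨rfl, rfl⟩ w
      refine Pi_le (p := 0) (q := q) ⟨⟨?_, ?_⟩, ⟨?_, ?_⟩, ?_, ?_⟩ (w.mono ?_)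
      · rw [map_zero, abs_zero]; linarith
      · rw [map_zero, abs_zero]; positivity
      · exact abs_le.2 ⟨by linarith, by linarith⟩
      · exact abs_le.2 ⟨by linarith, by linarith⟩
      · rw [map_zero]; linarith
      · rw [map_zero]; linarith
      · rintro y ⟨a, b, c, d⟩
        exact ⟨abs_le.2 ⟨by linarith, by linarith⟩, abs_le.2 ⟨by linarith, by linarith⟩⟩)
  have m3 := (m1.trans (div_le_div_of_nonneg_right hE hP0.le))
  have m4 : L ^ (77 / 100 : ℝ) / P < 1 / 2 := by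
    rw [div_lt_iff₀ hP0]; linarith
  unfold Blk at hB
  linarith

namespace BL

/-- The parameter is large. -/
def Big (a : ℝ) : Prop := 2 ^ 400 ≤ a

lemma Big.mono {a b : ℝ} (ha : Big a) (h : a ≤ b) : Big b := le_trans ha h

lemma exists_big : ∃ A : ℕ, Big A := exists_nat_ge _

lemma two_pow_le {a : ℝ} (ha : Big a) {i j : ℕ} (h : i ≤ 400 * j) : (2 : ℝ) ^ i ≤ a ^ j :=
  calc (2 : ℝ) ^ i ≤ 2 ^ (400 * j) := pow_le_pow_right₀ one_le_two h
    _ = (2 ^ 400) ^ j := pow_mul _ _ _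
    _ ≤ _ := pow_le_pow_left₀ (by positivity) ha j

lemma big {a : ℝ} (ha : Big a) : 1024 ≤ a := by
  have := two_pow_le ha (i := 10) (j := 1) (by norm_num)
  rw [pow_one] at this
  linarith [show (2 : ℝ) ^ 10 = 1024 by norm_num]

lemma scale {a L D : ℝ} (ha : Big a) (hL : a ^ 8000 ≤ L) (hD : 0 ≤ D) :
    (2 * a) ^ 8000 ≤ a ^ 20 * (L + D) := by
  have h0 := big ha
  have h1 := two_pow_le ha (i := 8000) (j := 20) le_rfl
  rw [mul_pow]
  exact mul_le_mul h1 (by linarith) (by positivity) (by positivity)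

lemma prob {a e P L : ℝ} (ha : Big a) (he : 0 ≤ e) (hP0 : 0 < P) (hP : a ^ 160 * e ≤ P)
    (hL : a ^ 8000 ≤ L) :
    400 * a ^ 40 * (4 * e / P) + (400 * a ^ 40) ^ 2 * (1 / a ^ 100 + 4 * e / P) ^ 2
      + L ^ (-(1 / 40) : ℝ) ≤ 1 / (2 * a) ^ 100 := by
  have h0 := big ha
  have ha0 : 0 < a := by linarith
  have ha1 : 1 ≤ a := by linarith
  have h1 : 4 * e / P ≤ 4 / a ^ 160 := by
    rw [div_le_div_iff₀ hP0 (by positivity)]; linarith
  have h2 : 4 / a ^ 160 ≤ 1 / a ^ 100 := by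
    rw [div_le_div_iff₀ (by positivity) (by positivity), show a ^ 160 = a ^ 60 * a ^ 100 by ring,
      one_mul]
    gcongr
    exact le_trans (by linarith) (le_self_pow₀ ha1 (by norm_num))
  have h3 : L ^ (-(1 / 40) : ℝ) ≤ 1 / a ^ 120 := by
    calc L ^ (-(1 / 40) : ℝ) ≤ (a ^ 8000) ^ (-(1 / 40) : ℝ) :=
          Real.rpow_le_rpow_of_nonpos (by positivity) hL (by norm_num)
      _ = a ^ (-(200 : ℝ)) := by
          rw [← Real.rpow_natCast, ← Real.rpow_mul ha0.le]; norm_num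
      _ ≤ a ^ (-((120 : ℕ) : ℝ)) := Real.rpow_le_rpow_of_exponent_le ha1 (by norm_num)
      _ = _ := by rw [Real.rpow_neg ha0.le, Real.rpow_natCast, one_div]
  have h4 : 400 * a ^ 40 * (4 * e / P) ≤ 1600 * (1 / a ^ 120) := by
    calc _ ≤ 400 * a ^ 40 * (4 / a ^ 160) := by gcongr
      _ = _ := by field_simp; norm_num
  have h5 : (400 * a ^ 40) ^ 2 * (1 / a ^ 100 + 4 * e / P) ^ 2 ≤ 640000 * (1 / a ^ 120) := by
    calc _ ≤ (400 * a ^ 40) ^ 2 * (1 / a ^ 100 + 1 / a ^ 100) ^ 2 := by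
          have := h1.trans h2
          have : 0 ≤ 4 * e / P := by positivity
          exact mul_le_mul_of_nonneg_left (pow_le_pow_left₀ (by positivity) (by linarith) 2)
            (by positivity)
      _ = _ := by field_simp; norm_num
  have h6 : 2 ^ 20 * (1 / a ^ 120) ≤ 1 / (2 * a) ^ 100 := by
    have := two_pow_le ha (i := 120) (j := 20) (by norm_num)
    rw [mul_one_div, div_le_div_iff₀ (by positivity) (by positivity), mul_pow,
      show a ^ 120 = a ^ 20 * a ^ 100 by ring, one_mul, ← mul_assoc, ← pow_add]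
    gcongr
  have h7 : 0 < 1 / a ^ 120 := by positivity
  have h8 : (2 : ℝ) ^ 20 = 1048576 := by norm_num
  rw [h8] at h6
  linarith

lemma price {a L D N μ P : ℝ} (ha : Big a) (hD : 0 ≤ D) (hL : D ≤ L) (hN : 0 < N)
    (hμ : 0 < μ) (hP : a ^ 160 * (4 * μ * (9 * L / N) ^ (4 / 5 : ℝ)) ≤ P) :
    (2 * a) ^ 160 * (4 * μ * (9 * (a ^ 20 * (L + D)) / N) ^ (4 / 5 : ℝ)) ≤ a ^ 17 * P := by
  have h0 := big ha
  have ha0 : 0 < a := by linarith
  have hL0 : 0 ≤ L := hD.trans hL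
  have h1 : (9 * (a ^ 20 * (L + D)) / N) ^ (4 / 5 : ℝ) ≤
      2 * a ^ 16 * (9 * L / N) ^ (4 / 5 : ℝ) := by
    calc _ ≤ (2 * a ^ 20 * (9 * L / N)) ^ (4 / 5 : ℝ) := by
          refine Real.rpow_le_rpow (by positivity) ?_ (by norm_num)
          calc 9 * (a ^ 20 * (L + D)) / N ≤ 9 * (a ^ 20 * (L + L)) / N := by gcongr
            _ = _ := by ring
      _ = 2 ^ (4 / 5 : ℝ) * (a ^ 20) ^ (4 / 5 : ℝ) * (9 * L / N) ^ (4 / 5 : ℝ) := by
          rw [Real.mul_rpow (by positivity) (by positivity),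
            Real.mul_rpow (by positivity) (by positivity)]
      _ ≤ _ := by
          gcongr
          · exact Real.rpow_le_self_of_one_le (by norm_num) (by norm_num)
          · rw [← Real.rpow_natCast, ← Real.rpow_mul ha0.le, ← Real.rpow_natCast]
            norm_num
  have h2 := two_pow_le ha (i := 161) (j := 1) (by norm_num)
  rw [pow_one] at h2
  generalize (9 * L / N) ^ (4 / 5 : ℝ) = x at *
  have hx : 0 ≤ x := by
    by_contra hc
    have h3 : 2 * a ^ 16 * x < 0 := mul_neg_of_pos_of_neg (by positivity) (not_le.1 hc)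
    have h4 : 0 ≤ (9 * (a ^ 20 * (L + D)) / N) ^ (4 / 5 : ℝ) := by positivity
    linarith
  calc _ ≤ (2 * a) ^ 160 * (4 * μ * (2 * a ^ 16 * x)) := by gcongr
    _ = 2 ^ 161 * (a ^ 16 * (a ^ 160 * (4 * μ * x))) := by
        rw [mul_pow, pow_succ (2 : ℝ) 160]; generalize (2 : ℝ) ^ 160 = t; ring
    _ ≤ a * (a ^ 16 * P) := by gcongr
    _ = _ := by ring

/-- The invariant of the induction. -/
structure Inv (C : Cx) (h μ N L0 : ℝ) (a : ℕ) (L P : ℝ) : Prop where
  ha : Big a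
  hL0 : L0 ≤ L
  hL : (a : ℝ) ^ 8000 ≤ L
  hP : (a : ℝ) ^ 160 * (4 * μ * (9 * L / N) ^ (4 / 5 : ℝ)) ≤ P
  blk : C.Blk L h (h / 8 + 2 * h / (a : ℝ) ^ 2) P (1 / (a : ℝ) ^ 100)

lemma Inv.le {C : Cx} {h μ N L0 L P : ℝ} {a : ℕ} (I : Inv C h μ N L0 a L P) (h0 : 0 < h)
    (hK : ∀ σ P q : ℝ, h / 8 ≤ σ → q ≤ 1 / 2 → C.Blk L h σ P q → P ≤ 2 * L ^ (77 / 100 : ℝ)) :
    P ≤ 2 * L ^ (77 / 100 : ℝ) := by
  have h1 := big I.ha
  refine hK _ _ _ (le_add_of_nonneg_right (by positivity)) ?_ I.blk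
  exact one_div_le_one_div_of_le (by norm_num)
    (le_trans (by linarith) (le_self_pow₀ (by linarith) (by norm_num)))

lemma split (L : ℝ) (hL : 0 < L) : L ^ (4 / 5 : ℝ) = L ^ (3 / 100 : ℝ) * L ^ (77 / 100 : ℝ) := by
  rw [← Real.rpow_add hL]; norm_num

end BL

open BL in
theorem bl (hB : St_Base) (hS : St_Step) (hK : St_BlkLe) (_hM : St_Mle) : St_BL := by
  intro C
  obtain ⟨A, hA⟩ := exists_big
  have hA0 := big hA
  have hA1 : (1 : ℝ) ≤ A := by linarith
  have hA2 : (1 : ℝ) ≤ (A : ℝ) ^ 160 := one_le_pow₀ hA1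
  refine ⟨30000 * (A : ℝ) ^ 160, by linarith, fun φ π hφ0 hφ1 hπ0 hπ1 => ?_⟩
  obtain ⟨lam, hlam⟩ := exists_nat_ge (65600 * (A : ℝ) ^ 100 / π + 100)
  have hl0 : 0 ≤ 65600 * (A : ℝ) ^ 100 / π := by positivity
  have hl1 : (100 : ℝ) ≤ lam := by linarith
  set h : ℝ := φ / (4 * lam) with hh
  have h0 : 0 < h := by positivity
  have h1 : h ≤ 1 := by rw [hh, div_le_one (by positivity)]; linarith
  have t3 := tendsto_rpow_atTop (y := 3 / 100) (by norm_num)
  obtain ⟨L0, hL0⟩ := eventually_atTop.1 ((hS C h h0 h1).and ((hK C h h0 h1).and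
    ((t3.eventually_ge_atTop 2).and (eventually_ge_atTop C.D))))
  filter_upwards [hB C φ hφ0 hφ1, tendsto_natCast_atTop_atTop.eventually_ge_atTop L0,
    tendsto_natCast_atTop_atTop.eventually_ge_atTop ((A : ℝ) ^ 8000), eventually_ge_atTop 1]
    with N hb hNL hNA hN1 μ Y hμ hM hY
  have hN : (1 : ℝ) ≤ N := by exact_mod_cast hN1
  have hD := C.D1
  by_contra hc
  push Not at hc
  have hY0 : 0 < π * Y := lt_of_lt_of_le (by positivity) hY
  have hNl : (N : ℝ) ≤ lam * N := le_mul_of_one_le_left (by linarith) (by linarith)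
  have I0 : Inv C h μ N N A (lam * N) (π * lam * Y / 800) := by
    refine ⟨hA, hNl, hNA.trans hNl, ?_, ?_⟩
    · have e : 9 * ((lam : ℝ) * N) / N = 9 * lam := by field_simp
      have : (9 * (lam : ℝ)) ^ (4 / 5 : ℝ) ≤ 9 * lam :=
        Real.rpow_le_self_of_one_le (by linarith) (by norm_num)
      rw [e]
      calc _ ≤ (A : ℝ) ^ 160 * (4 * μ * (9 * lam)) := by gcongr
        _ = 28800 * (A : ℝ) ^ 160 * μ * (lam / 800) := by ring
        _ ≤ 30000 * (A : ℝ) ^ 160 * μ * (lam / 800) := by gcongr; norm_num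
        _ ≤ π * Y * (lam / 800) := by gcongr
        _ = _ := by ring
    · have b1 : 4 * C.M (4 * N) ≤ 16 * μ := by
        have := hM (4 * N) (by omega)
        have e : ((4 * N : ℕ) : ℝ) / N = 4 := by push_cast; field_simp
        rw [e] at this
        have h4 : (4 : ℝ) ^ (4 / 5 : ℝ) ≤ 4 :=
          Real.rpow_le_self_of_one_le (by norm_num) (by norm_num)
        nlinarith
      have b2 : μ ≤ (A : ℝ) ^ 160 * μ := le_mul_of_one_le_left hμ.le hA2
      refine le_trans (hb lam π Y (16 * μ) _ (by exact_mod_cast hl1) hπ0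
        ((mul_pos_iff_of_pos_left hπ0).1 hY0) (by positivity) b1 (by linarith) hc) ?_
      have c1 : 800 / (π * lam) ≤ 1 / (82 * (A : ℝ) ^ 100) := by
        rw [div_le_div_iff₀ (by positivity) (by positivity)]
        have : 65600 * (A : ℝ) ^ 100 ≤ lam * π := by
          rw [← div_le_iff₀ hπ0]; linarith
        linarith
      have c2 : 16 * (16 * μ) / (π * Y) ≤ 1 / (82 * (A : ℝ) ^ 100) := by
        rw [div_le_div_iff₀ hY0 (by positivity)]
        have : (A : ℝ) ^ 100 * μ ≤ (A : ℝ) ^ 160 * μ := by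
          exact mul_le_mul_of_nonneg_right (pow_le_pow_right₀ hA1 (by norm_num)) hμ.le
        have : 0 ≤ (A : ℝ) ^ 100 * μ := by positivity
        linarith
      calc _ ≤ 41 * (1 / (82 * (A : ℝ) ^ 100) + 1 / (82 * (A : ℝ) ^ 100)) := by gcongr
        _ = _ := by field_simp; norm_num
  have key : ∀ k : ℕ, ∃ (a : ℕ) (L P : ℝ), Inv C h μ N N a L P ∧ (k : ℝ) ≤ L := by
    intro k
    induction k with
    | zero => exact ⟨_, _, _, I0, by push_cast; positivity⟩
    | succ k ih =>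
      obtain ⟨a, L, P, I, hk⟩ := ih
      obtain ⟨s1, s2, s3, s4⟩ := hL0 L (hNL.trans I.hL0)
      have a0 := big I.ha
      have a1 : (1 : ℝ) ≤ a := by linarith
      have hL1 : 1 ≤ L := hN.trans I.hL0
      have hP := I.le h0 s2
      have he : 0 < 4 * μ * (9 * L / N) ^ (4 / 5 : ℝ) := by positivity
      have hP0 : 0 < P := lt_of_lt_of_le (by positivity) I.hP
      have e2 : ((2 * a : ℕ) : ℝ) = 2 * a := by push_cast; rfl
      have hup : L + C.D ≤ (a : ℝ) ^ 20 * (L + C.D) :=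
        le_mul_of_one_le_left (by linarith) (one_le_pow₀ a1)
      have ha2 : (16 : ℝ) ≤ (a : ℝ) ^ 2 := by nlinarith
      have st := s1 a (h / 8 + 2 * h / (a : ℝ) ^ 2) (h / 8 + 2 * h / (2 * (a : ℝ)) ^ 2) P _
        (4 * μ * (9 * L / N) ^ (4 / 5 : ℝ)) (by exact_mod_cast (by linarith : (5 : ℝ) ≤ a))
        ((pow_le_pow_right₀ a1 (by norm_num)).trans I.hL)
        (le_add_of_nonneg_right (by positivity))
        (by
          have e : 2 * h / (2 * (a : ℝ)) ^ 2 = h / (a : ℝ) ^ 2 / 2 := by field_simp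
          have e' : 2 * h / (a : ℝ) ^ 2 = 2 * (h / (a : ℝ) ^ 2) := by ring
          have : 0 ≤ h / (a : ℝ) ^ 2 := by positivity
          rw [e, e']; linarith)
        (by
          have : 2 * h / (a : ℝ) ^ 2 ≤ 2 * h / 16 := by gcongr
          linarith) hP0
        (by
          rw [split L (by linarith)]
          exact hP.trans (by gcongr))
        (by
          have c1 : (N : ℝ) ≤ (⌈8 * L⌉₊ : ℕ) := by linarith [Nat.le_ceil (8 * L), I.hL0]
          have c2 : ((⌈8 * L⌉₊ : ℕ) : ℝ) ≤ 9 * L := by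
            linarith [Nat.ceil_lt_add_one (a := 8 * L) (by linarith)]
          have := hM ⌈8 * L⌉₊ (by exact_mod_cast c1)
          rw [mul_assoc]
          gcongr
          exact this.trans (by gcongr)) I.blk
      refine ⟨2 * a, (a : ℝ) ^ 20 * (L + C.D), (a : ℝ) ^ 17 * P, ⟨?_, ?_, ?_, ?_, ?_⟩, ?_⟩
      · rw [e2]; exact I.ha.mono (by linarith)
      · linarith [I.hL0]
      · rw [e2]; exact scale I.ha I.hL (by linarith)
      · rw [e2]; exact price I.ha (by linarith) s4 (by linarith) hμ I.hP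
      · rw [e2]; exact st.trans (prob I.ha he.le hP0 I.hP I.hL)
      · push_cast; linarith
  set c : ℝ := 4 * μ * (9 / N) ^ (4 / 5 : ℝ) with hc'
  have hc0 : 0 < c := by positivity
  obtain ⟨L1, hL1⟩ := eventually_atTop.1 (t3.eventually_gt_atTop (2 / c))
  obtain ⟨k, hk⟩ := exists_nat_ge L1
  obtain ⟨a, L, P, I, hkL⟩ := key k
  have hLp : 0 < L := by linarith [I.hL0]
  have hP := I.le h0 (hL0 L (hNL.trans I.hL0)).2.1
  have f1 := hL1 L (hk.trans hkL)
  rw [div_lt_iff₀ hc0] at f1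
  have f2 : 4 * μ * (9 * L / N) ^ (4 / 5 : ℝ) = L ^ (3 / 100 : ℝ) * c * L ^ (77 / 100 : ℝ) := by
    rw [show 9 * L / N = 9 / N * L by ring, Real.mul_rpow (by positivity) hLp.le, split L hLp, hc']
    ring
  have f3 : 4 * μ * (9 * L / N) ^ (4 / 5 : ℝ) ≤ P :=
    (le_mul_of_one_le_left (by positivity) (one_le_pow₀ (by linarith [big I.ha]))).trans I.hP
  have f4 : 2 * L ^ (77 / 100 : ℝ) < L ^ (3 / 100 : ℝ) * c * L ^ (77 / 100 : ℝ) := by gcongr
  linarith

end Pool.Agent.P.MP_dcd5d0_pr.S2
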