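import Pool.Agent.P.MP_dcd5d0_pr.S2.St

/-! Blocking at the first scale. -/

set_option autoImplicit false

open MeasureTheory ProbabilityTheory Finset Function Filter

namespace Pool.Agent.P.MP_dcd5d0_pr.S2

open SC

open Cx

namespace Base

lemma cheb {Ω : Type} [MeasurableSpace Ω] (μ : Measure Ω) [IsProbabilityMeasure μ] (b : ℕ)
    (hb : 0 < b) (f : ℕ → Ω → ℝ) (hm : ∀ i, Measurable (f i)) (h01 : ∀ i ω, f i ω = 0 ∨ f i ω = 1)
    (hi : ∀ i j, i ≠ j → IndepFun (f i) (f j) μ) {p : ℝ} (hp : 0 < p)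
    (hq : ∀ i, p ≤ ∫ ω, f i ω ∂μ) :
    μ.real {ω | ∑ i ∈ range b, f i ω < b * p / 2} ≤ 4 / (b * p) := by
  have hL : ∀ i, MemLp (f i) 2 μ := fun i =>
    MemLp.of_bound (hm i).aestronglyMeasurable 1 (Eventually.of_forall fun ω => by
      rcases h01 i ω with e | e <;> simp [e])
  set m := ∑ i ∈ range b, ∫ ω, f i ω ∂μ with hmm
  have hb' : (0 : ℝ) < b := by exact_mod_cast hb
  have m1 : b * p ≤ m := by
    have := card_nsmul_le_sum (range b) (fun i => ∫ ω, f i ω ∂μ) p fun i _ => hq i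
    simpa using this
  have bp : 0 < b * p := by positivity
  have m0 : 0 < m := by linarith
  have hS : MemLp (∑ i ∈ range b, f i) 2 μ := memLp_finsetSum' _ fun i _ => hL i
  have hE : μ[∑ i ∈ range b, f i] = m := by
    simp only [Finset.sum_apply]
    exact integral_finsetSum _ fun i _ => (hL i).integrable (by norm_num)
  have hV : variance (∑ i ∈ range b, f i) μ ≤ m := by
    rw [IndepFun.variance_sum (fun i _ => hL i) fun i _ j _ h => hi i j h]
    refine sum_le_sum fun i _ => (variance_le_expectation_sq (hm i).aestronglyMeasurable).trans ?_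
    refine le_of_eq (integral_congr_ae (Eventually.of_forall fun ω => ?_))
    rcases h01 i ω with e | e <;> simp [e]
  have h := meas_ge_le_variance_div_sq hS (c := m / 2) (by linarith)
  rw [hE] at h
  have h2 := ENNReal.toReal_le_of_le_ofReal (div_nonneg (variance_nonneg _ _) (sq_nonneg _)) h
  refine le_trans (measureReal_mono (fun ω hω => ?_)) (h2.trans ?_)
  · simp only [Set.mem_ofPred_eq, Finset.sum_apply] at hω ⊢
    exact le_trans (by linarith) (neg_le_abs _)
  · rw [div_le_div_iff₀ (by positivity) bp]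
    nlinarith [variance_nonneg (∑ i ∈ range b, f i) μ]

/-- a walk pays for all the columns that it passes -/
lemma pass (C : Cx) {N t x : ℝ} (hN : 3 * C.D ≤ N) (z : ℕ → V)
    (hz : ∀ i : ℕ, |C.X (z i) - (x + 12 * N * i + 2 * C.D)| ≤ C.D ∧ C.Y (z i) ≤ -(t / 4) ∧
      t / 4 ≤ t + C.Y (z i))
    {ζ : V} {ω : Om} {A : Set V} {p : V} (hp : C.X p ≤ x) (hpY : |C.Y p| ≤ t / 4)
    (hA : ∀ w ∈ A, |C.Y w| ≤ t / 4) (n : ℕ) :
    ∀ (q : V) (y : ℝ), PW ζ ω A p q y → |C.Y q| ≤ t / 4 → x + 12 * N * n ≤ C.X q →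
      ∑ i ∈ range n, Pi ((C.LR 0 N 0 t).shift (z i)) ζ ω ≤ y := by
  have hD := C.D1
  induction n with
  | zero => intro q y h _ _; simpa using h.nonneg
  | succ n ih =>
    intro q y h hq hx
    obtain ⟨z1, z2, z3⟩ := hz n
    rw [abs_le] at z1
    have N0 : 0 ≤ N := by linarith
    have n0 : 0 ≤ 12 * N * n := by positivity
    push_cast at hx
    have hy : ∀ w, (w = p ∨ w = q ∨ w ∈ A) → |C.Y w| ≤ t / 4 := by
      rintro w (rfl | rfl | e)
      exacts [hpY, hq, hA w e]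
    obtain ⟨p', q', s1, s2, s3, a, b, c, d, e, f, -⟩ := extract_pw (C := C)
      (x0 := 0 + C.X (z n)) (x1 := N + C.X (z n)) (y0 := 0 + C.Y (z n))
      (y1 := t + C.Y (z n)) h (by linarith) (by linarith) (by linarith)
      (fun w hw _ _ => ⟨by linarith [(abs_le.1 (hy w hw)).1], by linarith [(abs_le.1 (hy w hw)).2]⟩)
    have h1 := ih p' s1 a (hy p' f) (by linarith [b.1.1])
    have h2 : Pi ((C.LR 0 N 0 t).shift (z n)) ζ ω ≤ s2 := by
      rw [LR_shift]
      exact Pi_le b (c.mono Set.inter_subset_right)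
    rw [sum_range_succ]
    linarith [d.nonneg]

/-- one block of columns is expensive -/
lemma block (hL : St_Loc) (C : Cx) (φ : ℝ) (h0 : 0 < φ) (h1 : φ ≤ 1) : ∀ᶠ N : ℕ in atTop,
    ∀ (b : ℕ) (π Y e x : ℝ), 0 < b → 0 < π → 0 < Y → 4 * C.M (4 * N) ≤ e → 8 * e ≤ π * Y →
    π ≤ C.SP (fun ζ => {ω | Y ≤ Pi (C.LR 0 N 0 (φ * N)) ζ ω}) →
    ∃ z : ℕ → V, (∀ i : ℕ, |C.X (z i) - (x + 12 * N * i + 2 * C.D)| ≤ C.D ∧
      C.Y (z i) ≤ -(φ * N / 4) ∧ φ * N / 4 ≤ φ * N + C.Y (z i)) ∧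
      C.SP (fun ζ => {ω | ∑ i ∈ range b, Pi ((C.LR 0 N 0 (φ * N)).shift (z i)) ζ ω
        < π * b * Y / 8}) ≤ 8 / (b * π) + 16 * e / (π * Y) := by
  have hD := C.D1
  filter_upwards [tendsto_natCast_atTop_atTop.eventually (hL C),
    tendsto_natCast_atTop_atTop.eventually (eventually_ge_atTop (4 * C.D / φ))] with N hN hN'
  intro b π Y e x hb hπ hY he he' hP
  have t4 : 4 * C.D ≤ φ * N := by rw [div_le_iff₀ h0] at hN'; linarith
  have N0 : (0 : ℝ) ≤ N := Nat.cast_nonneg N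
  have tN : φ * N ≤ N := mul_le_of_le_one_left N0 h1
  have hb' : (0 : ℝ) < b := by exact_mod_cast hb
  choose z hz using fun i : ℕ => C.near (x + 12 * N * i + 2 * C.D) (-(φ * N / 2))
  refine ⟨z, fun i => ⟨(hz i).1, by linarith [(abs_le.1 (hz i).2).2],
    by linarith [(abs_le.1 (hz i).2).1]⟩, ?_⟩
  have ne : (C.LR 0 N 0 (φ * N)).NE := LR_ne N0 (by linarith)
  have c4 : ⌈4 * (N : ℝ)⌉₊ = 4 * N := by
    rw [show 4 * (N : ℝ) = ((4 * N : ℕ) : ℝ) by push_cast; ring, Nat.ceil_natCast]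
  have key := fun i : ℕ => hN (C.X (z i) + N / 2) (C.Y (z i) + φ * N / 2)
    ((C.LR 0 N 0 (φ * N)).shift (z i)) (ne.shift _) (by
      rw [LR_shift]
      rintro w ⟨a1, a2, a3, a4⟩
      exact ⟨abs_le.2 ⟨by linarith, by linarith⟩, abs_le.2 ⟨by linarith, by linarith⟩⟩) (by
      rw [LR_shift]
      rintro p q ⟨⟨a1, a2, a3, a4⟩, b1, b2, b3, b4⟩
      exact ⟨⟨abs_le.2 ⟨by linarith, by linarith⟩, abs_le.2 ⟨by linarith, by linarith⟩⟩,
        abs_le.2 ⟨by linarith, by linarith⟩, abs_le.2 ⟨by linarith, by linarith⟩⟩)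
  rw [c4] at key
  choose E Xl e1 e2 e3 e4 e5 e6 using key
  set f : ℕ → Om → ℝ := fun i ω => if 3 * Y / 4 ≤ Xl i ω then 1 else 0 with hf
  have ms : ∀ i, MeasurableSet {ω | 3 * Y / 4 ≤ Xl i ω} := fun i =>
    measurableSet_le measurable_const (e4 i)
  have fm : ∀ i, Measurable (f i) := fun i =>
    Measurable.ite (ms i) measurable_const measurable_const
  have fl : ∀ i, C.Loc {w | |C.X w - (C.X (z i) + N / 2)| ≤ 5 * N} (f i) := fun i ω ω' h => by
    simp only [hf, e5 i ω ω' h]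
  have fi : ∀ i j, i ≠ j → IndepFun (f i) (f j) C.Pm := by
    intro i j hij
    refine NM.Fld.Loc.indep (Set.disjoint_left.2 fun w a a' => ?_) (fm i) (fm j) (fl i) (fl j)
    simp only [Set.mem_ofPred_eq, abs_le] at a a'
    have zi := abs_le.1 (hz i).1
    have zj := abs_le.1 (hz j).1
    rcases lt_or_gt_of_ne hij with c | c
    · have : (i : ℝ) + 1 ≤ j := by exact_mod_cast c
      nlinarith
    · have : (j : ℝ) + 1 ≤ i := by exact_mod_cast c
      nlinarith
  have πY : 0 < π * Y := by positivity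
  have fp : ∀ i, π / 2 ≤ ∫ ω, f i ω ∂C.Pm := by
    intro i
    have a1 : ∫ ω, f i ω ∂C.Pm = C.Pm.real {ω | 3 * Y / 4 ≤ Xl i ω} := by
      rw [← integral_indicator_one (ms i)]
      congr 1
    have a2 := SP_Pi_shift (C := C) ne (measurableSet_Ici (a := Y)) (z i)
    have a3 := SP_le_add (C := C)
      (A := fun ζ => {ω | Pi ((C.LR 0 N 0 (φ * N)).shift (z i)) ζ ω ∈ Set.Ici Y})
      (B := fun _ => {ω | 3 * Y / 4 ≤ Xl i ω}) (B' := fun ζ => {ω | Y / 4 ≤ E i ζ ω})
      ((e6 i).mono fun ζ h ω hω => by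
        have := abs_le.1 (h ω)
        simp only [Set.mem_ofPred_eq, Set.mem_Ici] at hω ⊢
        by_contra hc
        push Not at hc
        linarith)
    have a4 := SP_markov (e1 i) (e2 i) (t := Y / 4) (by linarith)
    have a5 : C.SE (E i) / (Y / 4) ≤ π / 2 := by
      rw [div_le_iff₀ (by linarith)]
      linarith [e3 i]
    rw [SP_indep, a2] at a3
    rw [a1]
    have a6 : C.SP (fun ζ => {ω | Pi (C.LR 0 N 0 (φ * N)) ζ ω ∈ Set.Ici Y})
      = C.SP (fun ζ => {ω | Y ≤ Pi (C.LR 0 N 0 (φ * N)) ζ ω}) := rfl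
    linarith
  have c1 := cheb C.Pm b hb f fm (fun i ω => by simp only [hf]; split_ifs <;> simp) fi
    (p := π / 2) (by linarith) fp
  have c2 := SP_markov (Adm.sum (range b) fun i _ => e1 i)
    (fun ζ ω => sum_nonneg fun i _ => e2 i ζ ω) (t := π * b * Y / 16) (by positivity)
  rw [SE_sum _ fun i _ => e1 i] at c2
  have c3 : ∑ i ∈ range b, C.SE (E i) ≤ b * e := by
    have := sum_le_card_nsmul (range b) (fun i => C.SE (E i)) e fun i _ => (e3 i).trans he
    simpa using this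
  have c4 : (∑ i ∈ range b, C.SE (E i)) / (π * b * Y / 16) ≤ 16 * e / (π * Y) := by
    refine (div_le_div_of_nonneg_right c3 (by positivity)).trans (le_of_eq ?_)
    field_simp
  have c5 : 4 / (b * (π / 2)) = 8 / (b * π) := by field_simp; norm_num
  refine (SP_le_add (B := fun _ => {ω | ∑ i ∈ range b, f i ω < b * (π / 2) / 2})
    (B' := fun ζ => {ω | π * b * Y / 16 ≤ ∑ i ∈ range b, E i ζ ω})
    ((Far.finset (range b) fun i _ => e6 i).mono fun ζ h ω hω => ?_)).trans ?_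
  · simp only [Set.mem_ofPred_eq] at hω ⊢
    by_contra hc
    push Not at hc
    have : ∑ i ∈ range b, (3 * Y / 4 * f i ω - E i ζ ω)
        ≤ ∑ i ∈ range b, Pi ((C.LR 0 N 0 (φ * N)).shift (z i)) ζ ω := by
      refine sum_le_sum fun i hi => ?_
      have := abs_le.1 (h i hi ω)
      have := e2 i ζ ω
      have := Pi_nonneg ((C.LR 0 N 0 (φ * N)).shift (z i)) ζ ω
      simp only [hf]
      split_ifs <;> linarith
    rw [sum_sub_distrib, ← mul_sum] at this
    nlinarith [mul_le_mul_of_nonneg_left hc.1 (show 0 ≤ 3 * Y / 4 by linarith)]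
  · rw [SP_indep]
    linarith

end Base

open Base

theorem base (hL : St_Loc) : St_Base := by
  intro C φ h0 h1
  have hD := C.D1
  filter_upwards [block hL C φ h0 h1,
    tendsto_natCast_atTop_atTop.eventually (eventually_ge_atTop (16 * C.D / φ))] with N hN hN'
  intro lam π Y e σ hl hπ hY hσ he he' hP
  have t4 : 16 * C.D ≤ φ * N := by rw [div_le_iff₀ h0] at hN'; linarith
  have N0 : (0 : ℝ) ≤ N := Nat.cast_nonneg N
  have tN : φ * N ≤ N := mul_le_of_le_one_left N0 h1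
  have l1 : (100 : ℝ) ≤ lam := by exact_mod_cast hl
  set b := lam / 48 with hb
  have b0 : 0 < b := by omega
  have b1 : (48 : ℝ) * b ≤ lam := by exact_mod_cast (show 48 * b ≤ lam by omega)
  have b2 : (lam : ℝ) ≤ 96 * b := by exact_mod_cast (show lam ≤ 96 * b by omega)
  have b3 : (0 : ℝ) < b := by exact_mod_cast b0
  set W : ℝ := 12 * N * b with hW
  have W1 : 4 * W ≤ lam * N := by nlinarith
  have W2 : lam * N ≤ 8 * W := by nlinarith
  have W0 : 0 < W := by have : (0 : ℝ) < N := by linarith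
                        positivity
  choose z z1 z2 using fun j : ℕ => hN b π Y e (W * (j - 20)) b0 hπ hY he he' hP
  have hh : φ / (4 * lam) * (lam * N) = φ * N / 4 := by field_simp
  have ne : (C.BX (lam * N) (φ / (4 * lam)) σ).NE :=
    BX_ne (by rw [div_le_one (by linarith)]; linarith) (by rw [hh]; linarith) (by positivity) hσ
  refine le_trans (SP_mono (B := fun ζ => {ω | ∃ j ∈ range 41, ω ∈
    {ω | ∑ i ∈ range b, Pi ((C.LR 0 N 0 (φ * N)).shift (z j i)) ζ ω < π * b * Y / 8}})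
    (Far.of_forall fun ζ ω hω => ?_)) ((SP_biUnion _ _).trans ?_)
  · obtain ⟨p, q, y, ⟨⟨a1, a2⟩, ⟨a3, a4⟩, a5, _⟩, w, hy⟩ := exists_lt_Pi ne hω
    rw [hh] at a2 a4
    rw [abs_le] at a1
    set j := ⌈C.X p / W + 20⌉₊ with hj
    have x1 : -16 ≤ C.X p / W := by rw [le_div_iff₀ W0]; linarith
    have x2 : C.X p / W ≤ 16 := by rw [div_le_iff₀ W0]; linarith
    have j1 : C.X p / W + 20 ≤ j := Nat.le_ceil _
    have j2 : (j : ℝ) < C.X p / W + 20 + 1 := Nat.ceil_lt_add_one (by linarith)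
    have xe : C.X p / W * W = C.X p := div_mul_cancel₀ _ W0.ne'
    refine ⟨j, mem_range.2 (by exact_mod_cast (show (j : ℝ) < 41 by linarith)), ?_⟩
    have := pass C (N := N) (by linarith) (z j) (z1 j) (p := p) (by nlinarith) a2
      (fun w hw => by rw [← hh]; exact hw.2) b q y w a4 (by nlinarith)
    simp only [Set.mem_ofPred_eq]
    have : π * lam * Y / 800 ≤ π * b * Y / 8 := by nlinarith [mul_pos hπ hY]
    linarith
  · have := sum_le_card_nsmul (range 41) _ _ fun j _ => z2 j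
    simp only [card_range, nsmul_eq_mul] at this
    refine this.trans ?_
    have : 8 / (b * π) ≤ 800 / (π * lam) := by
      rw [div_le_div_iff₀ (by positivity) (by positivity)]
      nlinarith
    push_cast
    linarith

end Pool.Agent.P.MP_dcd5d0_pr.S2
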