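import Pool.Agent.P.MP_dcd5d0_pr.S2.Net

/-! The corner variable. -/

set_option autoImplicit false

open MeasureTheory ProbabilityTheory Finset Function Filter

namespace Pool.Agent.P.MP_dcd5d0_pr.S2

open SC

open Cx NetL

theorem cor (hA : St_LineA) (hN : St_LineN) : St_Cor := by
  intro C
  have hD := C.D1
  filter_upwards [hA C, hA C.swap, hN C, hN C.swap, big C] with N A1 A2 B1 B2 hb
    cx cy τ a1 a2 h1 h2 h3 h4 h5 h6
  obtain ⟨ph, c1, c2⟩ := C.near (cx - 2 * N / 1000) (cy - a1 + N / 200)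
  obtain ⟨pv, d1, d2⟩ := C.near (cx + a2 - N / 50 + N / 200) (cy + τ + 2 * N / 1000 - N)
  rw [abs_le] at c1 c2 d1 d2
  obtain ⟨Zh, τh, nh, dh⟩ := B1 ph
  obtain ⟨Zv, τv, nv, dv⟩ := B2 pv
  set F := C.cfr N cx cy τ a1 a2 with hF
  set U := C.tube cx cy τ a1 a2 with hU
  have sh : {z | z - ph ∈ C.Rg N} ⊆ F := by
    intro z hz
    have := rg_iff.1 hz
    exact ⟨Or.inl ⟨by linarith, by linarith⟩, abs_le.2 ⟨by linarith, by linarith⟩,
      abs_le.2 ⟨by linarith, by linarith⟩⟩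
  have sv : {z | z - pv ∈ C.swap.Rg N} ⊆ F := by
    intro z hz
    have := rg_iff.1 hz
    simp only [swap_X, swap_Y] at this
    exact ⟨Or.inr ⟨by linarith, by linarith⟩, abs_le.2 ⟨by linarith, by linarith⟩,
      abs_le.2 ⟨by linarith, by linarith⟩⟩
  obtain ⟨τ1, g⟩ := glue (net_mono nh sh) (net_mono nv.swap sv)
    (meet hb dh dv (by linarith) (by linarith) (by linarith) (by linarith))
  rw [Set.union_self] at g
  set R : Om → V → V → Prop := fun ω p q => (p ∈ Zh ω ∧ p ∈ U) ∧ (q ∈ Zv ω ∧ q ∈ U) with hR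
  have ne1 : (C.swap.LR (cy - a1) (cy + τ + 1) cx (cx + τ)).NE :=
    LR_ne (by linarith) (by simp only [swap_D]; linarith)
  have ne2 : (C.LR (cx - 1) (cx + a2) cy (cy + τ)).NE := LR_ne (by linarith) (by linarith)
  have route : ∀ ζ ω p1 q1 y1 p2 q2 y2, (C.swap.LR (cy - a1) (cy + τ + 1) cx (cx + τ)).R p1 q1 →
      PW ζ ω (C.swap.LR (cy - a1) (cy + τ + 1) cx (cx + τ)).A p1 q1 y1 →
      (C.LR (cx - 1) (cx + a2) cy (cy + τ)).R p2 q2 →
      PW ζ ω (C.LR (cx - 1) (cx + a2) cy (cy + τ)).A p2 q2 y2 →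
      ∃ p q y, R ω p q ∧ PW ζ ω U p q y ∧ y ≤ y1 + y2 := by
    intro ζ ω p1 q1 y1 p2 q2 y2 r1 w1 r2 w2
    have al1 := fun z hz => LR_all (C := C.swap) (z := z) (by linarith) r1 hz
    have al2 := fun z hz => LR_all (C := C) (z := z) (by linarith) r2 hz
    obtain ⟨⟨_, r11, _⟩, r12, _⟩ := r1
    obtain ⟨⟨_, r21, _⟩, r22, _⟩ := r2
    simp only [swap_X, swap_Y, swap_D] at al1 r11 r12
    have u1 : (C.swap.LR (cy - a1) (cy + τ + 1) cx (cx + τ)).A ⊆ U := by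
      rintro z ⟨e1, e2, e3, e4⟩
      exact Or.inl ⟨e3, e4, e1.le, e2.le⟩
    have u2 : (C.LR (cx - 1) (cx + a2) cy (cy + τ)).A ⊆ U := by
      rintro z ⟨e1, e2, e3, e4⟩
      exact Or.inr ⟨e1.le, e2.le, e3, e4⟩
    obtain ⟨z1, s1, s2, e1, e2, e3, e4, e5⟩ := hit hb dh w1 (fun z hz => by
      have := al1 z hz
      constructor <;> linarith) (Or.inl (by constructor <;> linarith))
    have e6 := rg_iff.1 ((dh ω).1 e1)
    obtain ⟨z2, s3, s4, s5, s6, f1, f2, f3, f4, f5, f6, f7, f8⟩ := PW.cross C.X C.Y C.uv w2 e4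
      (fun z hz => by
        have := al1 z (by rcases hz with rfl | h | h <;> simp [*])
        constructor <;> linarith)
      (fun z hz => by
        have := al2 z hz
        constructor <;> linarith)
    have f9 := al1 z2 (Or.inr (Or.inr f2))
    obtain ⟨z3, s7, s8, k1, k2, k3, k4, k5⟩ := hit (C := C.swap) hb dv f4 (fun z hz => by
      have := al2 z (by rcases hz with rfl | h | h <;> simp [*])
      simp only [swap_X, swap_D]
      constructor <;> linarith) (Or.inl (by simp only [swap_Y]; constructor <;> linarith))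
    exact ⟨z1, z3, _, ⟨⟨e1, u1 e2⟩, k1, u2 k2⟩, (f6.mono u1).trans (u1 f2) (k3.mono u2),
      by linarith [e3.nonneg, f7.nonneg, f3.nonneg, k4.nonneg]⟩
  have hne : ∀ ω, (Cl.mk U (R ω)).NE := by
    intro ω
    obtain ⟨p1, q1, _, r1, w1⟩ := ne1
    obtain ⟨p2, q2, _, r2, w2⟩ := ne2
    obtain ⟨_, w1⟩ := w1.change ω
    obtain ⟨_, w2⟩ := w2.change ω
    obtain ⟨p, q, y, a, b, _⟩ := route 0 ω _ _ _ _ _ _ r1 (w1.pw 0) r2 (w2.pw 0)
    exact Cl.ne_of (c := ⟨U, R ω⟩) a b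
  have lR : Loc F R := fun ω ω' e => by
    simp only [hR, nh.lZ ω ω' fun x hx => e x (sh hx), nv.lZ ω ω' fun x hx => e x (sv hx)]
  have hZ : ∀ ω p q, R ω p q → p ∈ Zh ω ∪ Zv ω ∧ q ∈ Zh ω ∪ Zv ω :=
    fun ω p q h => ⟨Or.inl h.1.1, Or.inr h.2.1⟩
  have co : ∀ ω p q, R ω p q → p ∈ U ∧ q ∈ U ∧ C.Y p ≤ cy - a1 + N / 50 ∧
      cx + a2 - N / 50 ≤ C.X q := by
    intro ω p q h
    have e1 := rg_iff.1 ((dh ω).1 h.1.1)
    have e2 := rg_iff.1 ((dv ω).1 h.2.1)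
    simp only [swap_X, swap_Y] at e2
    exact ⟨h.1.2, h.2.2, by linarith, by linarith⟩
  obtain ⟨m1, m2, m3⟩ := net_min (net_mono g (Set.subset_union_right (s := U))) U R
    (fun p q => by
      by_cases c : p ∈ U ∧ q ∈ U
      · have : {ω | R ω p q} = {ω | p ∈ Zh ω} ∩ {ω | q ∈ Zv ω} := by
          ext ω; simp [hR, c.1, c.2]
        rw [this]; exact (nh.mZ p).inter (nv.mZ q)
      · have : {ω | R ω p q} = ∅ := by
          ext ω; simp only [hR, Set.mem_ofPred_eq, Set.mem_empty_iff_false, iff_false]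
          exact fun h => c ⟨h.1.2, h.2.2⟩
        rw [this]; exact MeasurableSet.empty)
    (lR.mono Set.subset_union_right) hZ Set.subset_union_left
    (fun ω p q h => ⟨Or.inl h.1.2, Or.inl h.2.2⟩) hne
  refine ⟨_, _, m1, m2, (A1 ph).1.add (A2 pv).1, fun ζ ω =>
    add_nonneg ((A1 ph).2.1 ζ ω) ((A2 pv).2.1 ζ ω), ?_, m3.mono fun ζ hζ ω => ?_,
    m3.mono fun ζ hζ ω δ hδ => ?_, fun ω δ hδ => ?_⟩
  · rw [SE_add (A1 ph).1 (A2 pv).1]
    have e1 := (A1 ph).2.2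
    have e3 : C.SE (C.swap.pr N pv) = _ := (A2 pv).2.2
    linarith [C.MH_lex N, C.swap_MH_lex N]
  · have e1 := abs_le.1 (hζ ω)
    have e2 := Pi_nonneg ⟨U, R ω⟩ ζ ω
    have e3 : Pi ⟨U, R ω⟩ ζ ω - Pi (C.LR (cx - 1) (cx + a2) cy (cy + τ)) ζ ω
        ≤ Pi (C.swap.LR (cy - a1) (cy + τ + 1) cx (cx + τ)) ζ ω := by
      refine le_Pi ne1 fun p1 q1 y1 r1 w1 => ?_
      have : Pi ⟨U, R ω⟩ ζ ω - y1 ≤ Pi (C.LR (cx - 1) (cx + a2) cy (cy + τ)) ζ ω := by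
        refine le_Pi ne2 fun p2 q2 y2 r2 w2 => ?_
        obtain ⟨p, q, y, a, b, c⟩ := route ζ ω _ _ _ _ _ _ r1 w1 r2 w2
        linarith [Pi_le (c := ⟨U, R ω⟩) a b]
      linarith
    constructor <;> linarith
  · have e1 := abs_le.1 (hζ ω)
    obtain ⟨p, q, y, a, b, c⟩ := exists_lt_Pi (hne ω) (lt_add_of_pos_right (Pi ⟨U, R ω⟩ ζ ω) hδ)
    obtain ⟨k1, k2, k3, k4⟩ := co ω p q a
    exact ⟨p, q, y, k1, k2, k3, k4, b, by linarith⟩
  · obtain ⟨p, q, t, a, b, c⟩ := exists_lt_MinP (ω := ω) (hne ω) (f := τ1 ω)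
      (lt_add_of_pos_right _ hδ)
    obtain ⟨k1, k2, k3, k4⟩ := co ω p q a
    refine ⟨p, q, t, k1, k2, k3, k4, b, fun ω' t' e w => ?_⟩
    obtain ⟨a', ha'⟩ := net_bdd g U ω'
    have e1 := MinP_le (ω := ω') (c := ⟨U, R ω'⟩) (f := τ1 ω') (a := a')
      (fun p q t r w => ha' p q t (hZ ω' p q r).1 (hZ ω' p q r).2 w) (p := p) (q := q)
      (by rw [← lR ω ω' e]; exact a) w
    have e2 := g.lτ ω ω' e
    rw [← e2] at e1 ⊢
    linarith

end Pool.Agent.P.MP_dcd5d0_pr.S2
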