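import Pool.Agent.P.MP_dcd5d0_pr.NM.LocF

/-! The standing assumptions (a maximal flat edge), star probability and star expectation. -/

set_option autoImplicit false

open MeasureTheory ProbabilityTheory Finset Function Filter

namespace Pool.Agent.P.MP_dcd5d0_pr.S2

open SC

/-- A maximal flat edge in the coordinates `X, Y`, and an invariant mean over the targets. -/
structure Cx extends NM.Fld where
  X : V →+ ℝ
  Y : V →+ ℝ
  uv : ∃ u v : Fin 2 → ℝ, ∀ (z : V) (i : Fin 2), (z i : ℝ) = X z * u i + Y z * v i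
  D : ℝ
  D1 : 1 ≤ D
  hX : ∀ z, |X z| ≤ D * ‖z‖
  hY : ∀ z, |Y z| ≤ D * ‖z‖
  hN : ∀ z, ‖z‖ ≤ D * max |X z| |Y z|
  near : ∀ a b : ℝ, ∃ z, |X z - a| ≤ D ∧ |Y z - b| ≤ D
  straight : ∀ p q : V, ∃ (σ : ℕ → Dir) (k : ℕ), pos p σ k = q ∧ (k : ℝ) ≤ D * ‖q - p‖ ∧
    ∀ j ≤ k, min (X p) (X q) - D ≤ X (pos p σ j) ∧ X (pos p σ j) ≤ max (X p) (X q) + D ∧
      min (Y p) (Y q) - D ≤ Y (pos p σ j) ∧ Y (pos p σ j) ≤ max (Y p) (Y q) + D
  low : ∀ z, X z + Y z ≤ toFld.hh z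
  cone : ∀ θ : ℝ, 0 < θ → ∃ κ : ℝ, 0 < κ ∧ ∀ z,
    X z + Y z + κ * (max (-X z) (-Y z) - θ * max |X z| |Y z|) ≤ toFld.hh z
  up : ∀ᶠ L : ℝ in atTop, ∀ z, 0 ≤ X z → 0 ≤ Y z → X z + Y z ≤ L →
    toFld.hh z ≤ X z + Y z + L ^ (19 / 25 : ℝ)
  m : (V → ℝ) → ℝ
  m_add : ∀ F G, Bd F → Bd G → m (fun ζ => F ζ + G ζ) = m F + m G
  m_smul : ∀ (c : ℝ) F, Bd F → m (fun ζ => c * F ζ) = c * m F
  m_const : ∀ c : ℝ, m (fun _ => c) = c
  m_mono : ∀ F G (b : ℝ), Bd F → Bd G → (∀ ζ, b ≤ X ζ → b ≤ Y ζ → F ζ ≤ G ζ) → m F ≤ m G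
  m_shift : ∀ F z, Bd F → m (fun ζ => F (ζ - z)) = m F
  m_hh : ∀ p q, m (fun ζ => toFld.hh (ζ - p) - toFld.hh (ζ - q)) = X (q - p) + Y (q - p)

namespace Cx

/-- exchange of the two coordinates -/
def swap (C : Cx) : Cx where
  toFld := C.toFld
  X := C.Y
  Y := C.X
  uv := by
    obtain ⟨u, v, h⟩ := C.uv
    exact ⟨v, u, fun z i => by rw [h, add_comm]⟩
  D := C.D
  D1 := C.D1
  hX := C.hY
  hY := C.hX
  hN := fun z => by rw [max_comm]; exact C.hN z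
  near := fun a b => by
    obtain ⟨z, h1, h2⟩ := C.near b a
    exact ⟨z, h2, h1⟩
  straight := fun p q => by
    obtain ⟨σ, k, h1, h2, h3⟩ := C.straight p q
    exact ⟨σ, k, h1, h2, fun j hj => ⟨(h3 j hj).2.2.1, (h3 j hj).2.2.2, (h3 j hj).1, (h3 j hj).2.1⟩⟩
  low := fun z => by rw [add_comm]; exact C.low z
  cone := fun θ h => by
    obtain ⟨κ, h1, h2⟩ := C.cone θ h
    refine ⟨κ, h1, fun z => ?_⟩
    rw [add_comm (C.Y z), max_comm (-C.Y z), max_comm |C.Y z|]; exact h2 z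
  up := by
    filter_upwards [C.up] with L h z h1 h2 h3
    rw [add_comm (C.Y z)] at h3 ⊢; exact h z h2 h1 h3
  m := C.m
  m_add := C.m_add
  m_smul := C.m_smul
  m_const := C.m_const
  m_mono := fun F G b h1 h2 h3 => C.m_mono F G b h1 h2 fun ζ a b => h3 ζ b a
  m_shift := C.m_shift
  m_hh := fun p q => by rw [add_comm (C.Y _)]; exact C.m_hh p q

variable (C : Cx)

@[simp] lemma swap_swap : C.swap.swap = C := rfl
@[simp] lemma swap_X : C.swap.X = C.Y := rfl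
@[simp] lemma swap_Y : C.swap.Y = C.X := rfl
@[simp] lemma swap_D : C.swap.D = C.D := rfl
@[simp] lemma swap_toFld : C.swap.toFld = C.toFld := rfl

/-- star probability -/
noncomputable def SP (A : V → Set Om) : ℝ := C.m (fun ζ => C.Pm.real (A ζ))

/-- star expectation -/
noncomputable def SE (F : V → Om → ℝ) : ℝ := C.m (fun ζ => ∫ ω, F ζ ω ∂C.Pm)

@[simp] lemma swap_SP : C.swap.SP = C.SP := rfl
@[simp] lemma swap_SE : C.swap.SE = C.SE := rfl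

/-- measurable and dominated -/
def Adm (F : V → Om → ℝ) : Prop :=
  (∀ ζ, Measurable (F ζ)) ∧ ∃ G : Om → ℝ, Integrable G C.Pm ∧ ∀ ζ ω, |F ζ ω| ≤ G ω

@[simp] lemma swap_Adm : C.swap.Adm = C.Adm := rfl

/-- the property holds for all far targets -/
def Far (p : V → Prop) : Prop := ∃ b : ℝ, ∀ ζ, b ≤ C.X ζ → b ≤ C.Y ζ → p ζ

lemma swap_Far (p : V → Prop) : C.swap.Far p ↔ C.Far p :=
  ⟨fun ⟨b, h⟩ => ⟨b, fun ζ a c => h ζ c a⟩, fun ⟨b, h⟩ => ⟨b, fun ζ a c => h ζ c a⟩⟩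

variable {C}

lemma Far.of_forall {p : V → Prop} (h : ∀ ζ, p ζ) : C.Far p := ⟨0, fun ζ _ _ => h ζ⟩

lemma Far.mono {p q : V → Prop} (h : C.Far p) (hpq : ∀ ζ, p ζ → q ζ) : C.Far q := by
  obtain ⟨b, hb⟩ := h
  exact ⟨b, fun ζ a c => hpq ζ (hb ζ a c)⟩

lemma Far.and {p q : V → Prop} (h : C.Far p) (h' : C.Far q) : C.Far (fun ζ => p ζ ∧ q ζ) := by
  obtain ⟨b, hb⟩ := h
  obtain ⟨b', hb'⟩ := h'
  exact ⟨max b b', fun ζ a c => ⟨hb ζ ((le_max_left _ _).trans a) ((le_max_left _ _).trans c),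
    hb' ζ ((le_max_right _ _).trans a) ((le_max_right _ _).trans c)⟩⟩

lemma Far.finset {ι : Type} (s : Finset ι) {p : ι → V → Prop} (h : ∀ i ∈ s, C.Far (p i)) :
    C.Far (fun ζ => ∀ i ∈ s, p i ζ) := by
  classical
  induction s using Finset.induction_on with
  | empty => exact Far.of_forall (by simp)
  | insert a s ha ih =>
    refine ((h a (mem_insert_self _ _)).and (ih fun i hi => h i (mem_insert_of_mem hi))).mono ?_
    intro ζ hζ i hi
    rcases mem_insert.1 hi with rfl | hi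
    · exact hζ.1
    · exact hζ.2 i hi

lemma Far.exists {p : V → Prop} (h : C.Far p) : ∃ ζ, p ζ := by
  obtain ⟨b, hb⟩ := h
  obtain ⟨z, h1, h2⟩ := C.near (b + C.D) (b + C.D)
  exact ⟨z, hb z (by linarith [(abs_le.1 h1).1]) (by linarith [(abs_le.1 h2).1])⟩

lemma bd_real (A : V → Set Om) : Bd (fun ζ => C.Pm.real (A ζ)) :=
  ⟨1, fun ζ => by rw [abs_of_nonneg measureReal_nonneg]; exact measureReal_le_one⟩

lemma bd_const (c : ℝ) : Bd (fun _ => c) := ⟨|c|, fun _ => le_rfl⟩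

lemma Adm.int {F : V → Om → ℝ} (h : C.Adm F) (ζ : V) : Integrable (F ζ) C.Pm := by
  obtain ⟨h1, G, h2, h3⟩ := h
  exact h2.mono' (h1 ζ).aestronglyMeasurable (Eventually.of_forall (h3 ζ))

lemma Adm.bd {F : V → Om → ℝ} (h : C.Adm F) : Bd (fun ζ => ∫ ω, F ζ ω ∂C.Pm) := by
  obtain ⟨G, h2, h3⟩ := h.2
  refine ⟨∫ ω, G ω ∂C.Pm, fun ζ => (abs_integral_le_integral_abs).trans ?_⟩
  exact integral_mono (h.int ζ).abs h2 (h3 ζ)

lemma Adm.add {F G : V → Om → ℝ} (h : C.Adm F) (h' : C.Adm G) :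
    C.Adm (fun ζ ω => F ζ ω + G ζ ω) := by
  obtain ⟨h1, a, h2, h3⟩ := h
  obtain ⟨h4, b, h5, h6⟩ := h'
  exact ⟨fun ζ => (h1 ζ).add (h4 ζ), _, h2.add h5, fun ζ ω =>
    (abs_add_le _ _).trans (add_le_add (h3 ζ ω) (h6 ζ ω))⟩

lemma Adm.smul {F : V → Om → ℝ} (h : C.Adm F) (c : ℝ) : C.Adm (fun ζ ω => c * F ζ ω) := by
  obtain ⟨h1, a, h2, h3⟩ := h
  exact ⟨fun ζ => (h1 ζ).const_mul c, _, h2.const_mul |c|, fun ζ ω => by
    rw [abs_mul]; exact mul_le_mul_of_nonneg_left (h3 ζ ω) (abs_nonneg c)⟩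

lemma Adm.of_int {G : Om → ℝ} (hm : Measurable G) (h : Integrable G C.Pm) :
    C.Adm (fun _ ω => G ω) := ⟨fun _ => hm, _, h.abs, fun _ _ => le_rfl⟩

lemma Adm.const (c : ℝ) : C.Adm (fun _ _ => c) := Adm.of_int measurable_const (integrable_const c)

lemma Adm.of_le {F G : V → Om → ℝ} (h : C.Adm G) (hm : ∀ ζ, Measurable (F ζ))
    (hle : ∀ ζ ω, |F ζ ω| ≤ |G ζ ω|) : C.Adm F := by
  obtain ⟨_, a, h2, h3⟩ := h
  exact ⟨hm, a, h2, fun ζ ω => (hle ζ ω).trans (h3 ζ ω)⟩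

lemma Adm.sum {ι : Type} (s : Finset ι) {F : ι → V → Om → ℝ} (h : ∀ i ∈ s, C.Adm (F i)) :
    C.Adm (fun ζ ω => ∑ i ∈ s, F i ζ ω) := by
  classical
  induction s using Finset.induction_on with
  | empty => simpa using Adm.const (C := C) 0
  | insert a s ha ih =>
    simp only [sum_insert ha]
    exact (h a (mem_insert_self _ _)).add (ih fun i hi => h i (mem_insert_of_mem hi))

/-- a measurable function of linear growth of an admissible family -/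
lemma Adm.comp {F : V → Om → ℝ} (h : C.Adm F) {G : ℝ → ℝ} (hG : Measurable G) (c : ℝ)
    (hc : ∀ x, |G x| ≤ |x| + c) : C.Adm (fun ζ ω => G (F ζ ω)) := by
  obtain ⟨h1, a, h2, h3⟩ := h
  exact ⟨fun ζ => hG.comp (h1 ζ), _, h2.add (integrable_const c), fun ζ ω =>
    (hc _).trans (add_le_add (h3 ζ ω) le_rfl)⟩

lemma Adm.shift {F : V → Om → ℝ} (h : C.Adm F) (z : V) :
    C.Adm (fun ζ ω => F (ζ - z) (sh z ω)) := by
  obtain ⟨h1, a, h2, h3⟩ := h
  exact ⟨fun ζ => (h1 _).comp (sh_meas z), fun ω => a (sh z ω),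
    (C.sh_mp z).integrable_comp_of_integrable h2, fun ζ ω => h3 _ _⟩

lemma SE_add {F G : V → Om → ℝ} (h : C.Adm F) (h' : C.Adm G) :
    C.SE (fun ζ ω => F ζ ω + G ζ ω) = C.SE F + C.SE G := by
  unfold SE
  rw [← C.m_add _ _ h.bd h'.bd]
  congr 1; funext ζ; exact integral_add (h.int ζ) (h'.int ζ)

lemma SE_smul {F : V → Om → ℝ} (h : C.Adm F) (c : ℝ) :
    C.SE (fun ζ ω => c * F ζ ω) = c * C.SE F := by
  unfold SE
  rw [← C.m_smul _ _ h.bd]
  congr 1; funext ζ; exact integral_const_mul _ _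

lemma SE_indep (G : Om → ℝ) : C.SE (fun _ ω => G ω) = ∫ ω, G ω ∂C.Pm := C.m_const _

lemma SE_const (c : ℝ) : C.SE (fun _ _ => c) = c := by rw [SE_indep]; simp

lemma SE_sum {ι : Type} (s : Finset ι) {F : ι → V → Om → ℝ} (h : ∀ i ∈ s, C.Adm (F i)) :
    C.SE (fun ζ ω => ∑ i ∈ s, F i ζ ω) = ∑ i ∈ s, C.SE (F i) := by
  classical
  induction s using Finset.induction_on with
  | empty => simpa using SE_const (C := C) 0
  | insert a s ha ih =>
    simp only [sum_insert ha]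
    have h2 := fun i hi => h i (mem_insert_of_mem hi)
    rw [SE_add (h a (mem_insert_self _ _)) (Adm.sum s h2), ih h2]

lemma SE_mono {F G : V → Om → ℝ} (h : C.Adm F) (h' : C.Adm G)
    (hle : C.Far fun ζ => ∀ ω, F ζ ω ≤ G ζ ω) : C.SE F ≤ C.SE G := by
  obtain ⟨b, hb⟩ := hle
  exact C.m_mono _ _ b h.bd h'.bd fun ζ a c => integral_mono (h.int ζ) (h'.int ζ) (hb ζ a c)

lemma SE_nonneg {F : V → Om → ℝ} (h : C.Adm F) (h0 : ∀ ζ ω, 0 ≤ F ζ ω) : 0 ≤ C.SE F := by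
  have := SE_mono (Adm.const 0) h (Far.of_forall h0)
  rwa [SE_const] at this

lemma SE_shift {F : V → Om → ℝ} (h : C.Adm F) (z : V) :
    C.SE (fun ζ ω => F (ζ - z) (sh z ω)) = C.SE F := by
  unfold SE
  rw [← C.m_shift _ z h.bd]
  congr 1; funext ζ
  have := (C.sh_mp z)
  conv_rhs => rw [show C.Pm = Measure.map (sh z) C.Pm from this.map_eq.symm]
  rw [integral_map (sh_meas z).aemeasurable (h.1 _).aestronglyMeasurable]

lemma SE_T (p q : V) : C.Adm (fun ζ ω => T ω p ζ - T ω q ζ) ∧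
    C.SE (fun ζ ω => T ω p ζ - T ω q ζ) = C.X (q - p) + C.Y (q - p) := by
  refine ⟨⟨fun ζ => (T_meas p ζ).sub (T_meas q ζ), fun ω => T ω p q, C.T_int p q,
    fun ζ ω => abs_le.2 ⟨?_, ?_⟩⟩, ?_⟩
  · have := T_tri ω q p ζ
    rw [T_symm ω q p] at this; linarith
  · have := T_tri ω p q ζ
    linarith
  · rw [← C.m_hh p q]
    unfold SE
    congr 1; funext ζ
    rw [integral_sub (C.T_int _ _) (C.T_int _ _), C.int_T, C.int_T]

lemma SP_nonneg (A : V → Set Om) : 0 ≤ C.SP A := by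
  have := C.m_mono _ _ 0 (bd_const 0) (bd_real (C := C) A) fun ζ _ _ => measureReal_nonneg
  rwa [C.m_const] at this

lemma SP_mono {A B : V → Set Om} (h : C.Far fun ζ => A ζ ⊆ B ζ) : C.SP A ≤ C.SP B := by
  obtain ⟨b, hb⟩ := h
  exact C.m_mono _ _ b (bd_real A) (bd_real B) fun ζ a c => measureReal_mono (hb ζ a c)

lemma SP_indep (A : Set Om) : C.SP (fun _ => A) = C.Pm.real A := C.m_const _

lemma SP_le_of {A : V → Set Om} {c : ℝ} (h : C.Far fun ζ => C.Pm.real (A ζ) ≤ c) : C.SP A ≤ c := by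
  obtain ⟨b, hb⟩ := h
  have := C.m_mono _ _ b (bd_real A) (bd_const c) hb
  rwa [C.m_const] at this

lemma SP_le_one (A : V → Set Om) : C.SP A ≤ 1 := SP_le_of (Far.of_forall fun _ => measureReal_le_one)

lemma SP_union (A B : V → Set Om) : C.SP (fun ζ => A ζ ∪ B ζ) ≤ C.SP A + C.SP B := by
  unfold SP
  rw [← C.m_add _ _ (bd_real A) (bd_real B)]
  refine C.m_mono _ _ 0 (bd_real _) ?_ fun ζ _ _ => measureReal_union_le _ _
  exact ⟨2, fun ζ => by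
    rw [abs_of_nonneg (add_nonneg measureReal_nonneg measureReal_nonneg)]
    linarith [measureReal_le_one (μ := C.Pm) (s := A ζ), measureReal_le_one (μ := C.Pm) (s := B ζ)]⟩

lemma SP_le_add {A B B' : V → Set Om} (h : C.Far fun ζ => ∀ ω ∈ A ζ, ω ∈ B ζ ∨ ω ∈ B' ζ) :
    C.SP A ≤ C.SP B + C.SP B' := (SP_mono h).trans (SP_union B B')

lemma SP_biUnion {ι : Type} (s : Finset ι) (A : ι → V → Set Om) :
    C.SP (fun ζ => {ω | ∃ i ∈ s, ω ∈ A i ζ}) ≤ ∑ i ∈ s, C.SP (A i) := by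
  classical
  induction s using Finset.induction_on with
  | empty => simpa using SP_le_of (C := C) (A := fun _ => ∅) (c := 0) (Far.of_forall (by simp))
  | insert a s ha ih =>
    rw [sum_insert ha]
    refine (SP_le_add (B := A a) (B' := fun ζ => {ω | ∃ i ∈ s, ω ∈ A i ζ})
      (Far.of_forall ?_)).trans (add_le_add le_rfl ih)
    rintro ζ ω ⟨i, hi, h⟩
    rcases mem_insert.1 hi with rfl | hi
    · exact Or.inl h
    · exact Or.inr ⟨i, hi, h⟩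

lemma one_le_SP_add {A B : V → Set Om} (h : C.Far fun ζ => ∀ ω, ω ∈ A ζ ∨ ω ∈ B ζ) :
    1 ≤ C.SP A + C.SP B := by
  have := SP_le_add (A := fun _ => Set.univ) (h.mono fun ζ h ω _ => h ω)
  rwa [SP_indep, probReal_univ] at this

lemma SP_shift {A : V → Set Om} (h : ∀ ζ, MeasurableSet (A ζ)) (z : V) :
    C.SP (fun ζ => {ω | sh z ω ∈ A (ζ - z)}) = C.SP A := by
  unfold SP
  rw [← C.m_shift _ z (bd_real A)]
  congr 1; funext ζ
  exact congrArg ENNReal.toReal ((C.sh_mp z).measure_preimage (h _).nullMeasurableSet)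

/-- Markov inequality -/
lemma SP_markov {F : V → Om → ℝ} (h : C.Adm F) (h0 : ∀ ζ ω, 0 ≤ F ζ ω) {t : ℝ} (ht : 0 < t) :
    C.SP (fun ζ => {ω | t ≤ F ζ ω}) ≤ C.SE F / t := by
  rw [le_div_iff₀ ht, mul_comm]
  unfold SP SE
  rw [← C.m_smul _ _ (bd_real _)]
  refine C.m_mono _ _ 0 ?_ h.bd fun ζ _ _ =>
    mul_meas_ge_le_integral_of_nonneg (Eventually.of_forall (h0 ζ)) (h.int ζ) t
  exact ⟨t, fun ζ => by
    rw [abs_of_nonneg (mul_nonneg ht.le measureReal_nonneg)]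
    exact mul_le_of_le_one_right ht.le measureReal_le_one⟩

/-- expectation of an indicator -/
lemma SE_ind {A : V → Set Om} (h : ∀ ζ, MeasurableSet (A ζ)) (c : ℝ) :
    C.Adm (fun ζ ω => (A ζ).indicator (fun _ => c) ω) ∧
      C.SE (fun ζ ω => (A ζ).indicator (fun _ => c) ω) = c * C.SP A := by
  refine ⟨(Adm.const c).of_le (fun ζ => measurable_const.indicator (h ζ)) fun ζ ω => ?_, ?_⟩
  · unfold Set.indicator; split_ifs <;> simp
  · unfold SE SP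
    rw [← C.m_smul _ _ (bd_real _)]
    congr 1; funext ζ
    rw [integral_indicator_const _ (h ζ)]; simp [mul_comm]

lemma tm_int (x : V) (σ : ℕ → Dir) (k : ℕ) : Integrable (fun ω => tm ω x σ 0 k) C.Pm :=
  (C.dom_sq _ (tm_meas x σ 0 k) (fun ω => tm_nonneg ω x σ 0 k) x σ k fun _ => le_rfl).2.2.1

lemma Adm_Pi {c : Cl} (h : c.NE) : C.Adm (Pi c) := by
  refine ⟨Pi_meas h, ?_⟩
  obtain ⟨p, q, t, h1, σ, k, h2, h3, _⟩ := h
  refine ⟨fun ω => 2 * tm ω p σ 0 k, (tm_int p σ k).const_mul 2, fun ζ ω => ?_⟩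
  have w : Wk ω c.A p q (tm ω p σ 0 k) := ⟨σ, k, h2, h3, rfl⟩
  rw [abs_of_nonneg (Pi_nonneg _ _ _)]
  have e1 := Pi_le h1 (w.pw ζ)
  have e2 := T_tri ω q p ζ
  rw [T_symm ω q p] at e2
  linarith [w.T_le]

/-- shifting a class does not change star expectations of functions of the minimal price -/
lemma SE_Pi_shift {c : Cl} (h : c.NE) {G : ℝ → ℝ} (hG : Measurable G) (b : ℝ)
    (hb : ∀ x, |G x| ≤ |x| + b) (z : V) :
    C.SE (fun ζ ω => G (Pi (c.shift z) ζ ω)) = C.SE (fun ζ ω => G (Pi c ζ ω)) := by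
  simp only [Pi_shift]
  exact SE_shift ((Adm_Pi h).comp hG b hb) z

lemma SP_Pi_shift {c : Cl} (h : c.NE) {s : Set ℝ} (hs : MeasurableSet s) (z : V) :
    C.SP (fun ζ => {ω | Pi (c.shift z) ζ ω ∈ s}) = C.SP (fun ζ => {ω | Pi c ζ ω ∈ s}) := by
  simp only [Pi_shift]
  exact SP_shift (A := fun ζ => {ω | Pi c ζ ω ∈ s}) (fun ζ => Pi_meas h ζ hs) z

lemma stepX (C : Cx) (y : V) (d : Dir) : |C.X (y + stp d) - C.X y| ≤ C.D := by
  rw [map_add, add_sub_cancel_left]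
  exact (C.hX _).trans (mul_le_of_le_one_right (by linarith [C.D1]) (norm_stp d))

lemma stepY (C : Cx) (y : V) (d : Dir) : |C.Y (y + stp d) - C.Y y| ≤ C.D := C.swap.stepX y d

lemma upX (C : Cx) (y : V) (d : Dir) : C.X (y + stp d) ≤ C.X y + C.D := by
  linarith [(abs_le.1 (C.stepX y d)).2]

lemma upY (C : Cx) (y : V) (d : Dir) : C.Y (y + stp d) ≤ C.Y y + C.D := C.swap.upX y d

end Cx

end Pool.Agent.P.MP_dcd5d0_pr.S2
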