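import Pool.Agent.P.MP_dcd5d0_pr.S2.St

/-! Transfer of local variables in the coordinates of the flat edge. -/

set_option autoImplicit false

open MeasureTheory ProbabilityTheory Finset Function Filter

namespace Pool.Agent.P.MP_dcd5d0_pr.S2

open SC Cx

lemma Cx.close (C : Cx) {z z' : V} {a : ℝ} (h : ‖z - z'‖ ≤ a / C.D) :
    |C.X z - C.X z'| ≤ a ∧ |C.Y z - C.Y z'| ≤ a := by
  rw [le_div_iff₀' (by linarith [C.D1])] at h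
  rw [← map_sub, ← map_sub]
  exact ⟨(C.hX _).trans h, (C.hY _).trans h⟩

theorem Cx.transf (C : Cx) {ε : ℝ} (hε : 0 < ε) : ∀ᶠ L : ℝ in atTop, ∀ a b : ℝ,
    ∃ G E : Om → ℝ, C.Adm (fun _ => E) ∧ (∀ ω, 0 ≤ E ω) ∧ C.SE (fun _ => E) ≤ 1 / L ∧
      (∀ cl : Cl, cl.NE → (∀ z ∈ cl.A, |C.X z - a| ≤ L ∧ |C.Y z - b| ≤ L) →
        (∀ p q, cl.R p q → (|C.X p - a| ≤ L ∧ |C.Y p - b| ≤ L) ∧
          (|C.X q - a| ≤ L ∧ |C.Y q - b| ≤ L)) → ∀ ζ ω, Pi cl ζ ω ≤ G ω) ∧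
      ∀ (S : Set V) (D0 : Om → ℝ), (∀ z ∈ S, |C.X z - a| ≤ L ∧ |C.Y z - b| ≤ L) →
        Measurable D0 → Loc S D0 → ∃ D : Om → ℝ, Measurable D ∧
          C.Loc {z | ∃ z' ∈ S, |C.X z - C.X z'| ≤ ε * L ∧ |C.Y z - C.Y z'| ≤ ε * L} D ∧ ∀ ω,
          (∀ x e, 0 ≤ e → x ≤ G ω → x ≤ D0 ω + e → x ≤ D ω + e + E ω) ∧
          ∀ x, 0 ≤ x → D0 ω ≤ x → D ω ≤ x + E ω := by
  have hD := C.D1
  filter_upwards [C.transfer (ε := ε / C.D) (A := 2 * C.D) (by positivity) (by linarith),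
    eventually_ge_atTop C.D] with L h hL a b
  obtain ⟨c, c1, c2⟩ := C.near a b
  obtain ⟨G, E, e1, e2, e3, e4, e5, e6⟩ := h c
  have key : ∀ z, |C.X z - a| ≤ L ∧ |C.Y z - b| ≤ L → ‖z - c‖ ≤ 2 * C.D * L := by
    rintro z ⟨z1, z2⟩
    refine (C.hN _).trans ?_
    rw [mul_comm 2, mul_assoc, map_sub, map_sub]
    rw [abs_le] at c1 c2 z1 z2
    exact mul_le_mul_of_nonneg_left (max_le (abs_le.2 ⟨by linarith, by linarith⟩)
      (abs_le.2 ⟨by linarith, by linarith⟩)) (by linarith)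
  refine ⟨G, E, Adm.of_int e1 e2, e3, (SE_indep E).trans_le e4, fun cl n a b =>
    e5 cl n (fun z hz => key z (a z hz)) fun p q r => ⟨key p (b p q r).1, key q (b p q r).2⟩,
    fun S D0 a m l => ?_⟩
  obtain ⟨D, d1, d2, d3⟩ := e6 S D0 (fun z hz => key z (a z hz)) m l
  refine ⟨D, d1, d2.mono ?_, d3⟩
  rintro z ⟨z', h1, h2⟩
  exact ⟨z', h1, C.close (by rwa [div_mul_eq_mul_div] at h2)⟩

end Pool.Agent.P.MP_dcd5d0_pr.S2
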