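import Pool.Agent.P.MP_dcd5d0_pr.S2.Net
import Pool.Agent.P.MP_dcd5d0_pr.S2.Tr

/-! Localisation of minimal prices by a frame of four lines. -/

set_option autoImplicit false

open MeasureTheory ProbabilityTheory Finset Function Filter

namespace Pool.Agent.P.MP_dcd5d0_pr.S2

open SC

open Cx NetL

namespace LocL

variable {C : Cx}

/-- extension of a net to the region that it surrounds -/
lemma extend {S : Set V} {Z : Om → Set V} {τ : Om → V → ℝ} {E : V → Om → ℝ}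
    (h : C.Net S Z τ E) (B U : Set V) (hB : B ⊆ S) (hU : U ⊆ S) (hZ : ∀ ω, Z ω ⊆ S)
    (hex : C.Far fun ζ => ∀ ω, ∀ p ∈ B, ∀ y, PW ζ ω Set.univ p ζ y →
      ∃ z y1, z ∈ Z ω ∧ PW ζ ω U p z y1 ∧ y1 ≤ y) :
    ∃ ψ : Om → V → ℝ, C.Net S (fun _ => B) ψ E := by
  classical
  have hw : ∀ ω p ζ (ε : ℝ), 0 < ε → ∃ y, PW ζ ω Set.univ p ζ y ∧ y < ε := by
    intro ω p ζ ε hε
    obtain ⟨t, w, ht⟩ := exists_Wk_lt (ω := ω) (p := p) (q := ζ) (c := T ω p ζ + ε) (by linarith)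
    exact ⟨_, w.pw ζ, by linarith [(Wk.refl ω Set.univ ζ).T_le]⟩
  have hne : ∀ p ∈ B, ∀ ω, (Cl.mk U (fun x z => x = p ∧ z ∈ Z ω)).NE := by
    intro p hp ω
    obtain ⟨ζ, hζ⟩ := hex.exists
    obtain ⟨y, w, _⟩ := hw ω p ζ 1 one_pos
    obtain ⟨z, y1, a, b, _⟩ := hζ ω p hp y w
    exact Cl.ne_of (c := ⟨U, fun x z => x = p ∧ z ∈ Z ω⟩) ⟨rfl, a⟩ b
  have hb : ∀ p ∈ B, ∀ ω, ∃ a, ∀ x z t, (x = p ∧ z ∈ Z ω) → Wk ω U x z t →
      a ≤ t - τ ω x + τ ω z := by
    intro p hp ω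
    obtain ⟨_, z0, _, ⟨_, h0⟩, _⟩ := hne p hp ω
    obtain ⟨ζ, hζ⟩ := h.err.exists
    refine ⟨T ω p ζ - τ ω p - (T ω z0 ζ - τ ω z0) - E ζ ω, ?_⟩
    rintro x z t ⟨rfl, hz⟩ w
    linarith [hζ ω z z0 hz h0, (w.pw ζ).nonneg]
  refine ⟨fun ω p => if p ∈ B then MinP ω ⟨U, fun x z => x = p ∧ z ∈ Z ω⟩ (τ ω) + τ ω p else 0,
    fun z => by by_cases c : z ∈ B <;> simp [c], fun p => ?_, fun _ _ _ => rfl, fun ω ω' e => ?_,
    (h.err.and hex).mono fun ζ ⟨a, b⟩ ω p p' hp hp' => ?_⟩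
  · by_cases c : p ∈ B
    · simp only [c, if_true]
      refine (MinP_meas U (fun ω x z => x = p ∧ z ∈ Z ω) τ (fun x z => ?_) h.mτ (hne p c)
        (hb p c)).add (h.mτ p)
      by_cases c' : x = p
      · simpa [c'] using h.mZ z
      · simp [c']
    · simp [c]
  · funext p
    by_cases c : p ∈ B
    · simp only [c, if_true]
      rw [← h.lZ ω ω' e, ← h.lτ ω ω' e]
      congr 1
      refine MinP_congr (c := ⟨U, fun x z => x = p ∧ z ∈ Z ω⟩) hU ?_ e _
      rintro x z ⟨rfl, hz⟩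
      exact ⟨hB c, hZ ω hz⟩
    · simp [c]
  · simp only [hp, hp', if_true]
    refine le_of_forall_pos_le_add fun ε hε => ?_
    obtain ⟨_, z, t, ⟨rfl, z1⟩, z2, z3⟩ := exists_lt_MinP (ω := ω) (hne p hp ω) (f := τ ω)
      (lt_add_of_pos_right _ (half_pos hε))
    obtain ⟨y, w, hy⟩ := hw ω p' ζ _ (half_pos hε)
    obtain ⟨z', y1, c1, c2, c3⟩ := b ω p' hp' y w
    obtain ⟨a', ha'⟩ := hb p' hp' ω
    have e1 := MinP_le (c := ⟨U, fun x z => x = p' ∧ z ∈ Z ω⟩) ha' ⟨rfl, c1⟩ c2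
    linarith [a ω z z' z1 c1, (z2.pw ζ).nonneg]

end LocL

open LocL

theorem loc (hA : St_LineA) (hN : St_LineN) : St_Loc := by
  intro C
  have hD := C.D1
  obtain ⟨N0, hN0⟩ := eventually_atTop.1
    (((hA C).and (hA C.swap)).and (((hN C).and (hN C.swap)).and (big C)))
  have t3 : Tendsto (fun L : ℝ => 3 * L) atTop atTop := tendsto_id.const_mul_atTop (by norm_num)
  filter_upwards [eventually_ge_atTop (N0 : ℝ), eventually_ge_atTop 1,
    t3.eventually (C.transf (ε := 1 / 2) (by norm_num))] with L hL hL1 htr a b c hne hcA hcR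
  set N := ⌈4 * L⌉₊ with hNdef
  have n1 : 4 * L ≤ N := Nat.le_ceil _
  have n2 : (N : ℝ) ≤ 4 * L + 1 := (Nat.ceil_lt_add_one (by linarith)).le
  obtain ⟨⟨A1, A2⟩, ⟨B1, B2⟩, hb⟩ := hN0 N (by
    have : (N0 : ℝ) ≤ N := by linarith
    exact_mod_cast this)
  obtain ⟨pt, t1, t2⟩ := C.near (a - N / 2) (b + L + N / 200)
  obtain ⟨pb, b1, b2⟩ := C.near (a - N / 2) (b - L - 3 * N / 200)
  obtain ⟨pl, l1, l2⟩ := C.near (a - L - 3 * N / 200) (b - N / 2)
  obtain ⟨pr, r1, r2⟩ := C.near (a + L + N / 200) (b - N / 2)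
  rw [abs_le] at t1 t2 b1 b2 l1 l2 r1 r2
  obtain ⟨Zt, τt, nt, dt⟩ := B1 pt
  obtain ⟨Zb, τb, nb, db⟩ := B1 pb
  obtain ⟨Zl, τl, nl, dl⟩ := B2 pl
  obtain ⟨Zr, τr, nr, dr⟩ := B2 pr
  set S : Set V := {z | |C.X z - a| ≤ 3 * L ∧ |C.Y z - b| ≤ 3 * L} with hS
  have sH : ∀ p : V, |C.X p - (a - N / 2)| ≤ C.D → |C.Y p - b| ≤ 2 * L →
      {z | z - p ∈ C.Rg N} ⊆ S := by
    intro p hp hq z hz
    have := rg_iff.1 hz
    rw [abs_le] at hp hq
    exact ⟨abs_le.2 ⟨by linarith, by linarith⟩, abs_le.2 ⟨by linarith, by linarith⟩⟩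
  have sV : ∀ p : V, |C.X p - a| ≤ 2 * L → |C.Y p - (b - N / 2)| ≤ C.D →
      {z | z - p ∈ C.swap.Rg N} ⊆ S := by
    intro p hp hq z hz
    have := rg_iff.1 hz
    simp only [swap_X, swap_Y] at this
    rw [abs_le] at hp hq
    exact ⟨abs_le.2 ⟨by linarith, by linarith⟩, abs_le.2 ⟨by linarith, by linarith⟩⟩
  have st := sH pt (abs_le.2 t1) (abs_le.2 ⟨by linarith, by linarith⟩)
  have sb := sH pb (abs_le.2 b1) (abs_le.2 ⟨by linarith, by linarith⟩)
  have sl := sV pl (abs_le.2 ⟨by linarith, by linarith⟩) (abs_le.2 l2)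
  have sr := sV pr (abs_le.2 ⟨by linarith, by linarith⟩) (abs_le.2 r2)
  have up : ∀ z, |C.X z - a| ≤ L ∧ |C.Y z - b| ≤ L → z ∈ S := fun z hz =>
    ⟨hz.1.trans (by linarith), hz.2.trans (by linarith)⟩
  obtain ⟨τ1, g1⟩ := glue (net_mono nt st) (net_mono nl.swap sl)
    (meet hb dt dl (by linarith) (by linarith) (by linarith) (by linarith))
  obtain ⟨τ2, g2⟩ := glue g1 (net_mono nr.swap sr) fun ω =>
    (meet hb dt dr (by linarith) (by linarith) (by linarith) (by linarith) ω).mono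
      (Set.inter_subset_inter_left _ Set.subset_union_left)
  obtain ⟨τ3, g3⟩ := glue g2 (net_mono nb sb) fun ω =>
    (meet hb db dl (by linarith) (by linarith) (by linarith) (by linarith) ω).mono
      fun z hz => ⟨Or.inl (Or.inr hz.2), hz.1⟩
  simp only [Set.union_self] at g3
  set L' : ℝ := L + N / 50 with hL'
  obtain ⟨ψ, g⟩ := extend g3 {z | |C.X z - a| ≤ L ∧ |C.Y z - b| ≤ L}
    {z | max |C.X z - a| |C.Y z - b| < L'} up
    (fun z hz => ⟨(max_lt_iff.1 hz).1.le.trans (show L' ≤ 3 * L by linarith),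
      (max_lt_iff.1 hz).2.le.trans (show L' ≤ 3 * L by linarith)⟩) (by
      rintro ω z (((hz | hz) | hz) | hz)
      · exact st ((dt ω).1 hz)
      · exact sl ((dl ω).1 hz)
      · exact sr ((dr ω).1 hz)
      · exact sb ((db ω).1 hz)) ⟨a + L', by
      rintro ζ hζ - ω p ⟨p1, p2⟩ y w
      obtain ⟨q, y1, y2, w1, w2, e, q1, q2, -⟩ := w.first_ge
        (fun z => max |C.X z - a| |C.Y z - b|) (D := C.D) (a := L') (fun z d => by
          have e1 := C.stepX z d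
          have e2 := C.stepY z d
          have e3 := abs_sub_le (C.X (z + stp d)) (C.X z) a
          have e4 := abs_sub_le (C.Y (z + stp d)) (C.Y z) b
          have e5 := le_max_left |C.X z - a| |C.Y z - b|
          have e6 := le_max_right |C.X z - a| |C.Y z - b|
          exact max_le (by linarith) (by linarith)) (max_le (by linarith) (by linarith))
        (le_max_of_le_left (le_trans (by linarith) (le_abs_self _)))
      rw [Set.univ_inter] at w1
      have hall : ∀ z, (z = p ∨ z = q ∨ z ∈ {z | max |C.X z - a| |C.Y z - b| < L'}) →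
          |C.X z - a| ≤ L' + C.D ∧ |C.Y z - b| ≤ L' + C.D := by
        rintro z (rfl | rfl | hz)
        · constructor <;> linarith
        · exact max_le_iff.1 q2
        · have := max_lt_iff.1 (show max |C.X z - a| |C.Y z - b| < L' from hz)
          constructor <;> linarith
      have hy := w2.nonneg
      rw [abs_le] at p1 p2
      rcases le_max_iff.1 q1 with c | c <;> rcases le_abs.1 c with c | c
      · obtain ⟨z, s1, s2, z1, _, z3, z4, z5⟩ := hit (C := C.swap) hb dr w1 (fun z hz => by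
          have := abs_le.1 (hall z hz).2
          simp only [swap_X, swap_D]
          constructor <;> linarith) (Or.inl (by simp only [swap_Y]; constructor <;> linarith))
        exact ⟨z, s1, Or.inl (Or.inr z1), z3, by linarith [z4.nonneg]⟩
      · obtain ⟨z, s1, s2, z1, _, z3, z4, z5⟩ := hit (C := C.swap) hb dl w1 (fun z hz => by
          have := abs_le.1 (hall z hz).2
          simp only [swap_X, swap_D]
          constructor <;> linarith) (Or.inr (by simp only [swap_Y]; constructor <;> linarith))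
        exact ⟨z, s1, Or.inl (Or.inl (Or.inr z1)), z3, by linarith [z4.nonneg]⟩
      · obtain ⟨z, s1, s2, z1, _, z3, z4, z5⟩ := hit hb dt w1 (fun z hz => by
          have := abs_le.1 (hall z hz).1
          constructor <;> linarith) (Or.inl (by constructor <;> linarith))
        exact ⟨z, s1, Or.inl (Or.inl (Or.inl z1)), z3, by linarith [z4.nonneg]⟩
      · obtain ⟨z, s1, s2, z1, _, z3, z4, z5⟩ := hit hb db w1 (fun z hz => by
          have := abs_le.1 (hall z hz).1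
          constructor <;> linarith) (Or.inr (by constructor <;> linarith))
        exact ⟨z, s1, Or.inr z1, z3, by linarith [z4.nonneg]⟩⟩
  obtain ⟨m1, m2, m3⟩ := net_min g c.A (fun _ => c.R)
    (fun p q => by by_cases h : c.R p q <;> simp [h]) (fun _ _ _ => rfl) (fun _ => hcR)
    (fun z hz => up z (hcA z hz)) (fun _ p q h => ⟨up p (hcR p q h).1, up q (hcR p q h).2⟩)
    (fun _ => hne)
  obtain ⟨G, E1, g1, g2, g3, g4, g5⟩ := htr a b
  obtain ⟨D, d1, d2, d3⟩ := g5 S _ (fun _ h => h) m1 m2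
  have g6 := g4 c hne (fun z hz => up z (hcA z hz))
    fun p q h => ⟨up p (hcR p q h).1, up q (hcR p q h).2⟩
  have a0 := (((A1 pt).1.add (A2 pl).1).add (A2 pr).1).add (A1 pb).1
  have n0 := fun ζ ω => add_nonneg (add_nonneg (add_nonneg ((A1 pt).2.1 ζ ω) ((A2 pl).2.1 ζ ω))
    ((A2 pr).2.1 ζ ω)) ((A1 pb).2.1 ζ ω)
  refine ⟨_, D, a0.add g1, fun ζ ω => add_nonneg (n0 ζ ω) (g2 ω), ?_, d1, d2.mono ?_,
    m3.mono fun ζ h ω => ?_⟩
  · rw [SE_add a0 g1, SE_add (((A1 pt).1.add (A2 pl).1).add (A2 pr).1) (A1 pb).1,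
      SE_add ((A1 pt).1.add (A2 pl).1) (A2 pr).1, SE_add (A1 pt).1 (A2 pl).1]
    have e1 := (A1 pt).2.2
    have e2 := (A1 pb).2.2
    have e3 : C.SE (C.swap.pr N pl) = _ := (A2 pl).2.2
    have e4 : C.SE (C.swap.pr N pr) = _ := (A2 pr).2.2
    have e5 : 1 / (3 * L) ≤ 4 * (1 / (N : ℝ)) := by
      rw [mul_one_div, div_le_div_iff₀ (by linarith) (by linarith)]; linarith
    unfold Cx.M
    linarith [C.MH_lex N, C.swap_MH_lex N]
  · rintro z ⟨z', ⟨z1, -⟩, z2, -⟩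
    rw [abs_le] at z1 z2
    show |C.X z - a| ≤ 5 * L
    exact abs_le.2 ⟨by linarith, by linarith⟩
  · have h1 := abs_le.1 (h ω)
    have h2 := (d3 ω).1 _ _ (n0 ζ ω) (g6 ζ ω) (by linarith)
    have h3 := (d3 ω).2 _ (add_nonneg (Pi_nonneg c ζ ω) (n0 ζ ω)) (by linarith)
    exact abs_le.2 ⟨by linarith, by linarith⟩

end Pool.Agent.P.MP_dcd5d0_pr.S2
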