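import Pool.Agent.P.MP_dcd5d0_pr.S2.St

/-! The lower part of the window price. -/

set_option autoImplicit false

open MeasureTheory ProbabilityTheory Finset Function Filter

namespace Pool.Agent.P.MP_dcd5d0_pr.S2

open SC

open Cx

theorem low (hBL : St_BL) (hA : St_AM) : St_Low := by
  intro C c T0 hc hT0
  obtain ⟨K, hK, hbl⟩ := hBL C
  set π0 : ℝ := min 1 (1 / (80 * T0)) with hπ
  have hπ0 : 0 < π0 := lt_min one_pos (by positivity)
  have hπ1 : π0 ≤ 1 := min_le_left _ _
  have hπT : T0 * π0 ≤ 1 / 80 := by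
    calc T0 * π0 ≤ T0 * (1 / (80 * T0)) := by gcongr; exact min_le_right _ _
      _ = _ := by field_simp
  obtain ⟨t, ht⟩ := exists_nat_ge (160 * K / π0 + 1)
  have ht1 : (1 : ℝ) ≤ t := by
    have : 0 ≤ 160 * K / π0 := by positivity
    linarith
  have ht0 : 1 ≤ t := by exact_mod_cast ht1
  obtain ⟨n, hn⟩ : ∃ n : ℕ, n = t ^ 5 := ⟨_, rfl⟩
  have hn1 : 1 ≤ n := by rw [hn]; exact Nat.one_le_pow _ _ ht0
  have hn1' : (1 : ℝ) ≤ n := by exact_mod_cast hn1
  have hnt : (n : ℝ) = (t : ℝ) ^ 5 := by rw [hn]; push_cast; rfl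
  have h1 := hbl (1 / (40000 * n)) π0 (by positivity)
    (by rw [div_le_one (by positivity)]; linarith) hπ0 hπ1
  have t1 : Tendsto (fun l : ℕ => 2 * n * l) atTop atTop :=
    tendsto_atTop_mono (fun l => Nat.le_mul_of_pos_left l (by omega)) tendsto_id
  filter_upwards [t1.eventually h1, hA C n hn1, eventually_ge_atTop 1,
    tendsto_natCast_atTop_atTop.eventually_ge_atTop (80000 * C.D)] with l h2 h3 hl hlD hE
  obtain ⟨z, hz⟩ := h3
  have hl1 : (1 : ℝ) ≤ l := by exact_mod_cast hl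
  have hM : 0 < C.M l := hc.trans_le hE.1
  have hD := C.D1
  set Y : ℝ := K * (2 * t ^ 4 * C.M l) / π0 with hY
  have hY0 : 0 ≤ Y := by positivity
  have h4 := h2 (2 * t ^ 4 * C.M l) Y (by positivity) (fun N' hN' => by
    refine (hE.2.1 N' ((Nat.le_mul_of_pos_left l (by omega)).trans hN')).trans ?_
    have e : (N' : ℝ) / l = 2 * (t : ℝ) ^ 5 * (N' / (2 * n * l : ℕ)) := by
      push_cast; rw [← hnt]; field_simp
    have e2 : (2 * (t : ℝ) ^ 5) ^ (4 / 5 : ℝ) ≤ 2 * t ^ 4 := by
      rw [Real.mul_rpow (by norm_num) (by positivity), ← Real.rpow_natCast,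
        ← Real.rpow_mul (by positivity), ← Real.rpow_natCast]
      have : (2 : ℝ) ^ (4 / 5 : ℝ) ≤ 2 := Real.rpow_le_self_of_one_le (by norm_num) (by norm_num)
      norm_num
      gcongr
    rw [e, Real.mul_rpow (by positivity) (by positivity)]
    calc _ ≤ C.M l * (2 * t ^ 4 * ((N' : ℝ) / (2 * n * l : ℕ)) ^ (4 / 5 : ℝ)) := by gcongr
      _ = _ := by ring) (by rw [hY]; field_simp; rfl)
  have e1 : ((2 * n * l : ℕ) : ℝ) = 2 * n * l := by push_cast; rfl
  have e2 : 1 / (40000 * (n : ℝ)) * (2 * n * l) = l / 20000 := by field_simp; ring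
  rw [e1, e2] at h4
  set T : ℝ := T0 * C.M l with hT
  have hT' : 0 < T := by positivity
  have nw : (C.win l).NE := LR_ne (by positivity) (by linarith)
  have nS : (C.LR 0 (2 * n * l) 0 (l / 20000)).NE := LR_ne (by positivity) (by linarith)
  have hG : Measurable fun x : ℝ => min x T := measurable_id.min measurable_const
  have hGb : ∀ x : ℝ, |min x T| ≤ |x| + T := fun x => by
    have := abs_nonneg x
    rcases le_total x T with h | h
    · rw [min_eq_left h]; linarith
    · rw [min_eq_right h, abs_of_pos hT']; linarith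
  have hadm : ∀ s ∈ range n, C.Adm fun ζ ω => min (Pi ((C.win l).shift (z s)) ζ ω) T :=
    fun s _ => (Adm_Pi (nw.shift _)).comp hG T hGb
  obtain ⟨i1, i2⟩ := SE_ind (C := C)
    (A := fun ζ => {ω | Y ≤ Pi (C.LR 0 (2 * n * l) 0 (l / 20000)) ζ ω})
    (fun ζ => Pi_meas nS ζ measurableSet_Ici) (n * T)
  have h5 := SE_mono (Adm.sum (range n) hadm) ((Adm.const Y).add i1)
    (Far.of_forall fun ζ ω => by
      by_cases h : Y ≤ Pi (C.LR 0 (2 * n * l) 0 (l / 20000)) ζ ω
      · rw [Set.indicator_of_mem (by exact h)]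
        have := sum_le_sum (s := range n)
          (f := fun s => min (Pi ((C.win l).shift (z s)) ζ ω) T) (g := fun _ => T)
          fun s _ => min_le_right _ _
        rw [sum_const, card_range, nsmul_eq_mul] at this
        linarith
      · rw [Set.indicator_of_notMem (by exact h)]
        have := sum_le_sum (s := range n)
          (f := fun s => min (Pi ((C.win l).shift (z s)) ζ ω) T) fun s _ => min_le_left _ _
        linarith [hz ζ ω, not_le.1 h])
  rw [SE_sum _ hadm, SE_add (Adm.const Y) i1, SE_const, i2,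
    sum_congr rfl fun s _ => SE_Pi_shift nw hG T hGb (z s), sum_const, card_range,
    nsmul_eq_mul] at h5
  refine le_of_mul_le_mul_left (h5.trans ?_) (show (0 : ℝ) < n by linarith)
  have b1 : Y ≤ n * (C.M l / 80) := by
    have : 160 * K ≤ t * π0 := by
      rw [← div_le_iff₀ hπ0]; linarith
    rw [hY, div_le_iff₀ hπ0, hnt]
    calc K * (2 * t ^ 4 * C.M l) = 160 * K * (t ^ 4 * C.M l / 80) := by ring
      _ ≤ t * π0 * (t ^ 4 * C.M l / 80) := by gcongr
      _ = _ := by ring
  have b2 : n * T * C.SP (fun ζ => {ω | Y ≤ Pi (C.LR 0 (2 * n * l) 0 (l / 20000)) ζ ω}) ≤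
      n * (C.M l / 80) := by
    calc _ ≤ n * T * π0 := by gcongr
      _ = n * (C.M l * (T0 * π0)) := by rw [hT]; ring
      _ ≤ n * (C.M l * (1 / 80)) := by gcongr
      _ = _ := by ring
  linarith

end Pool.Agent.P.MP_dcd5d0_pr.S2
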