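import Pool.Agent.P.MP_dcd5d0_pr.S2.St
import Pool.Agent.P.MP_dcd5d0_pr.SC.Mk

/-! A flat edge gives the standing assumptions. -/

set_option autoImplicit false

open MeasureTheory ProbabilityTheory Finset Function Filter Topology

namespace Pool.Agent.P.MP_dcd5d0_pr.S2

open SC

open SC.Mk

theorem mk_ctx (hGe : St_Geo) (hM : St_Mean) {F : NM.Fld} {g : (Fin 2 → ℝ) → ℝ}
    (H : F.IsTC g) (hns : ¬ StrictConvex ℝ {x | g x ≤ 1}) : Nonempty Cx := by
  have S : Sub g := ⟨H.add, fun a ha x => H.smul ha x⟩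
  have hc := S.continuous H.le_norm
  have hr2 := F.r2_pos
  have hco := H.coer
  set r2 := F.r2 with hrr
  obtain ⟨u, v, huv, h, hmax⟩ := maximal S hc (c := r2 / 4) (by linarith) hco hns
  have hd := S.det huv h
  set d := u 0 * v 1 - u 1 * v 0 with hdd
  set α : (Fin 2 → ℝ) →L[ℝ] ℝ :=
    (v 1 / d) • ContinuousLinearMap.proj 0 - (v 0 / d) • ContinuousLinearMap.proj 1 with hα
  set β : (Fin 2 → ℝ) →L[ℝ] ℝ :=
    (u 0 / d) • ContinuousLinearMap.proj 1 - (u 1 / d) • ContinuousLinearMap.proj 0 with hβ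
  have eα : ∀ z, α z = v 1 / d * z 0 - v 0 / d * z 1 := fun z => by simp [hα]
  have eβ : ∀ z, β z = u 0 / d * z 1 - u 1 / d * z 0 := fun z => by simp [hβ]
  have hz : ∀ z, z = α z • u + β z • v := by
    intro z
    ext i
    simp only [Pi.add_apply, Pi.smul_apply, smul_eq_mul, eα, eβ]
    fin_cases i
    · simp only [Fin.zero_eta]; field_simp; rw [hdd]; ring
    · simp only [Fin.mk_one]; field_simp; rw [hdd]; ring
  have αu : α u = 1 := by rw [eα]; field_simp; rw [hdd]; ring
  have βu : β u = 0 := by rw [eβ]; ring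
  have αv : α v = 0 := by rw [eα]; ring
  have βv : β v = 1 := by rw [eβ]; field_simp; rw [hdd]
  clear_value α β
  have hcone : ∀ z, 0 ≤ α z → 0 ≤ β z → g z = α z + β z := fun z a b => by
    conv_lhs => rw [hz z]
    exact S.cone h a b
  have hlow : ∀ z, α z + β z ≤ g z := by
    intro z
    set t := 1 / (2 * (1 + |α z| + |β z|)) with ht
    have p1 := abs_nonneg (α z)
    have p2 := abs_nonneg (β z)
    have t0 : 0 < t := by positivity
    have t1 : t * (1 + |α z| + |β z|) = 1 / 2 := by rw [ht]; field_simp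
    have a1 := hcone ((1 / 2 : ℝ) • u + (1 / 2 : ℝ) • v + t • z)
      (by simp only [map_add, map_smul, αu, αv, smul_eq_mul]; nlinarith [neg_abs_le (α z)])
      (by simp only [map_add, map_smul, βu, βv, smul_eq_mul]; nlinarith [neg_abs_le (β z)])
    simp only [map_add, map_smul, αu, αv, βu, βv, smul_eq_mul] at a1
    have a2 := S.add ((1 / 2 : ℝ) • u + (1 / 2 : ℝ) • v) (t • z)
    rw [S.smul t t0, S.cone h (by norm_num) (by norm_num), a1] at a2
    nlinarith
  have hnorm : ∀ z, ‖z‖ ≤ (‖u‖ + ‖v‖) * max |α z| |β z| := by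
    intro z
    conv_lhs => rw [hz z]
    refine (norm_add_le _ _).trans ?_
    rw [norm_smul, norm_smul, Real.norm_eq_abs, Real.norm_eq_abs]
    have a1 := mul_le_mul_of_nonneg_right (le_max_left |α z| |β z|) (norm_nonneg u)
    have a2 := mul_le_mul_of_nonneg_right (le_max_right |α z| |β z|) (norm_nonneg v)
    linarith
  have hκ : ∀ θ : ℝ, 0 < θ → ∃ κ : ℝ, 0 < κ ∧ ∀ z,
      α z + β z + κ * (max (-α z) (-β z) - θ * max |α z| |β z|) ≤ g z := by
    intro θ hθ
    set K := {z : Fin 2 → ℝ | max |α z| |β z| = 1 ∧ θ ≤ max (-α z) (-β z)} with hK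
    have hKc : IsCompact K := by
      refine Metric.isCompact_of_isClosed_isBounded ?_ ?_
      · have c1 : IsClosed {z : Fin 2 → ℝ | max |α z| |β z| = 1} :=
          isClosed_eq (by fun_prop) continuous_const
        have c2 : IsClosed {z : Fin 2 → ℝ | θ ≤ max (-α z) (-β z)} :=
          isClosed_le continuous_const (by fun_prop)
        exact c1.inter c2
      · refine (Metric.isBounded_closedBall (x := 0) (r := ‖u‖ + ‖v‖)).subset fun z hz => ?_
        have := hnorm z
        rw [hz.1, mul_one] at this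
        simpa using this
    obtain ⟨κ, k0, k1⟩ := hKc.exists_forall_le' (f := fun z => g z - (α z + β z)) (a := 0)
      (Continuous.continuousOn (by fun_prop)) (by
        intro z ⟨z1, z2⟩
        refine lt_of_le_of_ne (sub_nonneg.2 (hlow z)) fun e => ?_
        have z0 : z ≠ 0 := by
          rintro rfl
          simp at z1
        have g0 : 0 < g z := lt_of_lt_of_le (by have := norm_pos_iff.2 z0; positivity) (hco z)
        have e' : α z + β z = g z := by linarith
        obtain ⟨a, b⟩ := hmax (α z / g z) (β z / g z) (by rw [← add_div, e', div_self g0.ne']) (by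
          have : (α z / g z) • u + (β z / g z) • v = (1 / g z) • z := by
            conv_rhs => rw [hz z, smul_add, smul_smul, smul_smul]
            rw [← hz z]
            congr 2 <;> ring
          rw [this, S.smul _ (by positivity), one_div_mul_cancel g0.ne'])
        have a' : 0 ≤ α z := by
          by_contra hc
          exact absurd a (not_le.2 (div_neg_of_neg_of_pos (not_le.1 hc) g0))
        have b' : 0 ≤ β z := by
          by_contra hc
          exact absurd b (not_le.2 (div_neg_of_neg_of_pos (not_le.1 hc) g0))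
        have := max_le (show -α z ≤ 0 by linarith) (show -β z ≤ 0 by linarith)
        linarith)
    refine ⟨κ, k0, fun z => ?_⟩
    set n := max |α z| |β z| with hn
    have n0 : 0 ≤ n := le_max_of_le_left (abs_nonneg _)
    have n1 : max (-α z) (-β z) ≤ n := max_le_max (neg_le_abs _) (neg_le_abs _)
    have hl := hlow z
    rcases le_or_gt (max (-α z) (-β z)) (θ * n) with c | c
    · nlinarith
    · have n2 : 0 < n := by
        rcases n0.eq_or_lt with e | e
        · rw [← e] at c n1; linarith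
        · exact e
      have i0 : 0 < 1 / n := by positivity
      have := k1 ((1 / n) • z) ⟨by
        simp only [map_smul, smul_eq_mul, abs_mul, abs_of_pos i0]
        rw [← mul_max_of_nonneg _ _ i0.le, ← hn, one_div_mul_cancel n2.ne'], by
        simp only [map_smul, smul_eq_mul, ← mul_neg]
        rw [← mul_max_of_nonneg _ _ i0.le, one_div_mul_eq_div, le_div_iff₀ n2]
        exact c.le⟩
      simp only [map_smul, smul_eq_mul, S.smul _ i0] at this
      have e : κ * n ≤ g z - (α z + β z) := by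
        have := mul_le_mul_of_nonneg_right this n0
        rwa [show (1 / n * g z - (1 / n * α z + 1 / n * β z)) * n = g z - (α z + β z) by
          field_simp] at this
      have := mul_nonneg hθ.le n0
      nlinarith
  have n1 := norm_nonneg α
  have n2 := norm_nonneg β
  have n3 := norm_nonneg u
  have n4 := norm_nonneg v
  set D := 1 + ‖α‖ + ‖β‖ + ‖u‖ + ‖v‖ with hD
  have key : ∀ γ : (Fin 2 → ℝ) →L[ℝ] ℝ, ∀ c, ‖γ‖ ≤ c → ∀ x, |γ x| ≤ c * ‖x‖ := fun γ c h x =>
    (γ.le_opNorm x).trans (mul_le_mul_of_nonneg_right h (norm_nonneg _))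
  have kz : ∀ γ : (Fin 2 → ℝ) →L[ℝ] ℝ, ∀ c, ‖γ‖ ≤ c → ∀ z : V, |toZ γ z| ≤ c * ‖z‖ :=
    fun γ c h z => by rw [← norm_cast_V]; exact key γ c h _
  have close : ∀ γ : (Fin 2 → ℝ) →L[ℝ] ℝ, ∀ c, ‖γ‖ ≤ c → ∀ x, |toZ γ (rd x) - γ x| ≤ c := by
    intro γ c h x
    have : ‖(fun i => (rd x i : ℝ)) - x‖ ≤ 1 := by
      rw [pi_norm_le_iff_of_nonneg zero_le_one]
      intro i
      exact (rd_close x i).trans (by norm_num)
    have e : toZ γ (rd x) - γ x = γ ((fun i => (rd x i : ℝ)) - x) := by rw [map_sub]; rfl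
    rw [e]
    exact (key γ c h _).trans (mul_le_of_le_one_right ((norm_nonneg _).trans h) this)
  have hnear : ∀ a b : ℝ, ∃ z, |toZ α z - a| ≤ 4 * D ∧ |toZ β z - b| ≤ 4 * D := by
    intro a b
    refine ⟨rd (a • u + b • v), ?_, ?_⟩
    · simpa [αu, αv] using close α (4 * D) (by linarith) (a • u + b • v)
    · simpa [βu, βv] using close β (4 * D) (by linarith) (a • u + b • v)
  have low' : ∀ z, toZ α z + toZ β z ≤ F.hh z := fun z => (hlow _).trans (H.le_hh z)
  have up' : ∀ᶠ L : ℝ in atTop, ∀ z, 0 ≤ toZ α z → 0 ≤ toZ β z → toZ α z + toZ β z ≤ L →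
      F.hh z ≤ toZ α z + toZ β z + L ^ (19 / 25 : ℝ) := by
    filter_upwards [NM.g3 F g H] with L hL z a b c
    have e := hcone (fun i => (z i : ℝ)) a b
    have := hL z (by rw [e]; exact c)
    rwa [e] at this
  obtain ⟨m, m1, m2, m3, m4, m5, m6⟩ := hM (toZ α) (toZ β) (4 * D) F.m1 F.hh (by linarith)
    (kz α _ (by linarith)) (kz β _ (by linarith)) hnear F.hh_lip low' up'
  refine ⟨⟨F, toZ α, toZ β,
    ⟨u, v, fun z i => congrFun (hz (fun i => (z i : ℝ))) i⟩, 4 * D, by linarith,
    kz α _ (by linarith), kz β _ (by linarith), fun z => ?_, hnear, fun p q => ?_, low',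
    fun θ hθ => ?_, up', m, m1, m2, m3, m4, m5, m6⟩⟩
  · rw [← norm_cast_V]
    exact (hnorm _).trans (mul_le_mul_of_nonneg_right (by linarith)
      (le_max_of_le_left (abs_nonneg _)))
  · obtain ⟨σ, k, a, b, c⟩ := hGe (toZ α) (toZ β) D (by linarith) (kz α _ (by linarith))
      (kz β _ (by linarith)) p q
    exact ⟨σ, k, a, b.trans (mul_le_mul_of_nonneg_right (by linarith) (norm_nonneg _)), c⟩
  · obtain ⟨κ, k0, k1⟩ := hκ θ hθ
    exact ⟨κ, k0, fun z => (k1 _).trans (H.le_hh z)⟩

/-- the standing assumptions are contradictory -/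
theorem no_ctx (hMW : St_MW) (hM : St_Mle) (hP : St_Pol) (hS : St_Stair) (hU : St_Up)
    (hL : St_Low) (C : Cx) : False := by
  obtain ⟨c, hc, h1⟩ := hMW C
  obtain ⟨T1, t1, u1⟩ := hU C c hc
  obtain ⟨T2, t2, u2⟩ := hU C.swap c hc
  have hD := C.D1
  obtain ⟨l0, hl0⟩ := eventually_atTop.1 (((u1.and u2).and
    ((hL C c T1 hc t1).and (hL C.swap c T2 hc t2))).and (((hS C).and (hS C.swap)).and
      (tendsto_natCast_atTop_atTop.eventually_ge_atTop (40000 * C.D + 2 / c))))
  obtain ⟨l, hl, hE⟩ := hP C.M c hc h1 ((hM C).mono fun _ h => h.2) l0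
  obtain ⟨⟨⟨a1, a2⟩, a3, a4⟩, ⟨a5, a6⟩, a7⟩ := hl0 l hl
  have c2 : 0 < 2 / c := by positivity
  have a8 : 1 / (l : ℝ) ≤ c / 2 := by
    have : 2 / c ≤ l := by linarith
    rw [div_le_iff₀ hc] at this
    rw [div_le_iff₀ (by linarith)]; linarith
  replace a7 : 40000 * C.D ≤ l := by linarith
  have key : ∀ (C : Cx) (T0 : ℝ), 0 < T0 → c ≤ C.M l → 40000 * C.D ≤ l →
      C.SE (fun ζ ω => max (Pi (C.win l) ζ ω - T0 * C.M l) 0) ≤ C.M l / 40 →
      C.SE (fun ζ ω => min (Pi (C.win l) ζ ω) (T0 * C.M l)) ≤ C.M l / 40 →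
      C.WH l ≤ C.M l / 20 := by
    intro C T0 h0 h1 h2 h3 h4
    have hD := C.D1
    have h5 : 0 ≤ T0 * C.M l := mul_nonneg h0.le (by linarith)
    have ne : (C.win l).NE := Cx.LR_ne (by linarith) (by linarith)
    have b1 := (Cx.Adm_Pi (C := C) ne).comp (G := fun x => max (x - T0 * C.M l) 0) (by fun_prop)
      (T0 * C.M l) (fun x => by
        rw [abs_le]
        constructor
        · linarith [le_max_right (x - T0 * C.M l) 0, abs_nonneg x]
        · exact max_le (by linarith [le_abs_self x]) (by positivity))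
    have b2 := (Cx.Adm_Pi (C := C) ne).comp (G := fun x => min x (T0 * C.M l)) (by fun_prop)
      (T0 * C.M l) (fun x => by
        rw [abs_le]
        constructor
        · exact le_min (by linarith [neg_abs_le x]) (by linarith [abs_nonneg x])
        · linarith [min_le_right x (T0 * C.M l), abs_nonneg x])
    have := Cx.SE_mono (Cx.Adm_Pi ne) (b1.add b2) (Cx.Far.of_forall fun ζ ω => by
      rcases le_total (Pi (C.win l) ζ ω) (T0 * C.M l) with c | c
      · rw [min_eq_left c]; linarith [le_max_right (Pi (C.win l) ζ ω - T0 * C.M l) 0]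
      · rw [min_eq_right c]; linarith [le_max_left (Pi (C.win l) ζ ω - T0 * C.M l) 0])
    rw [Cx.SE_add b1 b2] at this
    unfold Cx.WH
    linarith
  have hE' : Env C.swap c l := by simpa [Env] using hE
  have w1 := key C T1 t1 hE.1 a7 (a1 hE) (a3 hE)
  have w2 := key C.swap T2 t2 hE'.1 a7 (a2 hE') (a4 hE')
  rw [Cx.swap_M] at w2
  rw [Cx.swap_swap] at a6
  have : C.Mx l ≤ 7 * (C.M l / 20) := max_le (by linarith) (by linarith)
  have e : C.M l = C.Mx l + 1 / l := rfl
  linarith [hE.1]

end Pool.Agent.P.MP_dcd5d0_pr.S2
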