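import Pool.Agent.P.MP_dcd5d0_pr.S2.St

/-! A priori bound for restricted point-to-point prices. -/

set_option autoImplicit false

open MeasureTheory ProbabilityTheory Finset Function Filter

namespace Pool.Agent.P.MP_dcd5d0_pr.S2

open SC

open Cx

namespace RA

lemma ev_pow (K a b : ℝ) (hab : a < b) : ∀ᶠ L : ℝ in atTop, K * L ^ a ≤ L ^ b := by
  filter_upwards [(tendsto_rpow_atTop (sub_pos.2 hab)).eventually_ge_atTop K,
    eventually_gt_atTop 0] with L h1 h0
  have : L ^ b = L ^ (b - a) * L ^ a := by rw [← Real.rpow_add h0]; congr 1; ring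
  rw [this]
  exact mul_le_mul_of_nonneg_right h1 (by positivity)

/-- the region -/
def Reg (C : Cx) (z : V) (a : ℝ) : Set V :=
  {y | -a ≤ C.X y ∧ C.X y ≤ C.X z + a ∧ -a ≤ C.Y y ∧ C.Y y ≤ C.Y z + a}

/-- a walk that leaves the region passes a vertex just outside of it -/
lemma exit (C : Cx) {ω : Om} {z : V} {a t : ℝ} (ha : 0 ≤ a) (hx : 0 ≤ C.X z) (hy : 0 ≤ C.Y z)
    (h : Wk ω Set.univ 0 z t) : Wk ω (Reg C z a) 0 z t ∨ ∃ y : V, y ∈ Reg C z (a + C.D) ∧
      (a ≤ max (-C.X y) (-C.Y y) ∨ a ≤ max (-C.X (z - y)) (-C.Y (z - y))) ∧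
      T ω 0 y + T ω y z ≤ t := by
  obtain ⟨σ, k, _, h2, h3⟩ := h
  by_cases hall : ∀ j, 0 < j → j < k → pos 0 σ j ∈ Reg C z a
  · exact Or.inl ⟨σ, k, hall, h2, h3⟩
  right
  push Not at hall
  obtain ⟨j, _, hjk, hj⟩ := hall
  obtain ⟨e1, e2, e3⟩ := Wk.split_idx ω (p := 0) (σ := σ) hjk.le (A1 := Set.univ)
    (A2 := Set.univ) (fun _ _ _ => trivial) (fun _ _ _ => trivial)
  have hD := C.D1
  obtain ⟨y, t1, t2, b1, b2, b3, b4, b5, _⟩ := e1.first_ge
    (fun y => max (max (-C.X y) (-C.Y y)) (max (-C.X (z - y)) (-C.Y (z - y)))) (D := C.D) (a := a)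
    (fun y d => by
      have s1 := abs_le.1 (C.stepX y d)
      have s2 := abs_le.1 (C.stepY y d)
      have m1 := le_max_left (max (-C.X y) (-C.Y y)) (max (-C.X (z - y)) (-C.Y (z - y)))
      have m2 := le_max_right (max (-C.X y) (-C.Y y)) (max (-C.X (z - y)) (-C.Y (z - y)))
      have m3 := le_max_left (-C.X y) (-C.Y y)
      have m4 := le_max_right (-C.X y) (-C.Y y)
      have m5 := le_max_left (-C.X (z - y)) (-C.Y (z - y))
      have m6 := le_max_right (-C.X (z - y)) (-C.Y (z - y))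
      simp only [map_sub] at m1 m2 m5 m6 ⊢
      refine max_le (max_le ?_ ?_) (max_le ?_ ?_) <;> linarith)
    (by
      simp only [map_zero, sub_zero]
      refine max_le (max_le ?_ ?_) (max_le ?_ ?_) <;> linarith)
    (by
      by_contra hc
      apply hj
      simp only [not_le, max_lt_iff, map_sub] at hc
      obtain ⟨⟨c1, c2⟩, c3, c4⟩ := hc
      exact ⟨by linarith, by linarith, by linarith, by linarith⟩)
  refine ⟨y, ?_, le_max_iff.1 b4, ?_⟩
  · simp only [max_le_iff, map_sub] at b5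
    obtain ⟨⟨c1, c2⟩, c3, c4⟩ := b5
    exact ⟨by linarith, by linarith, by linarith, by linarith⟩
  · have := b1.T_le
    have := (b2.trans (Set.mem_univ _) e2).T_le
    rw [h2] at this
    linarith

end RA

open RA

theorem ra : St_RA := by
  intro C θ hθ
  have hD := C.D1
  have hm1 := C.m1_pos
  have hm2 := C.m2_nonneg
  have hr0 : 0 < C.r2 := lt_of_le_of_lt C.hr0 C.hr12
  obtain ⟨κ, hκ, hcone⟩ := C.cone (θ / (2 * (3 + θ))) (by positivity)
  set δ := κ * θ / 4 with hδ
  have hδ0 : 0 < δ := by positivity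
  set K := C.D * (3 + θ) + 1 with hK
  have hK1 : 1 ≤ K := by
    have : 0 ≤ C.D * (3 + θ) := by positivity
    linarith
  filter_upwards [(tendsto_id.const_mul_atTop (two_pos (α := ℝ))).eventually C.up,
    C.BadT_small K hK1 2, eventually_ge_atTop 1, eventually_ge_atTop K,
    eventually_ge_atTop (C.D / θ), eventually_ge_atTop C.D, eventually_ge_atTop δ,
    eventually_ge_atTop (2 * C.m1 * C.D),
    ev_pow (5 / δ) (19 / 25) 1 (by norm_num), ev_pow 8 (19 / 25) (77 / 100) (by norm_num),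
    ev_pow 4 0 (77 / 100) (by norm_num),
    ev_pow (16 * C.D ^ 4 * C.m2) (151 / 200) (77 / 100) (by norm_num),
    ev_pow (12 / δ) (151 / 200) (77 / 100) (by norm_num)]
    with L hup hbad L1 LK LD LD' Lδ Lm p1 p2 p3 p4 p5 z hx hy hz c hc
  have L0 : 0 < L := by linarith
  have hDθ : C.D ≤ θ * L := by rw [div_le_iff₀ hθ] at LD; linarith
  have hθL : 0 ≤ θ * L := by positivity
  rw [Real.rpow_one] at p1
  rw [Real.rpow_zero] at p3
  set u := L ^ th with hu
  set v := L ^ (19 / 25 : ℝ) with hv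
  set w := L ^ (151 / 200 : ℝ) with hw
  set s := L ^ (249 / 200 : ℝ) with hs
  have u1 : 1 ≤ u := one_le_rpow_th L1
  have uv : u ≤ v := Real.rpow_le_rpow_of_exponent_le L1 (by unfold th; norm_num)
  have s0 : 0 < s := by positivity
  have w0 : 0 < w := by positivity
  have su : s * u = L * w := by
    rw [hs, hu, hw, ← Real.rpow_add L0, ← Real.rpow_one_add' L0.le (by norm_num)]
    unfold th; norm_num
  have sw : s * w = L ^ 2 := by
    rw [hs, hw, ← Real.rpow_add L0, ← Real.rpow_natCast]; norm_num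
  have hhz : C.hh z ≤ C.X z + C.Y z + 2 * v := by
    have h1 := hup z hx hy hz
    simp only [id] at h1
    rw [Real.mul_rpow two_pos.le L0.le] at h1
    have h2 : (2 : ℝ) ^ (19 / 25 : ℝ) ≤ 2 := by
      conv_rhs => rw [← Real.rpow_one 2]
      exact Real.rpow_le_rpow_of_exponent_le one_le_two (by norm_num)
    have h3 := mul_le_mul_of_nonneg_right h2 (show 0 ≤ v by positivity)
    linarith
  have hnz : ‖z‖ ≤ C.D * (2 * L) := (C.hN z).trans (mul_le_mul_of_nonneg_left
    (max_le (by rw [abs_of_nonneg hx]; linarith) (by rw [abs_of_nonneg hy]; linarith))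
    (by linarith))
  set R := ⌈C.D * (3 + θ) * L⌉₊ with hR
  have R1 : C.D * (3 + θ) * L ≤ R := Nat.le_ceil _
  have R2 : (R : ℝ) ≤ K * L := by
    have := Nat.ceil_lt_add_one (a := C.D * (3 + θ) * L) (by positivity)
    rw [hK]; linarith
  have hb := hbad R R (R2.trans (by rw [pow_two]; exact mul_le_mul_of_nonneg_right LK L0.le)) R2
  have hzR : ‖z‖ ≤ R := by
    refine hnz.trans (le_trans ?_ R1)
    have : 0 ≤ C.D * L := by positivity
    have : 0 ≤ C.D * θ * L := by positivity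
    linarith
  -- the straight walk
  obtain ⟨σ, k, h1, h2, h3⟩ := C.straight 0 z
  have hst : ∀ ω, Wk ω (Reg C z (θ * L)) 0 z (tm ω 0 σ 0 k) := fun ω => by
    refine ⟨σ, k, fun j _ b => ?_, h1, rfl⟩
    obtain ⟨c1, c2, c3, c4⟩ := h3 j b.le
    rw [map_zero] at c1 c2 c3 c4
    rw [min_eq_left hx] at c1
    rw [max_eq_right hx] at c2
    rw [min_eq_left hy] at c3
    rw [max_eq_right hy] at c4
    exact ⟨by linarith, by linarith, by linarith, by linarith⟩
  have hA : c.A = Reg C z (θ * L) := by rw [hc]; rfl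
  have hRz : c.R 0 z := by rw [hc]; exact ⟨rfl, rfl⟩
  have hne : c.NE := Cl.ne_of hRz (by rw [hA]; exact hst 0)
  refine ⟨hne, ?_⟩
  set Off : Set Om := C.BadT R R u ∪ {ω | C.hh z + δ * L ≤ T ω 0 z} with hOff
  have mOff : MeasurableSet Off :=
    (C.BadT_meas _ _ _).union (measurableSet_le measurable_const (T_meas 0 z))
  -- probability of the bad event
  have pOff : δ * L * C.Pm.real Off ≤ 3 * u := by
    have e1 := markov2 (P := C.Pm) (T_meas 0 z) (C.T_int 0 z) (fun ω => T_nonneg ω 0 z)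
      (a := C.hh z - u) (b := δ * L + u) (by positivity)
    have e2 : ∫ ω, T ω 0 z ∂C.Pm = C.hh z := rfl
    have e3 : C.hh z - u + (δ * L + u) = C.hh z + δ * L := by ring
    rw [e2, e3] at e1
    have e4 : C.Pm.real {ω | T ω 0 z < C.hh z - u} ≤ C.Pm.real (C.BadT R R u) :=
      measureReal_mono fun ω h => ⟨0, z, by simp, by simpa using hzR, by simpa using h⟩
    have e5 : C.hh z - u ≤ L ^ 2 := by
      have a1 := (C.hh_le z).trans (mul_le_mul_of_nonneg_left hnz hm1.le)
      have a2 := mul_le_mul_of_nonneg_right Lm L0.le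
      linarith
    have n1 := measureReal_nonneg (μ := C.Pm) (s := {ω | T ω 0 z < C.hh z - u})
    have n2 := measureReal_nonneg (μ := C.Pm) (s := {ω | C.hh z + δ * L ≤ T ω 0 z})
    have n3 := measureReal_nonneg (μ := C.Pm) (s := C.BadT R R u)
    have hb' : C.Pm.real (C.BadT R R u) * L ^ 2 ≤ 1 := hb
    have e6 := mul_le_mul_of_nonneg_right e5 n1
    have e7 := mul_le_mul_of_nonneg_left e4 (sq_nonneg L)
    have e8 : δ * L * C.Pm.real (C.BadT R R u) ≤ L ^ 2 * C.Pm.real (C.BadT R R u) :=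
      mul_le_mul_of_nonneg_right (by rw [pow_two]; exact mul_le_mul_of_nonneg_right Lδ L0.le) n3
    have e9 := mul_le_mul_of_nonneg_left
      (measureReal_union_le (μ := C.Pm) (C.BadT R R u) {ω | C.hh z + δ * L ≤ T ω 0 z})
      (show 0 ≤ δ * L by positivity)
    have e10 := mul_nonneg (show 0 ≤ u by linarith) n2
    linarith
  -- on the good event near geodesics stay in the region
  have good : ∀ ω, ω ∉ Off → ∃ t, Wk ω (Reg C z (θ * L)) 0 z t ∧ t ≤ T ω 0 z + 1 := by
    intro ω hω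
    rw [hOff, Set.mem_union, not_or] at hω
    obtain ⟨g1, g2⟩ := hω
    simp only [Set.mem_ofPred_eq, not_le] at g2
    obtain ⟨t, wk, ht⟩ := exists_Wk_lt (ω := ω) (p := 0) (q := z) (c := T ω 0 z + 1) (by linarith)
    rcases exit C hθL hx hy wk with h | ⟨y, ⟨y1, y2, y3, y4⟩, y5, y6⟩
    · exact ⟨t, h, ht.le⟩
    exfalso
    have b1 : max |C.X y| |C.Y y| ≤ (3 + θ) * L :=
      max_le (abs_le.2 ⟨by linarith, by linarith⟩) (abs_le.2 ⟨by linarith, by linarith⟩)
    have b2 : max |C.X (z - y)| |C.Y (z - y)| ≤ (3 + θ) * L := by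
      simp only [map_sub]
      exact max_le (abs_le.2 ⟨by linarith, by linarith⟩) (abs_le.2 ⟨by linarith, by linarith⟩)
    have nb : ∀ x : V, max |C.X x| |C.Y x| ≤ (3 + θ) * L → ‖x‖ ≤ R := fun x h =>
      (C.hN x).trans (le_trans (mul_le_mul_of_nonneg_left h (by linarith)) (by linarith))
    have t1 : C.hh y - u ≤ T ω 0 y := by
      by_contra h
      exact g1 ⟨0, y, by simp, by simpa using nb y b1, by rw [sub_zero]; exact not_le.1 h⟩
    have t2 : C.hh (z - y) - u ≤ T ω y z := by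
      by_contra h
      exact g1 ⟨y, z, nb y b1, nb _ b2, not_le.1 h⟩
    have cn : ∀ x : V, max |C.X x| |C.Y x| ≤ (3 + θ) * L → θ * L ≤ max (-C.X x) (-C.Y x) →
        C.X x + C.Y x + 2 * (δ * L) ≤ C.hh x := fun x a b => by
      refine le_trans ?_ (hcone x)
      have e1 : θ / (2 * (3 + θ)) * max |C.X x| |C.Y x| ≤ θ * L / 2 := by
        refine (mul_le_mul_of_nonneg_left a (by positivity)).trans (le_of_eq ?_)
        field_simp
      have e2 : κ * (θ * L / 2) ≤ κ * (max (-C.X x) (-C.Y x)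
          - θ / (2 * (3 + θ)) * max |C.X x| |C.Y x|) :=
        mul_le_mul_of_nonneg_left (by linarith) hκ.le
      have e3 : 2 * (δ * L) = κ * (θ * L / 2) := by rw [hδ]; ring
      linarith
    have q1 : 5 * v ≤ δ * L := by
      rw [div_mul_eq_mul_div, div_le_iff₀ hδ0] at p1; linarith
    have l1 := C.low y
    have l2 := C.low (z - y)
    rcases y5 with h | h
    · have := cn y b1 h
      simp only [map_sub] at l2
      linarith
    · have := cn _ b2 h
      simp only [map_sub] at this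
      linarith
  obtain ⟨i1, i2, _, _⟩ := C.dom_sq _ (tm_meas 0 σ 0 k) (fun ω => tm_nonneg ω 0 σ 0 k) 0 σ k
    fun _ => le_rfl
  have A1 : C.Adm (fun _ ω => T ω 0 z) := Adm.of_int (T_meas 0 z) (C.T_int 0 z)
  have A2 : C.Adm (fun _ ω => tm ω 0 σ 0 k ^ 2) := Adm.of_int ((tm_meas 0 σ 0 k).pow_const 2) i1
  obtain ⟨A3, E3⟩ := SE_ind (C := C) (A := fun _ => Off) (fun _ => mOff) s
  obtain ⟨A4, E4⟩ := SE_T (C := C) 0 z
  have key := SE_mono (Adm_Pi (C := C) hne) ((((A1.add (Adm.const 1)).add (A2.smul s⁻¹)).add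
    A3).add (A4.smul (-1))) (Far.of_forall fun ζ ω => by
      have hS := tm_nonneg ω 0 σ 0 k
      have hT := T_nonneg ω 0 z
      have q0 : 0 ≤ s⁻¹ * tm ω 0 σ 0 k ^ 2 := by positivity
      by_cases hω : ω ∈ Off
      · have := Pi_le hRz (by rw [hA]; exact (hst ω).pw ζ)
        rw [Set.indicator_of_mem hω]
        have q1 : tm ω 0 σ 0 k ≤ s⁻¹ * tm ω 0 σ 0 k ^ 2 + s := by
          rw [← sub_le_iff_le_add, ← div_eq_inv_mul, le_div_iff₀ s0]
          linarith [sq_nonneg (tm ω 0 σ 0 k - s), mul_nonneg hS s0.le]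
        linarith
      · obtain ⟨t, wk, ht⟩ := good ω hω
        have := Pi_le hRz (by rw [hA]; exact wk.pw ζ)
        rw [Set.indicator_of_notMem hω]
        linarith)
  rw [SE_add (((A1.add (Adm.const 1)).add (A2.smul s⁻¹)).add A3) (A4.smul (-1)),
    SE_add ((A1.add (Adm.const 1)).add (A2.smul s⁻¹)) A3,
    SE_add (A1.add (Adm.const 1)) (A2.smul s⁻¹), SE_add A1 (Adm.const 1), SE_smul A2, SE_smul A4,
    E3, E4, SE_const, SE_indep, SE_indep, SP_indep, sub_zero] at key
  have f1 : ∫ ω, T ω 0 z ∂C.Pm = C.hh z := rfl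
  have f2 : s⁻¹ * ∫ ω, tm ω 0 σ 0 k ^ 2 ∂C.Pm ≤ 4 * C.D ^ 4 * C.m2 * w := by
    rw [inv_mul_le_iff₀ s0]
    refine le_trans i2 ?_
    rw [sub_zero] at h2
    have a1 : (k : ℝ) ≤ C.D * (C.D * (2 * L)) :=
      h2.trans (mul_le_mul_of_nonneg_left hnz (by linarith))
    have a2 := mul_le_mul_of_nonneg_right (pow_le_pow_left₀ (by positivity) a1 2) hm2
    refine a2.trans (le_of_eq ?_)
    have : s * (4 * C.D ^ 4 * C.m2 * w) = 4 * C.D ^ 4 * C.m2 * (s * w) := by ring
    rw [this, sw]; ring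
  have f3 : s * C.Pm.real Off ≤ 3 / δ * w := by
    rw [div_mul_eq_mul_div, le_div_iff₀ hδ0]
    refine le_of_mul_le_mul_left ?_ L0
    have := mul_le_mul_of_nonneg_left pOff s0.le
    linarith
  have f4 : 12 / δ * w = 4 * (3 / δ * w) := by ring
  rw [f1] at key
  linarith

end Pool.Agent.P.MP_dcd5d0_pr.S2
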