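import Pool.Agent.P.MP_dcd5d0_pr.S2.RA

/-! Four small steps: amortisation, crude bound, a priori bound for the mean price, straight
walks. -/

set_option autoImplicit false

open MeasureTheory ProbabilityTheory Finset Function Filter

namespace Pool.Agent.P.MP_dcd5d0_pr.S2

open SC

open Cx

namespace Small

lemma ev_ge (a : ℝ) : ∀ᶠ l : ℕ in atTop, a ≤ (l : ℝ) :=
  tendsto_natCast_atTop_atTop.eventually (eventually_ge_atTop a)

/-- a walk inside the strip pays for all the windows that it passes -/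
lemma am_core (C : Cx) {l : ℕ} (hl : 40000 * C.D ≤ (l : ℝ)) (z : ℕ → V)
    (hz : ∀ s : ℕ, |C.X (z s) - (2 * s * l + 2 * C.D)| ≤ C.D ∧ |C.Y (z s) - -(l / 40000)| ≤ C.D)
    {ζ : V} {ω : Om} {A : Set V} {p : V} (hp : C.X p ≤ 0)
    (hpY : 0 ≤ C.Y p ∧ C.Y p ≤ l / 20000) (hA : ∀ w ∈ A, 0 ≤ C.Y w ∧ C.Y w ≤ l / 20000) (n : ℕ) :
    ∀ (q : V) (y : ℝ), PW ζ ω A p q y → (0 ≤ C.Y q ∧ C.Y q ≤ l / 20000) → 2 * n * l ≤ C.X q →
      ∑ s ∈ range n, Pi ((C.win l).shift (z s)) ζ ω ≤ y := by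
  have hD := C.D1
  induction n with
  | zero => intro q y h _ _; simpa using h.nonneg
  | succ n ih =>
    intro q y h hq hx
    obtain ⟨z1, z2⟩ := hz n
    rw [abs_le] at z1 z2
    have hnl : (0 : ℝ) ≤ n * l := by positivity
    push_cast at hx
    have hall : ∀ w, (w = p ∨ w = q ∨ w ∈ A) → 0 ≤ C.Y w ∧ C.Y w ≤ l / 20000 := by
      rintro w (rfl | rfl | hw)
      · exact hpY
      · exact hq
      · exact hA w hw
    obtain ⟨p', q', s1, s2, s3, a, b, c, d, e, f, -⟩ := extract_pw (C := C)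
      (x0 := 0 + C.X (z n)) (x1 := 11 / 10 * l + C.X (z n)) (y0 := 0 + C.Y (z n))
      (y1 := l / 10000 + C.Y (z n)) h (by linarith) (by linarith) (by linarith)
      (fun w hw _ _ => ⟨by linarith [(hall w hw).1], by linarith [(hall w hw).2]⟩)
    have h1 := ih p' s1 a (hall p' f) (by linarith [b.1.1])
    have h2 : Pi ((C.win l).shift (z n)) ζ ω ≤ s2 := by
      rw [win, LR_shift]
      exact Pi_le b (c.mono Set.inter_subset_right)
    rw [sum_range_succ]
    linarith [d.nonneg]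

/-- the points of a digital segment -/
def dig (p v : V) (n j : ℕ) : V := p + fun i => (j * v i) / (n : ℤ)

lemma dig_step {a b n : ℤ} (hn : 0 < n) (hb : |b| ≤ n) : |(a + b) / n - a / n| ≤ 1 := by
  have e1 := Int.mul_ediv_add_emod a n
  have e2 := Int.mul_ediv_add_emod (a + b) n
  have r1 := Int.emod_nonneg a hn.ne'
  have r2 := Int.emod_nonneg (a + b) hn.ne'
  have r3 := Int.emod_lt_of_pos a hn
  have r4 := Int.emod_lt_of_pos (a + b) hn
  rw [abs_le] at hb ⊢
  constructor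
  · by_contra hc
    have : (a + b) / n - a / n ≤ -2 := by omega
    nlinarith
  · by_contra hc
    have : 2 ≤ (a + b) / n - a / n := by omega
    nlinarith

lemma norm_le_of {w : V} {c : ℤ} (hc : 0 ≤ c) (h : ∀ i, |w i| ≤ c) : ‖w‖ ≤ c := by
  refine (pi_norm_le_iff_of_nonneg (by exact_mod_cast hc)).2 fun i => ?_
  rw [Int.norm_eq_abs]
  exact_mod_cast h i

lemma dig_succ (p v : V) {n : ℕ} (hn : 0 < n) (hv : ∀ i, |v i| ≤ n) (j : ℕ) :
    ‖dig p v n (j + 1) - dig p v n j‖ ≤ 1 := by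
  have := norm_le_of (w := dig p v n (j + 1) - dig p v n j) (c := 1) zero_le_one fun i => by
    have := dig_step (a := j * v i) (b := v i) (n := n) (by exact_mod_cast hn) (hv i)
    simp only [dig, Pi.sub_apply, Pi.add_apply, add_sub_add_left_eq_sub]
    push_cast
    rwa [add_mul, one_mul]
  exact_mod_cast this

lemma dig_lin (X : V →+ ℝ) {D : ℝ} (hD : 0 ≤ D) (hX : ∀ z, |X z| ≤ D * ‖z‖) (p q : V) {n : ℕ}
    (hn : 0 < n) {j : ℕ} (hj : j ≤ n) :
    min (X p) (X q) - D ≤ X (dig p (q - p) n j) ∧ X (dig p (q - p) n j) ≤ max (X p) (X q) + D := by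
  have hn' : (0 : ℝ) < n := by exact_mod_cast hn
  have hnz : (0 : ℤ) < n := by exact_mod_cast hn
  have hr : ‖n • (dig p (q - p) n j - p) - j • (q - p)‖ ≤ n := by
    have := norm_le_of (w := n • (dig p (q - p) n j - p) - j • (q - p)) (c := n) hnz.le fun i => by
      have e1 := Int.mul_ediv_add_emod (j * (q - p) i) n
      have r1 := Int.emod_nonneg (j * (q - p) i) hnz.ne'
      have r3 := Int.emod_lt_of_pos (j * (q - p) i) hnz
      have e : (n • (dig p (q - p) n j - p) - j • (q - p)) i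
          = n * (j * (q - p) i / n) - j * (q - p) i := by
        rw [Pi.sub_apply, Pi.smul_apply, Pi.smul_apply, dig, add_sub_cancel_left, nsmul_eq_mul,
          nsmul_eq_mul]
      rw [e, abs_le]
      constructor <;> linarith
    exact_mod_cast this
  have h1 := (hX _).trans (mul_le_mul_of_nonneg_left hr hD)
  rw [map_sub, map_nsmul, map_nsmul, map_sub, map_sub, nsmul_eq_mul, nsmul_eq_mul, abs_le] at h1
  have hj' : (j : ℝ) ≤ n := by exact_mod_cast hj
  have hj0 : (0 : ℝ) ≤ j := by positivity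
  have a1 := min_le_left (X p) (X q)
  have a2 := min_le_right (X p) (X q)
  have a3 := le_max_left (X p) (X q)
  have a4 := le_max_right (X p) (X q)
  constructor
  · refine le_of_mul_le_mul_left ?_ hn'
    nlinarith [mul_nonneg hj0 (sub_nonneg.2 a2), mul_nonneg (sub_nonneg.2 hj') (sub_nonneg.2 a1)]
  · refine le_of_mul_le_mul_left ?_ hn'
    nlinarith [mul_nonneg hj0 (sub_nonneg.2 a4), mul_nonneg (sub_nonneg.2 hj') (sub_nonneg.2 a3)]

/-- a walk through the points of a sequence with small steps -/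
lemma through (w : ℕ → V) (n : ℕ) (hw : ∀ j, ‖w (j + 1) - w j‖ ≤ 1) :
    ∃ (σ : ℕ → Dir) (k : ℕ), pos (w 0) σ k = w n ∧ k ≤ 2 * n ∧
      ∀ i ≤ k, ∃ j ≤ n, ‖pos (w 0) σ i - w j‖ ≤ 2 := by
  induction n with
  | zero =>
    refine ⟨fun _ => default, 0, pos_zero _ _, le_rfl, fun i hi => ⟨0, le_rfl, ?_⟩⟩
    obtain rfl : i = 0 := by omega
    simp
  | succ n ih =>
    obtain ⟨σ, k, h1, h2, h3⟩ := ih
    obtain ⟨k', σ', e1, e2⟩ := exists_path (w n) (w (n + 1))
    have hk : (k' : ℝ) ≤ 2 := by linarith [hw n]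
    have hk' : k' ≤ 2 := by exact_mod_cast hk
    refine ⟨cat σ k σ', k + k', by rw [pos_cat, h1, e1], by omega, fun i hi => ?_⟩
    rcases le_or_gt i k with c | c
    · obtain ⟨j, a, b⟩ := h3 i c
      exact ⟨j, by omega, by rwa [pos_congr _ (cat_left σ k σ') c]⟩
    · obtain ⟨d, rfl⟩ := Nat.exists_eq_add_of_le c.le
      refine ⟨n, by omega, ?_⟩
      rw [pos_cat, h1]
      refine (norm_pos_sub0 _ _ _).trans ?_
      exact_mod_cast (show d ≤ 2 by omega)

lemma mh_le (hA : St_LineA) (hO : St_Opt) (hR : St_RA) (C : Cx) :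
    ∀ᶠ N : ℕ in atTop, 0 ≤ C.MH N ∧ C.MH N ≤ (N : ℝ) ^ (77 / 100 : ℝ) := by
  have hD := C.D1
  filter_upwards [hA C, hO C,
    tendsto_natCast_atTop_atTop.eventually (hR C (1 / 20000) (by norm_num)),
    ev_ge (20000 * C.D)] with N h1 h2 h3 h4
  obtain ⟨a1, a2, -⟩ := h1 0
  obtain ⟨w1, w2⟩ := C.wN_spec N
  rw [abs_le] at w1 w2
  obtain ⟨ne, hle⟩ := h3 (C.wN N) (by linarith) (by linarith) (by linarith) _ rfl
  refine ⟨SE_nonneg a1 a2, ?_⟩
  refine le_trans (SE_mono a1 (Adm_Pi ne) (Far.of_forall fun ζ ω => ?_)) hle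
  rcases h2 ζ ω with e | ⟨m1, m2, y1, y3, -, -, -, -, b1, -, b3, b4⟩
  · rw [e]; exact Pi_nonneg _ _ _
  · refine le_Pi ne ?_
    rintro p q y ⟨rfl, rfl⟩ h
    have := b4 y (h.mono ?_)
    · linarith [b1.nonneg, b3.nonneg]
    · rintro z ⟨z1, z2, z3, z4⟩
      exact ⟨by linarith, by linarith, by linarith, by linarith⟩

end Small

open S2.Small

theorem am : St_AM := by
  intro C n _
  have hD := C.D1
  filter_upwards [ev_ge (80000 * C.D)] with l hl
  choose z hz using fun s : ℕ => C.near (2 * s * l + 2 * C.D) (-(l / 40000))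
  refine ⟨z, fun ζ ω => ?_⟩
  have hx : (0 : ℝ) ≤ 2 * n * l := by positivity
  refine le_Pi (LR_ne hx (by linarith)) fun p q y a b => ?_
  exact am_core C (by linarith) z hz a.1.2.1 a.1.2.2 (fun w hw => hw.2.2) n q y b a.2.2.2 a.2.1

theorem crude : St_Crude := by
  intro C
  have hD := C.D1
  have hm := C.m2_nonneg
  refine ⟨2 * (C.D * (C.D * (4 * C.D))) * (1 + C.m2), by positivity,
    fun x0 x1 y0 y1 hx hy => ?_⟩
  obtain ⟨p, p1, p2⟩ := C.near (x0 - C.D) (y0 + 2 * C.D)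
  obtain ⟨q, q1, q2⟩ := C.near (x1 + C.D) (y0 + 2 * C.D)
  rw [abs_le] at p1 p2 q1 q2
  obtain ⟨σ, k, h1, h2, h3⟩ := C.straight p q
  have hle : ∀ ζ ω, Pi (C.LR x0 x1 y0 y1) ζ ω ≤ 2 * tm ω p σ 0 k := fun ζ ω => by
    have w : Wk ω {z | y0 ≤ C.Y z ∧ C.Y z ≤ y1} p q (tm ω p σ 0 k) := by
      refine ⟨σ, k, fun j _ b => ?_, h1, rfl⟩
      obtain ⟨-, -, z3, z4⟩ := h3 j b.le
      have := le_min (show y0 + C.D ≤ C.Y p by linarith) (show y0 + C.D ≤ C.Y q by linarith)
      have := max_le (show C.Y p ≤ y0 + 3 * C.D by linarith)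
        (show C.Y q ≤ y0 + 3 * C.D by linarith)
      constructor <;> linarith
    have e1 := Pi_LR_le (C := C) (x0 := x0) (x1 := x1) (y0 := y0) (y1 := y1) (w.pw ζ)
      (by linarith) (by linarith) hx (by
        rintro z (rfl | rfl | hz) _ _
        · constructor <;> linarith
        · constructor <;> linarith
        · exact hz)
    have e2 := T_tri ω q p ζ
    rw [T_symm ω q p] at e2
    linarith [w.T_le]
  have e1 := SE_mono (C := C) (Adm_Pi (LR_ne hx hy))
    (Adm.of_int ((tm_meas p σ 0 k).const_mul 2) ((tm_int p σ k).const_mul 2)) (Far.of_forall hle)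
  rw [SE_indep, integral_const_mul] at e1
  have e2 : ∫ ω, tm ω p σ 0 k ∂C.Pm ≤ k * (1 + C.m2) :=
    (C.dom_sq _ (tm_meas p σ 0 k) (fun ω => tm_nonneg ω p σ 0 k) p σ k fun _ => le_rfl).2.2.2
  have e3 : max |C.X (q - p)| |C.Y (q - p)| ≤ 4 * C.D * (x1 - x0 + 1) := by
    rw [map_sub, map_sub]
    have : x1 - x0 + 4 * C.D ≤ 4 * C.D * (x1 - x0 + 1) := by nlinarith
    exact max_le (abs_le.2 ⟨by linarith, by linarith⟩) (abs_le.2 ⟨by linarith, by linarith⟩)
  have e4 : (k : ℝ) ≤ C.D * (C.D * (4 * C.D * (x1 - x0 + 1))) :=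
    h2.trans (mul_le_mul_of_nonneg_left ((C.hN _).trans
      (mul_le_mul_of_nonneg_left e3 (by linarith))) (by linarith))
  have e5 := mul_le_mul_of_nonneg_right e4 (show 0 ≤ 1 + C.m2 by linarith)
  linarith

theorem mle (hA : St_LineA) (hO : St_Opt) (hR : St_RA) : St_Mle := by
  intro C
  filter_upwards [mh_le hA hO hR C, mh_le hA hO hR C.swap, ev_ge 1,
    tendsto_natCast_atTop_atTop.eventually (RA.ev_pow 2 (77 / 100) (39 / 50) (by norm_num))]
    with N h1 h2 h3 h4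
  refine ⟨h1.1.trans (C.MH_le N), ?_⟩
  have a1 : C.Mx N ≤ _ := max_le h1.2 h2.2
  have a2 : 1 / (N : ℝ) ≤ 1 := (div_le_one (by linarith)).2 h3
  have a3 := Real.one_le_rpow h3 (show (0 : ℝ) ≤ 77 / 100 by norm_num)
  unfold Cx.M
  linarith

theorem geo : St_Geo := by
  intro X Y D hD hX hY p q
  have hD0 : 0 ≤ D := by linarith
  obtain ⟨n, hn⟩ : ∃ n : ℕ, n = max ((q - p) 0).natAbs ((q - p) 1).natAbs := ⟨_, rfl⟩
  have hv : ∀ i, |(q - p) i| ≤ n := fun i => by
    rw [← Int.natCast_natAbs]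
    fin_cases i
    · exact_mod_cast hn ▸ le_max_left _ _
    · exact_mod_cast hn ▸ le_max_right _ _
  have hnn : (n : ℝ) ≤ ‖q - p‖ := by
    have h0 := norm_le_pi_norm (q - p) 0
    have h1 := norm_le_pi_norm (q - p) 1
    rw [Int.norm_eq_abs] at h0 h1
    rw [hn, Nat.cast_max, Nat.cast_natAbs, Nat.cast_natAbs]
    push_cast at h0 h1 ⊢
    exact max_le h0 h1
  rcases Nat.eq_zero_or_pos n with h0 | h0
  · have e : p = q := by
      funext i
      have := hv i
      rw [h0, Nat.cast_zero, abs_nonpos_iff, Pi.sub_apply] at this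
      omega
    subst e
    refine ⟨fun _ => default, 0, pos_zero _ _, by simp, fun j hj => ?_⟩
    obtain rfl : j = 0 := by omega
    simp only [pos_zero, min_self, max_self]
    refine ⟨?_, ?_, ?_, ?_⟩ <;> linarith
  obtain ⟨σ, k, h1, h2, h3⟩ := through (dig p (q - p) n) n (dig_succ p _ h0 hv)
  have e0 : dig p (q - p) n 0 = p := by funext i; simp [dig]
  have en : dig p (q - p) n n = q := by
    funext i
    have : (n : ℤ) ≠ 0 := by exact_mod_cast h0.ne'
    simp only [dig, Pi.add_apply]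
    rw [Int.mul_ediv_cancel_left _ this, Pi.sub_apply]
    ring
  rw [e0] at h1 h3
  refine ⟨σ, k, h1.trans en, ?_, fun i hi => ?_⟩
  · have : (k : ℝ) ≤ 2 * n := by exact_mod_cast h2
    linarith
  · obtain ⟨j, hj, b⟩ := h3 i hi
    obtain ⟨x1, x2⟩ := dig_lin X hD0 hX p q h0 hj
    obtain ⟨y1, y2⟩ := dig_lin Y hD0 hY p q h0 hj
    have c1 := (hX _).trans (mul_le_mul_of_nonneg_left b hD0)
    have c2 := (hY _).trans (mul_le_mul_of_nonneg_left b hD0)
    rw [map_sub, abs_le] at c1 c2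
    refine ⟨?_, ?_, ?_, ?_⟩ <;> linarith [c1.1, c1.2, c2.1, c2.2]

end Pool.Agent.P.MP_dcd5d0_pr.S2
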