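import Pool.Agent.P.MP_dcd5d0_pr.S2.St

/-! The staircase: the middle part of a line is not more expensive than seven thin crossings. -/

set_option autoImplicit false

open MeasureTheory Filter

namespace Pool.Agent.P.MP_dcd5d0_pr.S2

open SC

open Cx

namespace Stair

/-- a walk with price at most `c` -/
def RW (ζ : V) (ω : Om) (A : Set V) (p q : V) (c : ℝ) : Prop := ∃ y ≤ c, PW ζ ω A p q y

def Bx (C : Cx) (a b c d : ℝ) : Set V :=
  {z | (a ≤ C.X z ∧ C.X z ≤ b) ∧ c ≤ C.Y z ∧ C.Y z ≤ d}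

variable {ζ : V} {ω : Om} {A A' : Set V} {p q z p' q' : V} {s s' : ℝ}

lemma RW.trans (h : RW ζ ω A p z s) (hz : z ∈ A) (h' : RW ζ ω A z q s') :
    RW ζ ω A p q (s + s') :=
  let ⟨_, a, b⟩ := h
  let ⟨_, c, d⟩ := h'
  ⟨_, add_le_add a c, b.trans hz d⟩

lemma RW.mono (h : RW ζ ω A p q s) (hA : A ⊆ A') : RW ζ ω A' p q s :=
  let ⟨_, a, b⟩ := h
  ⟨_, a, b.mono hA⟩

lemma RW.le (h : RW ζ ω A p q s) (hs : s ≤ s') : RW ζ ω A p q s' :=
  let ⟨_, a, b⟩ := h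
  ⟨_, a.trans hs, b⟩

lemma tl {P : V → Prop} (h : ∀ y, (y = p ∨ y = q ∨ y ∈ A) → P y) (hz : z ∈ A) :
    ∀ y, (y = z ∨ y = q ∨ y ∈ A) → P y := by
  rintro y (rfl | e)
  exacts [h _ (Or.inr (Or.inr hz)), h _ (Or.inr e)]

lemma hd {P : V → Prop} (h : ∀ y, (y = p ∨ y = q ∨ y ∈ A) → P y) (hz : z ∈ A) :
    ∀ y, (y = p ∨ y = z ∨ y ∈ A) → P y := by
  rintro y (e | rfl | e)
  exacts [h _ (Or.inl e), h _ (Or.inr (Or.inr hz)), h _ (Or.inr (Or.inr e))]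

lemma wk {f : V → ℝ} {a b a' b' : ℝ} (h : ∀ y, (y = p ∨ y = q ∨ y ∈ A) → a ≤ f y ∧ f y ≤ b)
    (ha : a' ≤ a) (hb : b ≤ b') : ∀ y, (y = p ∨ y = q ∨ y ∈ A) → a' ≤ f y ∧ f y ≤ b' :=
  fun y e => ⟨ha.trans (h y e).1, (h y e).2.trans hb⟩

lemma cross (C : Cx) (h1 : RW ζ ω A p q s) (h2 : RW ζ ω A' p' q' s') {a b c d : ℝ}
    (hX : ∀ z, (z = p' ∨ z = q' ∨ z ∈ A') → a ≤ C.X z ∧ C.X z ≤ b)
    (hY : ∀ z, (z = p ∨ z = q ∨ z ∈ A) → c ≤ C.Y z ∧ C.Y z ≤ d)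
    (e1 : C.X p < a) (e2 : b < C.X q) (e3 : C.Y p' < c) (e4 : d < C.Y q') :
    ∃ z ∈ A, z ∈ A' ∧ RW ζ ω A p z s ∧ RW ζ ω A z q s ∧ RW ζ ω A' p' z s' ∧ RW ζ ω A' z q' s' := by
  obtain ⟨y, a1, h1⟩ := h1
  obtain ⟨y', a2, h2⟩ := h2
  obtain ⟨z, s1, s2, s3, s4, b1, b2, b3, b4, b5, b6, b7, b8⟩ := h1.cross C.X C.Y C.uv h2
    (fun z hz => ⟨e1.trans_le (hX z hz).1, (hX z hz).2.trans_lt e2⟩)
    (fun z hz => ⟨e3.trans_le (hY z hz).1, (hY z hz).2.trans_lt e4⟩)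
  exact ⟨z, b1, b2, ⟨_, by linarith [b4.nonneg], b3⟩, ⟨_, by linarith [b3.nonneg], b4⟩,
    ⟨_, by linarith [b7.nonneg], b6⟩, ⟨_, by linarith [b6.nonneg], b7⟩⟩

/-- a crossing of a closed box -/
lemma getH (C : Cx) (ζ : V) (ω : Om) {a b c d δ : ℝ} (hab : a ≤ b) (hcd : c + 4 * C.D ≤ d)
    (hδ : 0 < δ) : ∃ p q, RW ζ ω (Bx C a b c d) p q (Pi (C.LR (a - 1) (b + 1) c d) ζ ω + δ) ∧
      C.X p < a ∧ b < C.X q ∧ ∀ z, (z = p ∨ z = q ∨ z ∈ Bx C a b c d) → c ≤ C.Y z ∧ C.Y z ≤ d := by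
  classical
  have hx : a - 1 ≤ b + 1 := by linarith
  obtain ⟨p, q, y, h1, h2, h3⟩ := exists_lt_Pi (ζ := ζ) (ω := ω) (LR_ne hx hcd)
    (lt_add_of_pos_right _ hδ)
  have hY := fun z hz => (LR_all (z := z) hx h1 hz).2.2
  obtain ⟨p', y1, y2, a1, a2, a3, a4, -, a6⟩ := h2.last_le (fun z => if a ≤ C.X z then 1 else 0)
    (D := 1) (a := 0) (fun _ _ => by split_ifs <;> norm_num)
    (by rw [if_neg (by linarith [h1.1.2.1])]) (by split_ifs <;> norm_num)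
  obtain ⟨q', y3, y4, b1, b2, b3, b4, -, b6⟩ := a2.first_ge (fun z => if C.X z ≤ b then 0 else 1)
    (D := 1) (a := 1) (fun _ _ => by split_ifs <;> norm_num) (by split_ifs <;> norm_num)
    (by rw [if_neg (by linarith [h1.2.1])])
  refine ⟨p', q', ⟨y3, by linarith [a1.nonneg, b2.nonneg], b1.mono ?_⟩, ?_, ?_, ?_⟩
  · rintro z ⟨⟨z1, z2⟩, z3⟩
    refine ⟨⟨?_, ?_⟩, z1.2.2⟩
    · by_contra e
      simp [e] at z2
    · by_contra e
      simp [e] at z3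
  · by_contra e
    rw [if_pos (not_lt.1 e)] at a4
    linarith
  · by_contra e
    rw [if_pos (not_lt.1 e)] at b4
    linarith
  · rintro z (rfl | rfl | e)
    · exact hY _ a6
    · rcases b6 with e | e | e
      exacts [e ▸ hY _ a6, hY _ (Or.inr (Or.inl e)), hY _ (Or.inr (Or.inr e.1))]
    · exact e.2

variable (C : Cx) (u : ℝ)

/-- the region -/
abbrev G : Set V := Bx C (-u) (10001 * u) (-u) (101 * u)

noncomputable def H (c : ℝ) : Cl := C.LR (-u - 1) (10001 * u + 1) (c * u) ((c + 2) * u)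

noncomputable def W (c : ℝ) : Cl := C.swap.LR (-u - 1) (101 * u + 1) (c * u) ((c + 2) * u)

variable {C u} {δ : ℝ}

lemma gH (hD : 4 * C.D ≤ u) (hδ : 0 < δ) (ζ : V) (ω : Om) (c : ℝ) (h0 : 0 ≤ c) (h1 : c ≤ 99) :
    ∃ A ⊆ G C u, ∃ p q, RW ζ ω A p q (Pi (H C u c) ζ ω + δ) ∧ C.X p < -u ∧ 10001 * u < C.X q ∧
      ∀ z, (z = p ∨ z = q ∨ z ∈ A) → c * u ≤ C.Y z ∧ C.Y z ≤ (c + 2) * u := by
  have := C.D1
  refine ⟨_, ?_, getH C ζ ω (by linarith) (by linarith) hδ⟩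
  rintro z ⟨z1, z2, z3⟩
  exact ⟨z1, by nlinarith, by nlinarith⟩

lemma gW (hD : 4 * C.D ≤ u) (hδ : 0 < δ) (ζ : V) (ω : Om) (c : ℝ) (h0 : 0 ≤ c) (h1 : c ≤ 9999) :
    ∃ A ⊆ G C u, ∃ p q, RW ζ ω A p q (Pi (W C u c) ζ ω + δ) ∧ C.Y p < -u ∧ 101 * u < C.Y q ∧
      ∀ z, (z = p ∨ z = q ∨ z ∈ A) → c * u ≤ C.X z ∧ C.X z ≤ (c + 2) * u := by
  have := C.D1
  refine ⟨_, ?_, getH C.swap ζ ω (by linarith) (by rw [swap_D]; linarith) hδ⟩
  rintro z ⟨z1, z2, z3⟩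
  rw [swap_Y] at z2 z3
  exact ⟨⟨by nlinarith, by nlinarith⟩, z1⟩

lemma start (hD : 4 * C.D ≤ u) (hδ : 0 < δ) {m : V} {y : ℝ} (hm : m ∈ G C u)
    (hm' : 10 * u ≤ max (C.X m) (C.Y m)) (h : PW ζ ω (G C u) 0 m y) :
    ∃ A ⊆ G C u, ∃ z ∈ A, ∃ q s s', RW ζ ω (G C u) 0 z s ∧ RW ζ ω A z q s' ∧
      C.X z ≤ 10 * u ∧ 10001 * u < C.X q ∧
      (∀ x, (x = z ∨ x = q ∨ x ∈ A) → 0 ≤ C.Y x ∧ C.Y x ≤ 22 * u) ∧
      s + s' ≤ y + (Pi (H C u 4) ζ ω + Pi (H C u 20) ζ ω + Pi (W C u 4) ζ ω + 2 * δ) := by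
  have := C.D1
  obtain ⟨z, y1, y2, a1, a2, a3, a4, -, a6⟩ := h.first_ge (fun z => max (C.X z) (C.Y z))
    (D := C.D) (a := 10 * u) (fun x d => max_le ((C.upX x d).trans (by gcongr; exact le_max_left _ _))
      ((C.upY x d).trans (by gcongr; exact le_max_right _ _))) (by simp; linarith) hm'
  have h0 : (0 : V) ∈ G C u := by
    simp only [Bx, Set.mem_ofPred_eq, map_zero]
    exact ⟨⟨by linarith, by linarith⟩, by linarith, by linarith⟩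
  have hz : ∀ x, (x = 0 ∨ x = z ∨ x ∈ G C u ∩ {y | max (C.X y) (C.Y y) < 10 * u}) →
      x ∈ G C u := by
    rintro x (rfl | rfl | e)
    · exact h0
    · rcases a6 with e | e | e
      exacts [e ▸ h0, e ▸ hm, e]
    · exact e.1
  have w : RW ζ ω _ 0 z y := ⟨y1, by linarith [a2.nonneg], a1⟩
  have n1 := Pi_nonneg (H C u 4) ζ ω
  have n2 := Pi_nonneg (H C u 20) ζ ω
  have n3 := Pi_nonneg (W C u 4) ζ ω
  rcases le_max_iff.1 a4 with e | e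
  · obtain ⟨A, hA, p, q, b1, b2, b3, b4⟩ := gW hD hδ ζ ω 4 (by norm_num) (by norm_num)
    obtain ⟨z1, c1, c2, c3, -, -, c4⟩ := cross C w b1 b4 (fun x hx => (hz x hx).2)
      (by rw [map_zero]; linarith) (by linarith) b2 b3
    obtain ⟨A', hA', p', q', d1, d2, d3, d4⟩ := gH hD hδ ζ ω 20 (by norm_num) (by norm_num)
    obtain ⟨z2, f1, f2, -, f3, f4, -⟩ := cross C d1 c4 (tl b4 c2) d4 (by linarith) (by linarith)
      ((le_max_right _ _).trans_lt (c1.2.trans_le (by linarith))) (by linarith)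
    exact ⟨A', hA', z2, f1, q', _, _, (c3.mono Set.inter_subset_left).trans c1.1 (f4.mono hA), f3,
      by linarith [(b4 z2 (Or.inr (Or.inr f2))).2], d3,
      wk (tl d4 f1) (by linarith) (by linarith), by linarith⟩
  · obtain ⟨A, hA, p, q, b1, b2, b3, b4⟩ := gH hD hδ ζ ω 4 (by norm_num) (by norm_num)
    obtain ⟨z1, c1, c2, -, c3, c4, -⟩ := cross C b1 w (fun x hx => (hz x hx).1) b4 b2 b3
      (by rw [map_zero]; linarith) (by linarith)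
    exact ⟨A, hA, z1, c1, q, _, _, c4.mono Set.inter_subset_left, c3,
      (max_lt_iff.1 c2.2).1.le, b3, wk (tl b4 c1) (by linarith) (by linarith), by linarith⟩

lemma finish (hD : 4 * C.D ≤ u) (hδ : 0 < δ) {m w : V} {y : ℝ} (hm : m ∈ G C u)
    (hm' : min (C.X m - 10000 * u) (C.Y m - 100 * u) ≤ -(9 * u)) (h : PW ζ ω (G C u) m w y)
    (w1 : |C.X w - 10000 * u| ≤ C.D) (w2 : |C.Y w - 100 * u| ≤ C.D) :
    ∃ A ⊆ G C u, ∃ z ∈ A, ∃ p s s', RW ζ ω A p z s ∧ RW ζ ω (G C u) z w s' ∧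
      C.X p < -u ∧ 9991 * u ≤ C.X z ∧
      (∀ x, (x = p ∨ x = z ∨ x ∈ A) → 80 * u ≤ C.Y x ∧ C.Y x ≤ 101 * u) ∧
      s + s' ≤ y + (Pi (H C u 94) ζ ω + Pi (H C u 80) ζ ω + Pi (W C u 9994) ζ ω + 2 * δ) := by
  have := C.D1
  rw [abs_le] at w1 w2
  obtain ⟨z, y1, y2, a1, a2, a3, a4, -, a6⟩ := h.last_le
    (fun z => min (C.X z - 10000 * u) (C.Y z - 100 * u)) (D := C.D) (a := -(9 * u))
    (fun x d => by
      rw [← min_add_add_right]
      exact min_le_min (by linarith [C.upX x d]) (by linarith [C.upY x d])) hm'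
    (le_min (by linarith) (by linarith))
  have h0 : w ∈ G C u := ⟨⟨by linarith, by linarith⟩, by linarith, by linarith⟩
  have hz : ∀ x, (x = z ∨ x = w ∨
      x ∈ G C u ∩ {y | -(9 * u) < min (C.X y - 10000 * u) (C.Y y - 100 * u)}) → x ∈ G C u := by
    rintro x (rfl | rfl | e)
    · rcases a6 with e | e | e
      exacts [e ▸ hm, e ▸ h0, e]
    · exact h0
    · exact e.1
  have v : RW ζ ω _ z w y := ⟨y2, by linarith [a1.nonneg], a2⟩
  have n1 := Pi_nonneg (H C u 94) ζ ω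
  have n2 := Pi_nonneg (H C u 80) ζ ω
  have n3 := Pi_nonneg (W C u 9994) ζ ω
  rcases min_le_iff.1 a4 with e | e
  · obtain ⟨A, hA, p, q, b1, b2, b3, b4⟩ := gW hD hδ ζ ω 9994 (by norm_num) (by norm_num)
    obtain ⟨z1, c1, c2, -, c3, c4, -⟩ := cross C v b1 b4 (fun x hx => (hz x hx).2)
      (by linarith) (by linarith) b2 b3
    obtain ⟨A', hA', p', q', d1, d2, d3, d4⟩ := gH hD hδ ζ ω 80 (by norm_num) (by norm_num)
    obtain ⟨z2, f1, f2, f3, -, -, f4⟩ := cross C d1 c4 (hd b4 c2) d4 (by linarith) (by linarith)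
      (by linarith) (by linarith [(lt_min_iff.1 (Set.mem_ofPred.1 c1.2)).2])
    exact ⟨A', hA', z2, f1, p', _, _, f3, (f4.mono hA).trans c1.1 (c3.mono Set.inter_subset_left),
      d2, by linarith [(b4 z2 (Or.inr (Or.inr f2))).1],
      wk (hd d4 f1) (by linarith) (by linarith), by linarith⟩
  · obtain ⟨A, hA, p, q, b1, b2, b3, b4⟩ := gH hD hδ ζ ω 94 (by norm_num) (by norm_num)
    obtain ⟨z1, c1, c2, c3, -, -, c4⟩ := cross C b1 v (fun x hx => (hz x hx).1) b4 b2 b3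
      (by linarith) (by linarith)
    exact ⟨A, hA, z1, c1, p, _, _, c3, c4.mono Set.inter_subset_left, b2,
      by linarith [(lt_min_iff.1 (Set.mem_ofPred.1 c2.2)).1], wk (hd b4 c1) (by linarith) (by linarith), by linarith⟩

lemma route (hD : 4 * C.D ≤ u) (hδ : 0 < δ) {m m' w : V} {y y' : ℝ} (hm : m ∈ G C u)
    (h1 : 10 * u ≤ max (C.X m) (C.Y m)) (h : PW ζ ω (G C u) 0 m y) (hm' : m' ∈ G C u)
    (h2 : min (C.X m' - 10000 * u) (C.Y m' - 100 * u) ≤ -(9 * u)) (h' : PW ζ ω (G C u) m' w y')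
    (w1 : |C.X w - 10000 * u| ≤ C.D) (w2 : |C.Y w - 100 * u| ≤ C.D) :
    RW ζ ω (G C u) 0 w (y + y' + (Pi (H C u 4) ζ ω + Pi (H C u 20) ζ ω + Pi (H C u 94) ζ ω
      + Pi (H C u 80) ζ ω + Pi (W C u 4) ζ ω + Pi (W C u 9994) ζ ω + Pi (W C u 5000) ζ ω)
      + 5 * δ) := by
  have := C.D1
  obtain ⟨A, hA, z, hz, q, s, s', a1, a2, a3, a4, a5, a6⟩ := start hD hδ hm h1 h
  obtain ⟨A', hA', z', hz', p', t, t', b1, b2, b3, b4, b5, b6⟩ := finish hD hδ hm' h2 h' w1 w2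
  obtain ⟨B, hB, p0, q0, c1, c2, c3, c4⟩ := gW hD hδ ζ ω 5000 (by norm_num) (by norm_num)
  obtain ⟨x, d1, d2, d3, -, -, d4⟩ := cross C a2 c1 c4 a5 (by linarith) (by linarith)
    (by linarith) (by linarith)
  obtain ⟨x', f1, -, -, f2, f3, -⟩ := cross C b1 d4 (tl c4 d2) b5 (by linarith) (by linarith)
    (by linarith [(a5 x (Or.inr (Or.inr d1))).2]) c3
  exact ((((a1.trans (hA hz) (d3.mono hA)).trans (hA d1) (f3.mono hB)).trans (hA' f1)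
    (f2.mono hA')).trans (hA' hz') b2).le (by linarith)

lemma Rg_eq (C : Cx) (N : ℝ) : C.Rg N = G C (N / 10000) := by
  ext z
  constructor
  · rintro ⟨a, b, c, d⟩
    exact ⟨⟨a, by linarith⟩, c, by linarith⟩
  · rintro ⟨⟨a, b⟩, c, d⟩
    exact ⟨a, by linarith, c, by linarith⟩

lemma H_le {l : ℕ} (hD : 4 * C.D ≤ (l : ℝ) / 10000) (c : ℝ) :
    C.Adm (Pi (H C (l / 10000) c)) ∧ C.SE (Pi (H C (l / 10000) c)) ≤ C.WH l := by
  have := C.D1
  exact ⟨Adm_Pi (LR_ne (by linarith) (by linarith)),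
    SE_LR_pos (by linarith) (by linarith) (by linarith) hD⟩

lemma W_le {l : ℕ} (hD : 4 * C.D ≤ (l : ℝ) / 10000) (c : ℝ) :
    C.Adm (Pi (W C (l / 10000) c)) ∧ C.SE (Pi (W C (l / 10000) c)) ≤ C.swap.WH l := by
  have := C.D1
  exact ⟨Adm_Pi (LR_ne (by linarith) (by rw [swap_D]; linarith)),
    SE_LR_pos (C := C.swap) (by linarith) (by rw [swap_D]; linarith) (by rw [swap_D]; linarith) hD⟩

end Stair

open Stair

theorem stair (hA : St_LineA) (hO : St_Opt) : St_Stair := by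
  intro C
  have hl : ∀ᶠ l : ℕ in atTop, 4 * C.D ≤ (l : ℝ) / 10000 :=
    (tendsto_natCast_atTop_atTop.atTop_div_const (by norm_num)).eventually_ge_atTop _
  filter_upwards [hA C, hO C, hl] with l h1 h2 hD
  have := C.D1
  have a1 := H_le hD 4
  have a2 := H_le hD 20
  have a3 := H_le hD 94
  have a4 := H_le hD 80
  have a5 := W_le hD 4
  have a6 := W_le hD 9994
  have a7 := W_le hD 5000
  have b2 := a1.1.add a2.1
  have b3 := b2.add a3.1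
  have b4 := b3.add a4.1
  have b5 := b4.add a5.1
  have b6 := b5.add a6.1
  refine (SE_mono (h1 0).1 (b6.add a7.1) (Far.of_forall fun ζ ω => ?_)).trans ?_
  · rcases h2 ζ ω with e | ⟨m1, m2, y1, y3, c1, c2, c3, c4, c5, -, c6, c7⟩
    · rw [e]
      repeat first | exact Pi_nonneg _ _ _ | apply add_nonneg
    · rw [Rg_eq] at c1 c2 c5 c6 c7
      obtain ⟨w1, w2⟩ := C.wN_spec l
      refine le_of_forall_pos_le_add fun δ hδ => ?_
      have g1 : 10 * ((l : ℝ) / 10000) ≤ max (C.X m1) (C.Y m1) := by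
        rcases lt_max_iff.1 c3.1 with e | e <;> rcases lt_abs.1 e with e | e
        · exact le_max_of_le_left (by linarith)
        · linarith [c1.1.1]
        · exact le_max_of_le_right (by linarith)
        · linarith [c1.2.1]
      have g2 : min (C.X m2 - 10000 * ((l : ℝ) / 10000)) (C.Y m2 - 100 * ((l : ℝ) / 10000))
          ≤ -(9 * ((l : ℝ) / 10000)) := by
        rw [abs_le] at w1 w2
        rcases lt_max_iff.1 c4.2 with e | e <;> rw [map_sub] at e <;>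
          rcases lt_abs.1 e with e | e
        · linarith [c2.1.2]
        · exact min_le_of_left_le (by linarith)
        · linarith [c2.2.2]
        · exact min_le_of_right_le (by linarith)
      obtain ⟨y, d1, d2⟩ := route (δ := δ / 5) hD (by linarith) c1 g1 c5 c2 g2 c6
        (by convert w1 using 3; ring) (by convert w2 using 3; ring)
      linarith [c7 y d2]
  · rw [SE_add b6 a7.1, SE_add b5 a6.1, SE_add b4 a5.1, SE_add b3 a4.1, SE_add b2 a3.1,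
      SE_add a1.1 a2.1]
    linarith [a1.2, a2.2, a3.2, a4.2, a5.2, a6.2, a7.2]

end Pool.Agent.P.MP_dcd5d0_pr.S2
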