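import Pool.Agent.P.MP_dcd5d0_pr.S2.Tr

/-! Two independent options for the crossing of a long thin rectangle. -/

set_option autoImplicit false

open MeasureTheory ProbabilityTheory Finset Function Filter

namespace Pool.Agent.P.MP_dcd5d0_pr.S2

open SC

open Cx

theorem tl (hA : St_LineA) (hC : St_Cor) : St_TL := by
  intro C k hk
  have ht : Tendsto (fun l : ℕ => 4 * k * l) atTop atTop :=
    tendsto_id.const_mul_atTop' (by omega)
  have hl0 : ∀ᶠ l : ℕ in atTop, 320000 * C.D ≤ (l : ℝ) :=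
    tendsto_natCast_atTop_atTop.eventually (eventually_ge_atTop _)
  have hk' : (1 : ℝ) ≤ k := by exact_mod_cast hk
  have ht' : Tendsto (fun l : ℕ => 12 * k * (l : ℝ)) atTop atTop :=
    tendsto_natCast_atTop_atTop.const_mul_atTop (by positivity)
  filter_upwards [ht.eventually (hC C), ht.eventually (hC C.swap), hl0,
    ht'.eventually (C.transf (ε := 1 / (12 * k * 160000)) (by positivity))] with l h1 h2 hl htr
  have hD := C.D1
  have hl' : (0 : ℝ) ≤ l := Nat.cast_nonneg l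
  have hu : (l : ℝ) ≤ k * l := le_mul_of_one_le_left hl' hk'
  have hN : ((4 * k * l : ℕ) : ℝ) = 4 * (k * l) := by push_cast; ring
  rw [hN] at h1 h2
  obtain ⟨DA, EA, mA, lA, aA, nA, sA, uA, wA, -⟩ :=
    h1 (-(l / 80000) - C.D - 2) 0 (l / 80000) (4 * (k * l) / 25)
      (2 * (k * l) + 4 * (k * l) / 25 + l / 80000 + C.D + 2) (by linarith) (by linarith) le_rfl
      (by linarith) (by linarith) (by linarith)
  obtain ⟨DB, EB, mB, lB, aB, nB, sB, uB, wB, -⟩ :=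
    h2 (3 * (l / 80000)) (2 * (k * l) + C.D + 2) (l / 80000)
      (2 * (k * l) + C.D + 2 + 4 * (k * l) / 25) (4 * (k * l) / 25)
      (by rw [swap_D]; linarith) (by linarith) (by linarith) (by linarith) le_rfl (by linarith)
  rw [swap_Far] at uB wB
  rw [swap_SE, swap_Mx] at sB
  rw [swap_Adm] at aB
  obtain ⟨G, E1, g1, g2, g3, g4, g5⟩ := htr 0 0
  obtain ⟨DA', mA', lA', dA⟩ := g5 _ DA (by
    intro z hz
    simp only [tube, cfr, Set.mem_union, Set.mem_ofPred_eq, abs_le] at hz ⊢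
    rcases hz with (⟨a1, a2, a3, a4⟩ | ⟨a1, a2, a3, a4⟩) | ⟨-, ⟨a1, a2⟩, a3, a4⟩ <;>
      refine ⟨⟨?_, ?_⟩, ?_, ?_⟩ <;> linarith) mA lA
  obtain ⟨DB', mB', lB', dB⟩ := g5 _ DB (by
    intro z hz
    simp only [tube, cfr, Set.mem_union, Set.mem_ofPred_eq, abs_le, swap_X, swap_Y] at hz ⊢
    rcases hz with (⟨a1, a2, a3, a4⟩ | ⟨a1, a2, a3, a4⟩) | ⟨-, ⟨a1, a2⟩, a3, a4⟩ <;>
      refine ⟨⟨?_, ?_⟩, ?_, ?_⟩ <;> linarith) mB lB
  have g6 := g4 (C.LR 0 (2 * k * l) 0 (l / 20000)) (LR_ne (by linarith) (by linarith)) (by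
    rintro z ⟨a1, a2, a3, a4⟩
    exact ⟨abs_le.2 ⟨by linarith, by linarith⟩, abs_le.2 ⟨by linarith, by linarith⟩⟩) (by
    rintro p q ⟨⟨a1, a2, a3, a4⟩, b1, b2, b3, b4⟩
    exact ⟨⟨abs_le.2 ⟨by linarith, by linarith⟩, abs_le.2 ⟨by linarith, by linarith⟩⟩,
      abs_le.2 ⟨by linarith, by linarith⟩, abs_le.2 ⟨by linarith, by linarith⟩⟩)
  rw [show 1 / (12 * (k : ℝ) * 160000) * (12 * k * l) = l / 160000 by field_simp] at lA' lB'
  refine ⟨DA', DB', fun ζ ω => EA ζ ω + EB ζ ω + E1 ω, mA', mB',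
    NM.Fld.Loc.indep ?_ mA' mB' lA' lB', (aA.add aB).add g1,
    fun ζ ω => add_nonneg (add_nonneg (nA ζ ω) (nB ζ ω)) (g2 ω), ?_, ?_, ?_⟩
  · refine Set.disjoint_left.2 ?_
    rintro z ⟨w, hz, ⟨c1, c2⟩⟩ ⟨w', hz', ⟨c3, c4⟩⟩
    rw [abs_le] at c1 c2 c3 c4
    simp only [tube, cfr, Set.mem_union, Set.mem_ofPred_eq, swap_X, swap_Y] at hz hz'
    rcases hz with (⟨a1, a2, a3, a4⟩ | ⟨a1, a2, a3, a4⟩) | ⟨⟨a1, a2⟩ | ⟨a1, a2⟩, -⟩ <;>
      rcases hz' with (⟨b1, b2, b3, b4⟩ | ⟨b1, b2, b3, b4⟩) | ⟨⟨b1, b2⟩ | ⟨b1, b2⟩, -⟩ <;>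
      linarith [c1.1, c1.2, c2.1, c2.2, c3.1, c3.2, c4.1, c4.2]
  · rw [SE_add (aA.add aB) g1, SE_add aA aB]
    have e5 : 1 / (12 * k * (l : ℝ)) ≤ 4 * (1 / (4 * (k * l))) := by
      rw [mul_one_div, div_le_div_iff₀ (by linarith) (by linarith)]; linarith
    unfold Cx.M
    rw [hN]
    linarith
  · refine (wA.and wB).mono ?_
    rintro ζ ⟨hA', hB'⟩ ω
    have e1 : Pi (C.LR 0 (2 * k * l) 0 (l / 20000)) ζ ω ≤ DA ω + EA ζ ω := by
      refine le_of_forall_pos_le_add fun δ hδ => ?_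
      obtain ⟨p, q, y, hp, hq, p1, q1, hw, hy⟩ := hA' ω δ hδ
      refine le_trans (Pi_LR_le hw ?_ (by linarith) (by linarith) ?_) hy
      · rcases hp with ⟨a1, a2, a3, a4⟩ | ⟨a1, a2, a3, a4⟩ <;> linarith
      · intro z hz z1 z2
        have hz' : z ∈ C.tube (-(l / 80000) - C.D - 2) 0 (l / 80000) (4 * (k * l) / 25)
            (2 * (k * l) + 4 * (k * l) / 25 + l / 80000 + C.D + 2) := by
          rcases hz with rfl | rfl | hz <;> assumption
        rcases hz' with ⟨a1, a2, a3, a4⟩ | ⟨a1, a2, a3, a4⟩ <;> constructor <;> linarith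
    have e2 : Pi (C.LR 0 (2 * k * l) 0 (l / 20000)) ζ ω ≤ DB ω + EB ζ ω := by
      refine le_of_forall_pos_le_add fun δ hδ => ?_
      obtain ⟨p, q, y, hp, hq, p1, q1, hw, hy⟩ := hB' ω δ hδ
      simp only [swap_X, swap_Y] at p1 q1
      refine le_trans (Pi_LR_le hw (by linarith) ?_ (by linarith) ?_) hy
      · rcases hq with ⟨a1, a2, a3, a4⟩ | ⟨a1, a2, a3, a4⟩ <;>
          simp only [swap_X, swap_Y] at a1 a2 a3 a4 <;> linarith
      · intro z hz z1 z2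
        have hz' : z ∈ C.swap.tube (3 * (l / 80000)) (2 * (k * l) + C.D + 2) (l / 80000)
            (2 * (k * l) + C.D + 2 + 4 * (k * l) / 25) (4 * (k * l) / 25) := by
          rcases hz with rfl | rfl | hz <;> assumption
        rcases hz' with ⟨a1, a2, a3, a4⟩ | ⟨a1, a2, a3, a4⟩ <;>
          simp only [swap_X, swap_Y] at a1 a2 a3 a4 <;> constructor <;> linarith
    have := nA ζ ω
    have := nB ζ ω
    have := (dA ω).1 _ _ (nA ζ ω) (g6 ζ ω) e1
    have := (dB ω).1 _ _ (nB ζ ω) (g6 ζ ω) e2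
    rcases le_total (DA' ω) (DB' ω) with h | h
    · rw [min_eq_left h]; linarith
    · rw [min_eq_right h]; linarith
  · rintro Dv (rfl | rfl)
    · refine ⟨-(l / 80000) - C.D - 2 - 1, 0, 0 - 4 * (k * l) / 25, -(l / 80000) - C.D - 2,
        uA.mono fun ζ h ω => ?_⟩
      have e1 := Pi_LR_mono (C := C) (x0 := -(l / 80000) - C.D - 2 - 1)
        (x1 := -(l / 80000) - C.D - 2 + (2 * (k * l) + 4 * (k * l) / 25 + l / 80000 + C.D + 2))
        (y0 := 0) (y1 := 0 + l / 80000) (x1' := -(l / 80000) - C.D - 2 - 1 + 3 * k * l)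
        le_rfl (by linarith) (by linarith) le_rfl le_rfl (by linarith) ζ ω
      have e2 := Pi_LR_mono (C := C.swap) (x0 := 0 - 4 * (k * l) / 25) (x1 := 0 + l / 80000 + 1)
        (y0 := -(l / 80000) - C.D - 2) (y1 := -(l / 80000) - C.D - 2 + l / 80000)
        (x1' := 0 - 4 * (k * l) / 25 + 3 * k * l)
        le_rfl (by linarith) (by linarith) le_rfl le_rfl (by rw [swap_D]; linarith) ζ ω
      have := nB ζ ω
      linarith [(dA ω).2 _ (add_nonneg (add_nonneg (Pi_nonneg _ ζ ω) (Pi_nonneg _ ζ ω)) (nA ζ ω))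
        (h ω).2]
    · refine ⟨2 * (k * l) + C.D + 2 - (2 * (k * l) + C.D + 2 + 4 * (k * l) / 25),
        3 * (l / 80000), 3 * (l / 80000) - 1, 2 * (k * l) + C.D + 2, uB.mono fun ζ h ω => ?_⟩
      have e1 := Pi_LR_mono (C := C)
        (x0 := 2 * (k * l) + C.D + 2 - (2 * (k * l) + C.D + 2 + 4 * (k * l) / 25))
        (x1 := 2 * (k * l) + C.D + 2 + l / 80000 + 1)
        (y0 := 3 * (l / 80000)) (y1 := 3 * (l / 80000) + l / 80000)
        (x1' := 2 * (k * l) + C.D + 2 - (2 * (k * l) + C.D + 2 + 4 * (k * l) / 25) + 3 * k * l)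
        le_rfl (by linarith) (by linarith) le_rfl le_rfl (by linarith) ζ ω
      have e2 := Pi_LR_mono (C := C.swap) (x0 := 3 * (l / 80000) - 1)
        (x1 := 3 * (l / 80000) + 4 * (k * l) / 25)
        (y0 := 2 * (k * l) + C.D + 2) (y1 := 2 * (k * l) + C.D + 2 + l / 80000)
        (x1' := 3 * (l / 80000) - 1 + 3 * k * l)
        le_rfl (by linarith) (by linarith) le_rfl le_rfl (by rw [swap_D]; linarith) ζ ω
      have := nA ζ ω
      have h2' := (h ω).2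
      rw [swap_swap] at h2'
      linarith [(dB ω).2 _ (add_nonneg (add_nonneg (Pi_nonneg _ ζ ω) (Pi_nonneg _ ζ ω)) (nB ζ ω))
        h2']

end Pool.Agent.P.MP_dcd5d0_pr.S2
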