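import Pool.Agent.P.MP_dcd5d0_pr.S2.St

/-! Uniform linearity of the passage time to the target in a box. -/

set_option autoImplicit false

open MeasureTheory ProbabilityTheory Finset Function Filter

namespace Pool.Agent.P.MP_dcd5d0_pr.S2

open SC

open Cx

namespace UBL

/-- total weight of a finite set of edges -/
noncomputable def W (F : Finset Ed) (ω : Om) : ℝ := ∑ e ∈ F, max (ω e) 0

lemma W_tail (F : NM.Fld) (S : Finset Ed) {n a : ℝ} (hn : S.card ≤ n) (n0 : 0 < n)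
    (ha : 0 < a) : F.Pm.real {ω | 2 * (n * a) ≤ W S ω} ≤ n * (F.m2 / a ^ 100) := by
  have sub : {ω | 2 * (n * a) ≤ W S ω} ⊆ ⋃ e ∈ S, {ω : Om | a ≤ ω e} := by
    intro ω hω
    by_contra c
    simp only [Set.mem_iUnion, Set.mem_ofPred_eq, not_exists, not_le] at c hω
    have h1 : W S ω ≤ S.card • a := sum_le_card_nsmul _ _ _ fun e he => max_le (c e he).le ha.le
    rw [nsmul_eq_mul] at h1
    linarith [mul_le_mul_of_nonneg_right hn ha.le, mul_pos n0 ha]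
  refine (measureReal_mono sub (measure_ne_top _ _)).trans ((measureReal_biUnion_finset_le _ _).trans
    ((sum_le_card_nsmul _ _ _ fun e _ => F.tail e ha).trans ?_))
  rw [nsmul_eq_mul]
  exact mul_le_mul_of_nonneg_right hn (div_nonneg F.m2_nonneg (by positivity))

/-- the edges of a straight segment -/
noncomputable def seg (x : V) (i : Fin 2) (n : ℕ) : Finset Ed :=
  (range n).image fun j : ℕ => (x + Pi.single i (j : ℤ), i)

lemma seg_card (x : V) (i : Fin 2) (n : ℕ) : ((seg x i n).card : ℝ) ≤ n := by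
  exact_mod_cast card_image_le.trans (card_range n).le

lemma seg_disj (x : V) (n : ℕ) : Disjoint (seg x 0 n) (seg x 1 n) := by
  refine disjoint_left.2 fun e a b => ?_
  obtain ⟨j, _, rfl⟩ := mem_image.1 a
  obtain ⟨j', _, h⟩ := mem_image.1 b
  simpa using congrArg Prod.snd h

lemma T_seg (ω : Om) (x : V) (i : Fin 2) {k n : ℕ} (h : k ≤ n) :
    T ω x (x + Pi.single i (k : ℤ)) ≤ W (seg x i n) ω := by
  have e : ∀ j : ℕ, pos x (fun _ => (i, true)) j = x + Pi.single i (j : ℤ) := fun j => by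
    ext l; simp [pos, stp, Pi.single_apply]
  refine (T_le0 ω (e k)).trans ((tm_sub ω x _ le_rfl h).trans (le_of_eq ?_))
  unfold W seg tm
  rw [sum_image, range_eq_Ico]
  · exact sum_congr rfl fun j _ => by simp [ed, e]
  · intro a _ b _ hab
    simpa using congrFun (congrArg Prod.fst hab) i

lemma to_net (ω : Om) (z : V) {n : ℕ} (hn : 0 < n) (i : Fin 2) : ∃ (v : V) (i' : Fin 2),
    ‖(n : ℤ) • v - z‖ ≤ n ∧
      T ω z ((n : ℤ) • v) ≤ W (seg z i n) ω + W (seg ((n : ℤ) • v) i' n) ω := by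
  have n0 : (n : ℤ) ≠ 0 := by omega
  have a1 := fun j => Int.emod_nonneg (z j) n0
  have a2 := fun j => Int.emod_lt_of_pos (z j) (show (0 : ℤ) < n by omega)
  have a3 := fun j => Int.emod_add_mul_ediv (z j) n
  obtain ⟨k, hk⟩ := Int.eq_ofNat_of_zero_le (a := n - z i % n) (by linarith [a2 i])
  obtain ⟨k', hk'⟩ := Int.eq_ofNat_of_zero_le (a1 i.rev)
  have b1 : k ≤ n := by have := a1 i; omega
  have b2 : k' ≤ n := by have := a2 i.rev; omega
  refine ⟨fun j => z j / n + if j = i then 1 else 0, i.rev, ?_, ?_⟩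
  · rw [pi_norm_le_iff_of_nonneg (by positivity)]
    intro j
    rw [Int.norm_eq_abs]
    have : |((n : ℤ) • (fun j => z j / n + if j = i then 1 else 0 : V) - z) j| ≤ n := by
      have := a1 j; have := a2 j; have := a3 j
      simp only [Pi.sub_apply, Pi.smul_apply, smul_eq_mul]
      rw [abs_le]
      split_ifs <;> constructor <;> linarith
    exact_mod_cast this
  · have e : z + Pi.single i (k : ℤ)
        = (n : ℤ) • (fun j => z j / n + if j = i then 1 else 0 : V) + Pi.single i.rev (k' : ℤ) := by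
      rw [← hk, ← hk']
      ext j
      have := a3 j
      fin_cases i <;> fin_cases j <;> simp at this ⊢ <;> linarith
    have t1 := T_seg ω z i b1
    have t2 := T_seg ω ((n : ℤ) • (fun j => z j / n + if j = i then 1 else 0 : V)) i.rev b2
    rw [← e, T_symm] at t2
    exact (T_tri ω z _ _).trans (add_le_add t1 t2)

lemma nrm (C : Cx) {z : V} {b : ℝ} (h1 : |C.X z| ≤ b) (h2 : |C.Y z| ≤ b) : ‖z‖ ≤ C.D * b :=
  (C.hN z).trans (mul_le_mul_of_nonneg_left (max_le h1 h2) (by linarith [C.D1]))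

lemma not_BadT {ν : NM.Fld} {R D : ℕ} {s : ℝ} {ω : Om} (h : ω ∉ ν.BadT R D s) {z z' : V}
    (h1 : ‖z‖ ≤ R) (h2 : ‖z' - z‖ ≤ D) : ν.hh (z' - z) - s ≤ T ω z z' := by
  by_contra hc
  exact h ⟨z, z', h1, h2, not_le.1 hc⟩

lemma det (C : Cx) {S s u : ℝ} {n R : ℕ} {I : Finset V} {r ζ : V} {ω : Om} (hn : 0 < n)
    (hI : ∀ v : V, |C.X ((n : ℤ) • v)| ≤ 2 * S → |C.Y ((n : ℤ) • v)| ≤ 2 * S → (n : ℤ) • v ∈ I)
    (hI' : ∀ w ∈ I, ‖w‖ ≤ R ∧ ‖r - w‖ ≤ R) (hR : C.D * (2 * S) ≤ R) (hD : C.D * n ≤ S)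
    (h1 : ω ∉ C.BadT R R u) (h2 : ∀ z ∈ box R, ∃ i, W (seg z i n) ω < s)
    (h3 : ∀ w ∈ I, ∀ i, W (seg w i n) ω < s)
    (h4 : ∀ w ∈ I, T ω w r < C.X (r - w) + C.Y (r - w) + s)
    (h5 : ∀ w ∈ I, T ω w r + -1 * (T ω w ζ - T ω r ζ) < s) (hs0 : 0 ≤ s)
    (hs : 6 * s + u + 4 * (C.D * n) ≤ S ^ (99 / 100 : ℝ)) : C.Good S ζ ω := by
  have hD1 := C.D1
  have Dn : 0 ≤ C.D * n := by positivity
  have DS : 0 ≤ C.D * S := mul_nonneg (by linarith) (by linarith)
  have key : ∀ z : V, |C.X z| ≤ S → |C.Y z| ≤ S → ‖z‖ ≤ R ∧ ∃ w ∈ I, T ω z w ≤ 2 * s ∧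
      |C.X w - C.X z| ≤ C.D * n ∧ |C.Y w - C.Y z| ≤ C.D * n := by
    intro z z1 z2
    have hz : ‖z‖ ≤ R := by linarith [nrm C z1 z2]
    obtain ⟨i, hi⟩ := h2 z (mem_box.2 hz)
    obtain ⟨v, i', v1, v2⟩ := to_net ω z hn i
    have v3 := mul_le_mul_of_nonneg_left v1 (show 0 ≤ C.D by linarith)
    have x1 := (C.hX _).trans v3
    have y1 := (C.hY _).trans v3
    rw [map_sub] at x1 y1
    have hw := hI v (by rw [abs_le] at *; constructor <;> linarith [x1.1, x1.2, z1.1, z1.2])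
      (by rw [abs_le] at *; constructor <;> linarith [y1.1, y1.2, z2.1, z2.2])
    exact ⟨hz, _, hw, by linarith [h3 _ hw i'], x1, y1⟩
  intro z z' z1 z2 z3 z4
  obtain ⟨n1, w, hw, a1, a2, a3⟩ := key z z1 z2
  obtain ⟨_, w', hw', b1, b2, b3⟩ := key z' z3 z4
  constructor
  · have c1 := T_tri ω z w ζ
    have c2 := T_tri ω w r ζ
    have c3 := T_tri ω w' z' ζ
    rw [T_symm ω w' z'] at c3
    have c4 := h4 w hw
    have c5 := h5 w' hw'
    have c6 := not_BadT h1 (hI' w' hw').1 (hI' w' hw').2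
    have c7 := C.low (r - w')
    simp only [map_sub] at c4 c7 ⊢
    linarith [(abs_le.1 a2).1, (abs_le.1 a3).1, (abs_le.1 b2).2, (abs_le.1 b3).2]
  · have : ‖z' - z‖ ≤ C.D * (2 * S) := by
      refine nrm C ?_ ?_ <;> rw [map_sub] <;> rw [abs_le] at * <;> constructor <;>
        linarith [z1.1, z1.2, z2.1, z2.2, z3.1, z3.2, z4.1, z4.2]
    linarith [not_BadT h1 n1 (this.trans hR)]

/-- the net -/
lemma net (C : Cx) {S b : ℝ} {n : ℕ} (hn : 0 < n) (hb : C.D * (2 * S) ≤ b * n) (hb1 : 1 ≤ b) :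
    ∃ I : Finset V, (I.card : ℝ) ≤ 25 * b ^ 2 ∧ (∀ w ∈ I, |C.X w| ≤ 2 * S ∧ |C.Y w| ≤ 2 * S) ∧
      ∀ v : V, |C.X ((n : ℤ) • v)| ≤ 2 * S → |C.Y ((n : ℤ) • v)| ≤ 2 * S → (n : ℤ) • v ∈ I := by
  classical
  refine ⟨((box ⌈b⌉₊).image fun v => (n : ℤ) • v).filter
    (fun w => |C.X w| ≤ 2 * S ∧ |C.Y w| ≤ 2 * S), ?_, fun w hw => (mem_filter.1 hw).2,
    fun v v1 v2 => mem_filter.2 ⟨mem_image_of_mem _ (mem_box.2 ?_), v1, v2⟩⟩
  · refine le_trans (b := ((box ⌈b⌉₊).card : ℝ))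
      (by exact_mod_cast (card_filter_le _ _).trans card_image_le) ?_
    rw [card_box]
    have := Nat.ceil_lt_add_one (a := b) (by linarith)
    have : (2 * (⌈b⌉₊ : ℝ) + 1) ^ 2 ≤ (5 * b) ^ 2 := pow_le_pow_left₀ (by positivity) (by linarith) 2
    linarith
  · have h := (nrm C v1 v2).trans hb
    rw [norm_smul, Int.norm_natCast, mul_comm] at h
    exact (le_of_mul_le_mul_right h (by exact_mod_cast hn)).trans (Nat.le_ceil _)

/-- the two tails at a point of the net -/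
lemma pt (C : Cx) {w r : V} {R : ℕ} {s u a : ℝ} (hs : 0 < s) (hu : 0 ≤ u) (h1 : ‖w‖ ≤ R)
    (h2 : ‖r - w‖ ≤ R) (h3 : C.hh (r - w) ≤ C.X (r - w) + C.Y (r - w) + a) (h4 : a ≤ s / 2)
    (h5 : C.m1 * R * C.Pm.real (C.BadT R R u) ≤ 1) :
    C.SP (fun ζ => {ω | C.X (r - w) + C.Y (r - w) + s ≤ T ω w r} ∪
      {ω | s ≤ T ω w r + -1 * (T ω w ζ - T ω r ζ)}) ≤ (2 * (u + 1) + a) / s := by
  refine (SP_union _ _).trans ?_
  have i1 : Integrable (fun ω => T ω w r) C.Pm := C.T_int w r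
  have e1 : ∫ ω, T ω w r ∂C.Pm = C.hh (r - w) := C.int_T w r
  have a1 := Adm.of_int (T_meas w r) i1
  obtain ⟨a2, e2⟩ := SE_T (C := C) w r
  have p1 := SP_markov (a1.add (a2.smul (-1))) (fun ζ ω => by linarith [T_tri ω w r ζ]) hs
  rw [SE_add a1 (a2.smul (-1)), SE_smul a2, e2, SE_indep, e1] at p1
  have p2 := markov2 (T_meas w r) i1 (fun ω => T_nonneg ω w r) (a := C.hh (r - w) - u)
    (b := s / 2) (by linarith)
  have p3 : C.Pm.real {ω | T ω w r < C.hh (r - w) - u} ≤ C.Pm.real (C.BadT R R u) :=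
    measureReal_mono fun ω hω => ⟨w, r, h1, h2, hω⟩
  have p4 : C.hh (r - w) ≤ C.m1 * R :=
    (C.hh_le _).trans (mul_le_mul_of_nonneg_left h2 C.m1_pos.le)
  have p5 : (C.hh (r - w) - u) * C.Pm.real {ω | T ω w r < C.hh (r - w) - u} ≤ 1 :=
    le_trans (mul_le_mul (by linarith) p3 measureReal_nonneg
      (mul_nonneg C.m1_pos.le (by positivity))) h5
  have p6 : C.Pm.real {ω | C.X (r - w) + C.Y (r - w) + s ≤ T ω w r}
      ≤ C.Pm.real {ω | C.hh (r - w) - u + s / 2 ≤ T ω w r} :=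
    measureReal_mono fun ω hω => by
      simp only [Set.mem_ofPred_eq] at hω ⊢; linarith
  have p7 := mul_le_mul_of_nonneg_left p6 hs.le
  rw [SP_indep, add_div]
  refine add_le_add ?_ (p1.trans (by gcongr; linarith))
  rw [le_div_iff₀ hs]
  linarith

end UBL

open UBL

theorem ubl : St_UBL := by
  intro C
  have hD := C.D1
  have hm1 := C.m1_pos
  have hm2 := C.m2_nonneg
  have t12 : Tendsto (fun S : ℝ => 12 * S) atTop atTop := tendsto_id.const_mul_atTop (by norm_num)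
  filter_upwards [C.BadT_small (7 * C.D) (by linarith) 2,
    t12.eventually C.up, eventually_gt_atTop 0,
    (tendsto_rpow_atTop (show (0 : ℝ) < 1 / 100 by norm_num)).eventually_ge_atTop
      (20000 * C.D ^ 2 + 800 * (1 + C.m2) + 7 * C.D * C.m1)] with S bT up S0 hx
  set x := S ^ (1 / 100 : ℝ) with hxd
  have px : ∀ k : ℕ, S ^ ((k : ℝ) / 100) = x ^ k := fun k => by
    rw [hxd, ← Real.rpow_natCast, ← Real.rpow_mul S0.le]; congr 1; ring
  have eS : S = x ^ 100 := by rw [← px]; norm_num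
  have e99 : S ^ (99 / 100 : ℝ) = x ^ 99 := by rw [← px]; norm_num
  have e51 : S ^ th = x ^ 51 := by rw [← px]; unfold th; norm_num
  have e76 : (12 * S) ^ (19 / 25 : ℝ) ≤ 12 * x ^ 76 := by
    rw [Real.mul_rpow (by norm_num) S0.le, ← px]
    refine mul_le_mul ?_ (le_of_eq (by norm_num)) (by positivity) (by norm_num)
    conv_rhs => rw [← Real.rpow_one 12]
    exact Real.rpow_le_rpow_of_exponent_le (by norm_num) (by norm_num)
  have D2 : C.D ≤ C.D ^ 2 := le_self_pow₀ hD (by norm_num)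
  have q1 : 0 ≤ 7 * C.D * C.m1 := by positivity
  have x1 : 1 ≤ x := by linarith
  have x0 : 0 < x := by linarith
  have e40 : 1 / x ^ 3 ≤ S ^ (-(1 / 40) : ℝ) := by
    rw [← px, Real.rpow_neg S0.le, one_div]
    refine inv_anti₀ (by positivity) (Real.rpow_le_rpow_of_exponent_le ?_ (by norm_num))
    rw [eS]; exact one_le_pow₀ x1
  rw [e51] at bT
  clear_value x
  have pw : ∀ a b : ℕ, a ≤ b → x ^ a ≤ x ^ b := fun a b h => pow_le_pow_right₀ x1 h
  have pw1 : ∀ a : ℕ, 1 ≤ x ^ a := fun a => one_le_pow₀ x1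
  have ab : ∀ (y : ℝ) (a b : ℕ), y ≤ x → a + 1 ≤ b → y * x ^ a ≤ x ^ b := by
    intro y a b h1 h2
    refine le_trans ?_ (pw _ _ h2)
    rw [pow_succ, mul_comm]
    exact mul_le_mul_of_nonneg_left h1 (by positivity)
  have xS : x ≤ S := by rw [eS]; exact le_self_pow₀ x1 (by norm_num)
  set n := ⌈x ^ 95⌉₊ with hn
  have n1 : x ^ 95 ≤ n := Nat.le_ceil _
  have n2 : (n : ℝ) ≤ 2 * x ^ 95 := by
    linarith [Nat.ceil_lt_add_one (a := x ^ 95) (by positivity), pw1 95]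
  have n0 : 0 < n := Nat.ceil_pos.2 (by positivity)
  have n3 : C.D * n ≤ 2 * (C.D * x ^ 95) := by
    have := mul_le_mul_of_nonneg_left n2 (show 0 ≤ C.D by linarith)
    linarith
  have n4 := ab (100 * C.D) 95 99 (by linarith) (by norm_num)
  have n5 : x ^ 95 ≤ C.D * x ^ 95 := le_mul_of_one_le_left (by positivity) hD
  have DS : 1 ≤ C.D * S := one_le_mul_of_one_le_of_one_le hD (by linarith)
  set R := ⌈C.D * (6 * S)⌉₊ with hR
  have R1 : C.D * (6 * S) ≤ R := Nat.le_ceil _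
  have R2 : (R : ℝ) ≤ 7 * C.D * S := by
    linarith [Nat.ceil_lt_add_one (a := C.D * (6 * S)) (by positivity)]
  have R3 : 7 * C.D * S ≤ S ^ 2 := by
    rw [pow_two]; exact mul_le_mul_of_nonneg_right (by linarith) S0.le
  have b1 : C.Pm.real (C.BadT R R (x ^ 51)) * S ^ 2 ≤ 1 := bT R R (R2.trans R3) R2
  have b0 := measureReal_nonneg (μ := C.Pm) (s := C.BadT R R (x ^ 51))
  have b2 : C.m1 * R * C.Pm.real (C.BadT R R (x ^ 51)) ≤ 1 := by
    refine le_trans ?_ b1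
    rw [mul_comm]
    refine mul_le_mul_of_nonneg_left ?_ b0
    have c1 := mul_le_mul_of_nonneg_left R2 hm1.le
    have c2 : 7 * C.D * C.m1 * S ≤ S * S := mul_le_mul_of_nonneg_right (by linarith) S0.le
    linarith
  have b3 : C.Pm.real (C.BadT R R (x ^ 51)) ≤ 1 / x ^ 4 := by
    rw [le_div_iff₀ (by positivity)]
    refine le_trans (mul_le_mul_of_nonneg_left ?_ b0) b1
    rw [eS, ← pow_mul]; exact pw _ _ (by norm_num)
  have tl' : ∀ y i, C.Pm.real {ω | x ^ 99 / 10 ≤ W (seg y i n) ω}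
      ≤ 1 / x ^ 102 * (1 / x ^ 102) := by
    intro y i
    have h := W_tail C.toFld (seg y i n) ((seg_card y i n).trans n2) (a := x ^ 4 / 40)
      (by positivity) (by positivity)
    rw [show 2 * (2 * x ^ 95 * (x ^ 4 / 40)) = x ^ 99 / 10 by ring] at h
    refine le_trans h ?_
    have c1 : (80 : ℝ) ^ 100 ≤ x ^ 100 := pow_le_pow_left₀ (by norm_num) (by linarith) _
    have c2 : C.m2 * (2 * 40 ^ 100) ≤ x * x ^ 100 :=
      mul_le_mul (by linarith) (le_trans (by norm_num) c1) (by positivity) x0.le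
    calc _ = C.m2 * (2 * 40 ^ 100) / x ^ 305 := by field_simp
      _ ≤ x * x ^ 100 / x ^ 305 := by gcongr
      _ = _ := by field_simp
  have tl : ∀ y i, C.Pm.real {ω | x ^ 99 / 10 ≤ W (seg y i n) ω} ≤ 1 / x ^ 102 := fun y i =>
    (tl' y i).trans (mul_le_of_le_one_right (by positivity)
      ((div_le_one (by positivity)).2 (pw1 _)))
  obtain ⟨I, I1, I2, I3⟩ := net C (S := S) (b := 2 * C.D * x ^ 5) n0 (by
    have := mul_le_mul_of_nonneg_left n1 (show 0 ≤ 2 * C.D * x ^ 5 by positivity)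
    rw [eS]; linarith) (one_le_mul_of_one_le_of_one_le (by linarith) (pw1 5))
  obtain ⟨r, r1, r2⟩ := C.near (3 * S) (3 * S)
  have I4 : ∀ w ∈ I, (‖w‖ ≤ R ∧ ‖r - w‖ ≤ R) ∧
      C.hh (r - w) ≤ C.X (r - w) + C.Y (r - w) + 12 * x ^ 76 := by
    intro w hw
    obtain ⟨w1, w2⟩ := I2 w hw
    have w3 := nrm C w1 w2
    rw [abs_le] at w1 w2 r1 r2
    have c1 : 0 ≤ C.X (r - w) ∧ C.X (r - w) ≤ 6 * S := by
      rw [map_sub]; constructor <;> linarith [w1.1, w1.2, r1.1, r1.2]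
    have c2 : 0 ≤ C.Y (r - w) ∧ C.Y (r - w) ≤ 6 * S := by
      rw [map_sub]; constructor <;> linarith [w2.1, w2.2, r2.1, r2.2]
    refine ⟨⟨by linarith, (nrm C ?_ ?_).trans R1⟩, ?_⟩
    · rw [abs_of_nonneg c1.1]; exact c1.2
    · rw [abs_of_nonneg c2.1]; exact c2.2
    · linarith [up _ c1.1 c2.1 (by linarith [c1.2, c2.2])]
  have s0 : 0 < x ^ 99 / 10 := by positivity
  have main := SP_le_add (C := C) (A := fun ζ => {ω | ¬ C.Good S ζ ω})
    (B := fun _ => C.BadT R R (x ^ 51) ∪ ⋃ z ∈ box R, ({ω | x ^ 99 / 10 ≤ W (seg z 0 n) ω} ∩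
      {ω | x ^ 99 / 10 ≤ W (seg z 1 n) ω}))
    (B' := fun ζ => {ω | ∃ w ∈ I, ω ∈ ({ω | x ^ 99 / 10 ≤ W (seg w 0 n) ω} ∪
      {ω | x ^ 99 / 10 ≤ W (seg w 1 n) ω}) ∪
      ({ω | C.X (r - w) + C.Y (r - w) + x ^ 99 / 10 ≤ T ω w r} ∪
        {ω | x ^ 99 / 10 ≤ T ω w r + -1 * (T ω w ζ - T ω r ζ)})})
    (Far.of_forall fun ζ ω hω => by
      by_contra hc
      simp only [Set.mem_union, Set.mem_iUnion, Set.mem_inter_iff, Set.mem_ofPred_eq, not_or,
        not_exists, not_and, not_le] at hc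
      obtain ⟨⟨c1, c2⟩, c3⟩ := hc
      refine hω (det C n0 I3 (fun w hw => (I4 w hw).1) (by linarith)
        (by rw [eS]; linarith [pw 99 100 (by norm_num)]) c1 (fun z hz => ?_) (fun w hw i => ?_)
        (fun w hw => (c3 w hw).2.1) (fun w hw => (c3 w hw).2.2) s0.le
        (by rw [e99]; linarith [pw 51 95 (by norm_num)]))
      · by_cases h : x ^ 99 / 10 ≤ W (seg z 0 n) ω
        · exact ⟨1, c2 z hz h⟩
        · exact ⟨0, not_le.1 h⟩
      · fin_cases i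
        · exact (c3 w hw).1.1
        · exact (c3 w hw).1.2)
  refine main.trans (le_trans ?_ e40)
  rw [SP_indep]
  have f1 : C.Pm.real (⋃ z ∈ box R, ({ω | x ^ 99 / 10 ≤ W (seg z 0 n) ω} ∩
      {ω | x ^ 99 / 10 ≤ W (seg z 1 n) ω})) ≤ 225 * C.D ^ 2 / x ^ 4 := by
    refine (measureReal_biUnion_finset_le _ _).trans
      ((sum_le_card_nsmul _ _ (1 / x ^ 102 * (1 / x ^ 102)) fun z _ => ?_).trans ?_)
    · exact (measureReal_mono Set.inter_subset_left).trans (tl' z 0)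
    · rw [nsmul_eq_mul, card_box]
      have : (2 * (R : ℝ) + 1) ^ 2 ≤ (15 * C.D * x ^ 100) ^ 2 :=
        pow_le_pow_left₀ (by positivity) (by rw [← eS]; linarith) 2
      refine (mul_le_mul_of_nonneg_right this (by positivity)).trans (le_of_eq ?_)
      field_simp
      norm_num
  have f2 := (SP_biUnion (C := C) I fun w ζ => ({ω | x ^ 99 / 10 ≤ W (seg w 0 n) ω} ∪
      {ω | x ^ 99 / 10 ≤ W (seg w 1 n) ω}) ∪
      ({ω | C.X (r - w) + C.Y (r - w) + x ^ 99 / 10 ≤ T ω w r} ∪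
        {ω | x ^ 99 / 10 ≤ T ω w r + -1 * (T ω w ζ - T ω r ζ)})).trans
    (sum_le_card_nsmul _ _ (162 / x ^ 23) fun w hw => by
      refine (SP_union _ _).trans ?_
      have g1 := pt C s0 (by positivity) (I4 w hw).1.1 (I4 w hw).1.2 (I4 w hw).2
        (by linarith [ab 240 76 99 (by linarith) (by norm_num)]) b2
      have g2 : (2 * (x ^ 51 + 1) + 12 * x ^ 76) / (x ^ 99 / 10) ≤ 160 / x ^ 23 := by
        rw [div_le_div_iff₀ s0 (by positivity)]
        have : (2 * (x ^ 51 + 1) + 12 * x ^ 76) * x ^ 23 ≤ 16 * x ^ 76 * x ^ 23 :=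
          mul_le_mul_of_nonneg_right (by linarith [pw 51 76 (by norm_num), pw1 76]) (by positivity)
        linarith
      have g3 : 1 / x ^ 102 ≤ 1 / x ^ 23 :=
        one_div_le_one_div_of_le (by positivity) (pw _ _ (by norm_num))
      have g4 := measureReal_union_le (μ := C.Pm) {ω | x ^ 99 / 10 ≤ W (seg w 0 n) ω}
        {ω | x ^ 99 / 10 ≤ W (seg w 1 n) ω}
      have g5 : 162 / x ^ 23 = 1 / x ^ 23 + 1 / x ^ 23 + 160 / x ^ 23 := by ring
      rw [SP_indep]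
      linarith [tl w 0, tl w 1])
  rw [nsmul_eq_mul] at f2
  have f3 : (I.card : ℝ) * (162 / x ^ 23) ≤ 16200 * C.D ^ 2 / x ^ 4 := by
    refine (mul_le_mul_of_nonneg_right I1 (by positivity)).trans ?_
    have : 25 * (2 * C.D * x ^ 5) ^ 2 * (162 / x ^ 23) = 16200 * C.D ^ 2 / x ^ 13 := by
      field_simp
      norm_num
    rw [this]
    exact div_le_div_of_nonneg_left (by positivity) (by positivity) (pw _ _ (by norm_num))
  have f4 : 1 / x ^ 4 + 225 * C.D ^ 2 / x ^ 4 + 16200 * C.D ^ 2 / x ^ 4 ≤ 1 / x ^ 3 := by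
    rw [← add_div, ← add_div, div_le_div_iff₀ (by positivity) (by positivity), one_mul]
    exact ab _ 3 4 (by linarith) le_rfl
  linarith [measureReal_union_le (μ := C.Pm) (C.BadT R R (x ^ 51))
    (⋃ z ∈ box R, ({ω | x ^ 99 / 10 ≤ W (seg z 0 n) ω} ∩ {ω | x ^ 99 / 10 ≤ W (seg z 1 n) ω}))]

end Pool.Agent.P.MP_dcd5d0_pr.S2
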