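import Pool.Agent.P.MP_dcd5d0_pr.S2.St

/-! The upper part of the window price. -/

set_option autoImplicit false

open MeasureTheory ProbabilityTheory Finset Function Filter

namespace Pool.Agent.P.MP_dcd5d0_pr.S2

open SC

open Cx

namespace Up

/-- deterministic layer cake -/
lemma layer (t : ℕ → ℝ) (ht : ∀ m, 0 ≤ t m) (a b : ℝ) {m0 m1 : ℕ} (h : m0 ≤ m1) :
    max (min a b - t m0) 0 ≤
      ∑ m ∈ Ico m0 m1, (if t m ≤ a ∧ t m ≤ b then t (m + 1) else 0)
        + max a 0 * (if t m1 ≤ b then 1 else 0) := by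
  have key : max (min a b - t m0) 0 ≤
      ∑ m ∈ Ico m0 m1, (if t m ≤ a ∧ t m ≤ b then t (m + 1) else 0)
        + (if t m1 ≤ min a b then min a b else 0) := by
    induction m1, h using Nat.le_induction with
    | base =>
      have := ht m0
      simp only [Ico_self, sum_empty, zero_add]
      split_ifs with h1
      · exact max_le (by linarith) (by linarith)
      · exact max_le (by linarith [not_le.1 h1]) le_rfl
    | succ n hn ih =>
      rw [sum_Ico_succ_top hn]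
      refine ih.trans ?_
      have h1 := ht n
      have h2 := ht (n + 1)
      simp only [← le_min_iff]
      split_ifs with h3 h4 h4
      · linarith
      · linarith [not_le.1 h4]
      · linarith
      · linarith
  refine key.trans (add_le_add le_rfl ?_)
  split_ifs with h1 h2 h2
  · rw [mul_one]; exact (min_le_left _ _).trans (le_max_left _ _)
  · exact absurd (h1.trans (min_le_right _ _)) h2
  · rw [mul_one]; exact le_max_right _ _
  · simp

/-- the minimum of two independent variables -/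
lemma key {Ω : Type} [MeasurableSpace Ω] (P : Measure Ω) [IsProbabilityMeasure P]
    {A B : Ω → ℝ} (mA : Measurable A) (mB : Measurable B) (ind : IndepFun A B P)
    (hA : Integrable (fun ω => max (A ω) 0) P) (t : ℕ → ℝ) (ht : ∀ m, 0 ≤ t m) {m0 m1 : ℕ}
    (h : m0 ≤ m1) :
    ∫ ω, max (min (A ω) (B ω) - t m0) 0 ∂P ≤
      ∑ m ∈ Ico m0 m1, t (m + 1) * (P.real {ω | t m ≤ A ω} * P.real {ω | t m ≤ B ω})
        + (∫ ω, max (A ω) 0 ∂P) * P.real {ω | t m1 ≤ B ω} := by
  have sA : ∀ s : ℝ, MeasurableSet {ω | s ≤ A ω} := fun s => measurableSet_le measurable_const mA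
  have sB : ∀ s : ℝ, MeasurableSet {ω | s ≤ B ω} := fun s => measurableSet_le measurable_const mB
  have e1 : ∀ m, (fun ω => if t m ≤ A ω ∧ t m ≤ B ω then t (m + 1) else 0) =
      ({ω | t m ≤ A ω} ∩ {ω | t m ≤ B ω}).indicator (fun _ => t (m + 1)) := fun m => by
    funext ω; simp [Set.indicator]
  have e2 : (fun ω => if t m1 ≤ B ω then (1 : ℝ) else 0) =
      {ω | t m1 ≤ B ω}.indicator (fun _ => 1) := by
    funext ω; simp [Set.indicator]
  have i1 : ∀ m, Integrable (fun ω => if t m ≤ A ω ∧ t m ≤ B ω then t (m + 1) else 0) P :=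
    fun m => by rw [e1]; exact (integrable_const _).indicator ((sA _).inter (sB _))
  have i2 : Integrable (fun ω => if t m1 ≤ B ω then (1 : ℝ) else 0) P := by
    rw [e2]; exact (integrable_const _).indicator (sB _)
  have ind2 : IndepFun (fun ω => max (A ω) 0) (fun ω => if t m1 ≤ B ω then (1 : ℝ) else 0) P :=
    ind.comp (φ := fun x => max x 0) (ψ := fun x => if t m1 ≤ x then (1 : ℝ) else 0)
      (measurable_id.max measurable_const)
      (Measurable.ite measurableSet_Ici measurable_const measurable_const)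
  have i3 : Integrable (fun ω => max (A ω) 0 * (if t m1 ≤ B ω then (1 : ℝ) else 0)) P :=
    ind2.integrable_mul hA i2
  have i4 := integrable_finsetSum (Ico m0 m1) fun m _ => i1 m
  refine (integral_mono_of_nonneg (Eventually.of_forall fun ω => le_max_right _ _) (i4.add i3)
    (Eventually.of_forall fun ω => layer t ht (A ω) (B ω) h)).trans (le_of_eq ?_)
  simp only [Pi.add_apply]
  rw [integral_add i4 i3, integral_finsetSum _ fun m _ => i1 m]
  congr 1
  · refine sum_congr rfl fun m _ => ?_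
    rw [e1, integral_indicator_const _ ((sA _).inter (sB _)), smul_eq_mul, mul_comm]
    congr 1
    have := ind.measure_inter_preimage_eq_mul (Set.Ici (t m)) (Set.Ici (t m)) measurableSet_Ici
      measurableSet_Ici
    simp only [Measure.real, ← ENNReal.toReal_mul]
    exact congrArg ENNReal.toReal this
  · rw [ind2.integral_fun_mul_eq_mul_integral hA.aestronglyMeasurable i2.aestronglyMeasurable, e2,
      integral_indicator_const _ (sB _), smul_eq_mul, mul_one]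

lemma sum_pos_part {T : ℝ} (hT : 0 ≤ T) (x : ℕ → ℝ) (hx : ∀ s, 0 ≤ x s) (n : ℕ) :
    ∑ s ∈ range n, max (x s - T) 0 ≤ max (∑ s ∈ range n, x s - T) 0 := by
  induction n with
  | zero => simp
  | succ n ih =>
    rw [sum_range_succ, sum_range_succ]
    have h0 : 0 ≤ ∑ s ∈ range n, x s := sum_nonneg fun s _ => hx s
    have h1 := hx n
    refine (add_le_add ih le_rfl).trans ?_
    rcases le_total (∑ s ∈ range n, x s - T) 0 with a | a <;>
      rcases le_total (x n - T) 0 with b | b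
    · rw [max_eq_right a, max_eq_right b, add_zero]; exact le_max_right _ _
    · rw [max_eq_right a, max_eq_left b]; exact le_max_of_le_left (by linarith)
    · rw [max_eq_left a, max_eq_right b]; exact le_max_of_le_left (by linarith)
    · rw [max_eq_left a, max_eq_left b]; exact le_max_of_le_left (by linarith)

lemma exists_k : ∃ k : ℕ, 1 ≤ k ∧ 4 * (4 * k : ℝ) ^ (4 / 5 : ℝ) ≤ k / 100 := by
  refine ⟨400 * 1600 ^ 4, by norm_num, ?_⟩
  have e : (4 * ((400 * 1600 ^ 4 : ℕ) : ℝ)) = (1600 : ℝ) ^ (5 : ℝ) := by norm_num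
  rw [e, ← Real.rpow_mul (by norm_num)]
  norm_num

lemma exists_m0 {ε : ℝ} (hε : 0 < ε) : ∃ m0 : ℕ, 1 ≤ m0 ∧ ∀ m1,
    ∑ m ∈ Ico m0 m1, (m : ℝ) ^ 6 / 2 ^ m ≤ ε := by
  have hs : Summable fun m : ℕ => (m : ℝ) ^ 6 * (1 / 2) ^ m :=
    summable_pow_mul_geometric_of_norm_lt_one 6 (by norm_num)
  obtain ⟨s, h⟩ := hs.vanishing (Iio_mem_nhds hε)
  refine ⟨s.sup id + 1, by omega, fun m1 => ?_⟩
  have := h (Ico (s.sup id + 1) m1) (disjoint_left.2 fun m a b => by
    have := le_sup (f := id) b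
    have := (mem_Ico.1 a).1
    simp only [id] at *; omega)
  refine le_of_eq_of_le (sum_congr rfl fun m _ => ?_) (le_of_lt this)
  rw [one_div, inv_pow, div_eq_mul_inv]

lemma ev_log (j0 : ℕ) {ε : ℝ} (hε : 0 < ε) : ∀ᶠ l : ℕ in atTop, ∃ j : ℕ, j0 ≤ j ∧
    (2 : ℝ) ^ j ≤ l ∧ (l : ℝ) ≤ 2 * 2 ^ j ∧ (j : ℝ) ^ 3 / 2 ^ j ≤ ε := by
  have h1 := (tendsto_pow_const_div_const_pow_of_one_lt 3 (one_lt_two (α := ℝ))).eventually
    (ge_mem_nhds hε)
  obtain ⟨j1, hj⟩ := eventually_atTop.1 h1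
  filter_upwards [eventually_ge_atTop (2 ^ (max j0 j1))] with l hl
  have hl0 : l ≠ 0 := by
    have : 0 < 2 ^ (max j0 j1) := by positivity
    omega
  have h2 : max j0 j1 ≤ Nat.log 2 l := Nat.le_log_of_pow_le (by norm_num) hl
  refine ⟨Nat.log 2 l, (le_max_left _ _).trans h2, ?_, ?_, hj _ ((le_max_right _ _).trans h2)⟩
  · exact_mod_cast Nat.pow_log_le_self 2 hl0
  · have := (Nat.lt_pow_succ_log_self (b := 2) (by norm_num) l).le
    rw [pow_succ'] at this
    exact_mod_cast this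

end Up

open Up in
theorem up (hA : St_AM) (hT : St_TL) (hTa : St_Tail) (hC : St_Crude) (_hM : St_Mle) : St_Up := by
  intro C c hc
  obtain ⟨k, hk1, hk⟩ := exists_k
  have hk1' : (1 : ℝ) ≤ k := by exact_mod_cast hk1
  obtain ⟨K1, hK1, hT1⟩ := hTa C c k hc hk1
  obtain ⟨K2, hK2, hT2⟩ := hTa C.swap c k hc hk1
  obtain ⟨Q1, hQ1, hC1⟩ := hC C
  obtain ⟨Q2, hQ2, hC2⟩ := hC C.swap
  set K := K1 + K2 + k with hK
  have hK0 : 0 < K := by positivity
  set B := (Q1 + Q2) * (4 * k) / c + k with hB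
  have hB0 : 0 < B := by positivity
  obtain ⟨m0, hm0, hsum⟩ := exists_m0 (ε := 1 / (1200 * K ^ 2)) (by positivity)
  refine ⟨3 * 2 ^ m0, by positivity, ?_⟩
  filter_upwards [hA C k hk1, hT C k hk1, hT1, hT2,
    ev_log m0 (ε := 1 / (3200 * B * K)) (by positivity),
    (tendsto_natCast_atTop_atTop (R := ℝ)).eventually_ge_atTop (320000 * C.D)]
    with l hAM hTL t1 t2 hlog hl hE
  obtain ⟨z, hz⟩ := hAM
  obtain ⟨DA, DB, E, mA, mB, ind, aE, E0, sE, hP, hD⟩ := hTL
  obtain ⟨j, hj0, hj1, hj2, hj3⟩ := hlog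
  have hD1 := C.D1
  have hl1 : (1 : ℝ) ≤ l := by linarith
  set μ := C.M l with hμ
  have hμ0 : 0 < μ := hc.trans_le hE.1
  have hE' : Env C.swap c l := by simpa only [Env, swap_M] using hE
  replace t1 := t1 hE
  replace t2 := t2 hE'
  simp only [swap_M, swap_SP] at t2
  have sE' : C.SE E ≤ k * μ / 100 := by
    have h1 := hE.2.1 (4 * k * l) (by nlinarith)
    have e : ((4 * k * l : ℕ) : ℝ) / l = 4 * k := by push_cast; field_simp
    rw [e] at h1
    nlinarith
  have kl : (0 : ℝ) ≤ 3 * k * l := by positivity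
  have ne1 : ∀ x0 y0 : ℝ, (C.LR x0 (x0 + 3 * k * l) y0 (y0 + l / 80000)).NE := fun x0 y0 =>
    LR_ne (by linarith) (by linarith)
  have ne2 : ∀ x0 y0 : ℝ, (C.swap.LR x0 (x0 + 3 * k * l) y0 (y0 + l / 80000)).NE := fun x0 y0 =>
    LR_ne (by linarith) (by simp only [swap_D]; linarith)
  -- tails of the two options
  have tail : ∀ Dv : Om → ℝ, Dv = DA ∨ Dv = DB → ∀ m : ℕ, 1 ≤ m → (2 : ℝ) ^ m ≤ (l : ℝ) ^ 3 →
      C.Pm.real {ω | 3 * 2 ^ m * μ ≤ Dv ω} ≤ K * m ^ 3 / 2 ^ m := by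
    intro Dv h m hm hm'
    obtain ⟨x0, y0, x1, y1, hF⟩ := hD Dv h
    have a1 := t1 m x0 y0 hm hm'
    have a2 := t2 m x1 y1 hm hm'
    have a3 := SP_markov aE E0 (t := 2 ^ m * μ) (by positivity)
    have a4 : C.SE E / (2 ^ m * μ) ≤ k * m ^ 3 / 2 ^ m := by
      have : (1 : ℝ) ≤ (m : ℝ) ^ 3 := one_le_pow₀ (by exact_mod_cast hm)
      rw [div_le_div_iff₀ (by positivity) (by positivity)]
      calc C.SE E * 2 ^ m ≤ (k * 1 * μ) * 2 ^ m := by
            gcongr; nlinarith [mul_pos (zero_lt_one.trans_le hk1') hμ0]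
        _ ≤ (k * m ^ 3 * μ) * 2 ^ m := by gcongr
        _ = _ := by ring
    rw [← SP_indep]
    have b1 := SP_le_add (C := C) (A := fun _ => {ω | 3 * 2 ^ m * μ ≤ Dv ω})
      (B := fun ζ => {ω | 2 ^ m * μ ≤ Pi (C.LR x0 (x0 + 3 * k * l) y0 (y0 + l / 80000)) ζ ω} ∪
        {ω | 2 ^ m * μ ≤ Pi (C.swap.LR x1 (x1 + 3 * k * l) y1 (y1 + l / 80000)) ζ ω})
      (B' := fun ζ => {ω | 2 ^ m * μ ≤ E ζ ω}) (hF.mono fun ζ h ω hω => by
        have := h ω
        simp only [Set.mem_union, Set.mem_ofPred_eq] at hω ⊢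
        by_contra hn
        push Not at hn
        linarith [hn.1.1, hn.1.2, hn.2])
    have b2 := SP_union (C := C)
      (fun ζ => {ω | 2 ^ m * μ ≤ Pi (C.LR x0 (x0 + 3 * k * l) y0 (y0 + l / 80000)) ζ ω})
      (fun ζ => {ω | 2 ^ m * μ ≤ Pi (C.swap.LR x1 (x1 + 3 * k * l) y1 (y1 + l / 80000)) ζ ω})
    have e : K * m ^ 3 / 2 ^ m = K1 * m ^ 3 / 2 ^ m + K2 * m ^ 3 / 2 ^ m + k * m ^ 3 / 2 ^ m := by
      rw [hK]; ring
    linarith
  -- the positive part of the first option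
  obtain ⟨x0, y0, x1, y1, hF⟩ := hD DA (Or.inl rfl)
  have aS := ((Adm_Pi (C := C) (ne1 x0 y0)).add (Adm_Pi (C := C) (ne2 x1 y1))).add aE
  have hF' := hF.mono (q := fun ζ => ∀ ω, max (DA ω) 0 ≤
      Pi (C.LR x0 (x0 + 3 * k * l) y0 (y0 + l / 80000)) ζ ω
        + Pi (C.swap.LR x1 (x1 + 3 * k * l) y1 (y1 + l / 80000)) ζ ω + E ζ ω) fun ζ h ω =>
    max_le (h ω) (add_nonneg (add_nonneg (Pi_nonneg _ _ _) (Pi_nonneg _ _ _)) (E0 _ _))
  have mA' : Measurable fun ω => max (DA ω) 0 := mA.max measurable_const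
  have iA : Integrable (fun ω => max (DA ω) 0) C.Pm := by
    obtain ⟨ζ, hζ⟩ := hF'.exists
    refine (aS.int ζ).mono' mA'.aestronglyMeasurable (Eventually.of_forall fun ω => ?_)
    rw [Real.norm_eq_abs, abs_of_nonneg (le_max_right _ _)]
    exact hζ ω
  have eA : ∫ ω, max (DA ω) 0 ∂C.Pm ≤ B * l * μ := by
    rw [← SE_indep]
    refine (SE_mono (Adm.of_int mA' iA) aS hF').trans ?_
    rw [SE_add ((Adm_Pi (ne1 x0 y0)).add (Adm_Pi (ne2 x1 y1))) aE,
      SE_add (Adm_Pi (ne1 x0 y0)) (Adm_Pi (ne2 x1 y1))]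
    have c1 := hC1 x0 (x0 + 3 * k * l) y0 (y0 + l / 80000) (by linarith) (by linarith)
    have c2 := hC2 x1 (x1 + 3 * k * l) y1 (y1 + l / 80000) (by linarith)
      (by simp only [swap_D]; linarith)
    rw [swap_SE] at c2
    have h1 : (1 : ℝ) ≤ k * l := by nlinarith
    have c3 : (Q1 + Q2) * (3 * k * l + 1) ≤ (Q1 + Q2) * (4 * k) / c * l * μ := by
      have : (1 : ℝ) ≤ μ / c := (one_le_div hc).2 hE.1
      calc (Q1 + Q2) * (3 * k * l + 1) ≤ (Q1 + Q2) * (4 * k * l) * 1 := by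
            rw [mul_one]; gcongr; linarith
        _ ≤ (Q1 + Q2) * (4 * k * l) * (μ / c) := by gcongr
        _ = _ := by ring
    have c4 : k * μ / 100 ≤ k * l * μ := by
      have : 0 ≤ k * μ := by positivity
      nlinarith
    have e : B * l * μ = (Q1 + Q2) * (4 * k) / c * l * μ + k * l * μ := by rw [hB]; ring
    simp only [add_sub_cancel_left] at c1 c2
    change C.SE (Pi _) + C.SE (Pi _) + C.SE E ≤ _
    nlinarith
  -- the minimum of the two options
  have pw : ∀ m, m ≤ 2 * j → (2 : ℝ) ^ m ≤ (l : ℝ) ^ 3 := fun m hm =>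
    calc (2 : ℝ) ^ m ≤ 2 ^ (j * 3) := pow_le_pow_right₀ (by norm_num) (by omega)
      _ = (2 ^ j) ^ 3 := pow_mul _ _ _
      _ ≤ _ := by gcongr
  have kk := key C.Pm mA mB ind iA (fun m => 3 * 2 ^ m * μ) (fun m => by positivity)
    (m0 := m0) (m1 := 2 * j) (by omega)
  have s1 : ∑ m ∈ Ico m0 (2 * j), 3 * 2 ^ (m + 1) * μ *
      (C.Pm.real {ω | 3 * 2 ^ m * μ ≤ DA ω} * C.Pm.real {ω | 3 * 2 ^ m * μ ≤ DB ω}) ≤ μ / 200 := by
    calc _ ≤ ∑ m ∈ Ico m0 (2 * j), 6 * K ^ 2 * μ * ((m : ℝ) ^ 6 / 2 ^ m) := by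
          refine sum_le_sum fun m hm => ?_
          obtain ⟨a, b⟩ := mem_Ico.1 hm
          have u1 := tail DA (Or.inl rfl) m (by omega) (pw m b.le)
          have u2 := tail DB (Or.inr rfl) m (by omega) (pw m b.le)
          calc _ ≤ 3 * 2 ^ (m + 1) * μ * (K * m ^ 3 / 2 ^ m * (K * m ^ 3 / 2 ^ m)) := by gcongr
            _ = _ := by field_simp; ring
      _ = 6 * K ^ 2 * μ * ∑ m ∈ Ico m0 (2 * j), (m : ℝ) ^ 6 / 2 ^ m := by rw [mul_sum]
      _ ≤ 6 * K ^ 2 * μ * (1 / (1200 * K ^ 2)) := by gcongr; exact hsum _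
      _ = _ := by field_simp; ring
  have s2 : (∫ ω, max (DA ω) 0 ∂C.Pm) * C.Pm.real {ω | 3 * 2 ^ (2 * j) * μ ≤ DB ω} ≤ μ / 200 := by
    have u2 := tail DB (Or.inr rfl) (2 * j) (by omega) (pw _ le_rfl)
    calc _ ≤ B * l * μ * (K * ((2 * j : ℕ) : ℝ) ^ 3 / 2 ^ (2 * j)) := by gcongr
      _ ≤ B * (2 * 2 ^ j) * μ * (K * ((2 * j : ℕ) : ℝ) ^ 3 / 2 ^ (2 * j)) := by gcongr
      _ = 16 * B * K * μ * ((j : ℝ) ^ 3 / 2 ^ j) := by
          push_cast; rw [two_mul j, pow_add]; field_simp; ring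
      _ ≤ 16 * B * K * μ * (1 / (3200 * B * K)) := by gcongr
      _ = _ := by field_simp; ring
  replace kk : ∫ ω, max (min (DA ω) (DB ω) - 3 * 2 ^ m0 * μ) 0 ∂C.Pm ≤ μ / 100 := by
    linarith
  -- amortisation
  set T := 3 * 2 ^ m0 * μ with hTdef
  have hT0 : 0 ≤ T := by positivity
  have neW : (C.win l).NE := LR_ne (by positivity) (by linarith)
  have mG : Measurable fun x : ℝ => max (x - T) 0 :=
    (measurable_id.sub measurable_const).max measurable_const
  have bG : ∀ x : ℝ, |max (x - T) 0| ≤ |x| + 0 := fun x => by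
    rw [abs_of_nonneg (le_max_right _ _), add_zero]
    exact max_le (by linarith [le_abs_self x]) (abs_nonneg x)
  have aW : ∀ s, C.Adm fun ζ ω => max (Pi ((C.win l).shift (z s)) ζ ω - T) 0 := fun s =>
    (Adm_Pi (neW.shift (z s))).comp mG 0 bG
  have mM : Measurable fun ω => max (min (DA ω) (DB ω) - T) 0 := mG.comp (mA.min mB)
  have iM : Integrable (fun ω => max (min (DA ω) (DB ω) - T) 0) C.Pm := by
    refine iA.mono' mM.aestronglyMeasurable (Eventually.of_forall fun ω => ?_)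
    rw [Real.norm_eq_abs, abs_of_nonneg (le_max_right _ _)]
    exact max_le_max (by linarith [min_le_left (DA ω) (DB ω)]) le_rfl
  have fin := SE_mono (Adm.sum (range k) fun s _ => aW s) ((Adm.of_int mM iM).add aE)
    (hP.mono fun ζ h ω => by
      refine (sum_pos_part hT0 _ (fun s => Pi_nonneg _ _ _) k).trans (max_le ?_ ?_)
      · linarith [hz ζ ω, h ω, le_max_left (min (DA ω) (DB ω) - T) 0]
      · exact add_nonneg (le_max_right _ _) (E0 _ _))
  rw [SE_sum _ fun s _ => aW s, SE_add (Adm.of_int mM iM) aE, SE_indep,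
    sum_congr rfl fun s _ => SE_Pi_shift neW mG 0 bG (z s), sum_const, card_range,
    nsmul_eq_mul] at fin
  refine le_of_mul_le_mul_left (a := (k : ℝ)) ?_ (by linarith)
  have : μ ≤ k * μ := le_mul_of_one_le_left hμ0.le hk1'
  change (k : ℝ) * C.SE (fun ζ ω => max (Pi (C.win l) ζ ω - T) 0) ≤ k * (μ / 40)
  change _ ≤ _ + C.SE E at fin
  nlinarith

end Pool.Agent.P.MP_dcd5d0_pr.S2
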