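import Pool.Agent.P.MP_dcd5d0_pr.S2.B1
import Pool.Agent.P.MP_dcd5d0_pr.S2.BL
import Pool.Agent.P.MP_dcd5d0_pr.S2.Base
import Pool.Agent.P.MP_dcd5d0_pr.S2.Chain
import Pool.Agent.P.MP_dcd5d0_pr.S2.Cor
import Pool.Agent.P.MP_dcd5d0_pr.S2.Line
import Pool.Agent.P.MP_dcd5d0_pr.S2.Loc
import Pool.Agent.P.MP_dcd5d0_pr.S2.Low
import Pool.Agent.P.MP_dcd5d0_pr.S2.MW
import Pool.Agent.P.MP_dcd5d0_pr.SC.Mean
import Pool.Agent.P.MP_dcd5d0_pr.S2.Mk
import Pool.Agent.P.MP_dcd5d0_pr.SC.Pol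
import Pool.Agent.P.MP_dcd5d0_pr.S2.RA
import Pool.Agent.P.MP_dcd5d0_pr.S2.Small
import Pool.Agent.P.MP_dcd5d0_pr.S2.Stair
import Pool.Agent.P.MP_dcd5d0_pr.S2.Step
import Pool.Agent.P.MP_dcd5d0_pr.S2.TL
import Pool.Agent.P.MP_dcd5d0_pr.S2.Tail
import Pool.Agent.P.MP_dcd5d0_pr.S2.UBL
import Pool.Agent.P.MP_dcd5d0_pr.S2.Up

/-! Assembly: the planar limit shape is strictly convex. -/

set_option autoImplicit false

open MeasureTheory ProbabilityTheory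

namespace Pool.Agent.P.MP_dcd5d0_pr.S2

open SC

theorem strict {ν : Measure ℝ} [IsProbabilityMeasure ν] {g : (Fin 2 → ℝ) → ℝ}
    (h0 : ∀ a : ℝ, ν {a} = 0) (h1 : ν (Set.Iio 0) = 0) (H : IsTC ν g) : StrictConvex ℝ {x | g x ≤ 1} := by
  by_contra hns
  obtain ⟨r1, r2, e1, e2, e3, e4⟩ := exists_levels ν h0 h1
  obtain ⟨M, m1, m2⟩ := (((tendsto_cdf_atTop ν).eventually
    (lt_mem_nhds (show (699 / 700 : ℝ) < 1 by norm_num))).and (Filter.eventually_ge_atTop r2)).exists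
  have m3 : ν.real (Set.Ioi M) ≤ 1 / 700 := by
    rw [← Set.compl_Iic, probReal_compl_eq_one_sub measurableSet_Iic, ← cdf_eq_real]; linarith
  obtain ⟨C⟩ := mk_ctx (F := ⟨ν, inferInstance, r1, r2, e1, e2, e3, e4, M, m2, m3⟩) geo mean
    (NM.Fld.isTC H) hns
  have hL := loc lineA lineN
  have hC := cor lineA lineN
  have hM := mle lineA opt ra
  have hB := bl (base hL) (step hL ubl) (blkLe ra) hM
  have hT := tail hB (b1 lineA s1 hL chain)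
  exact no_ctx (mw lineA s1 hC) hM pol (stair lineA opt) (up am (tl lineA hC) hT crude hM)
    (low hB am) C

end Pool.Agent.P.MP_dcd5d0_pr.S2
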