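import Pool.Agent.P.MP_dcd5d0_pr.S2.St

/-! Gluing of nets, local minima, meeting a line. -/

set_option autoImplicit false

open MeasureTheory ProbabilityTheory Finset Function Filter

namespace Pool.Agent.P.MP_dcd5d0_pr.S2

open SC

open Cx

namespace NetL

variable {C : Cx}

lemma glue {S S' : Set V} {Z Z' : Om → Set V} {τ τ' : Om → V → ℝ} {E E' : V → Om → ℝ}
    (h : C.Net S Z τ E) (h' : C.Net S' Z' τ' E') (hne : ∀ ω, (Z ω ∩ Z' ω).Nonempty) :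
    ∃ τ'' : Om → V → ℝ, C.Net (S ∪ S') (fun ω => Z ω ∪ Z' ω) τ''
      (fun ζ ω => E ζ ω + E' ζ ω) := by
  classical
  obtain ⟨f, hf⟩ := exists_surjective_nat V
  have hn : ∀ ω, {n | f n ∈ Z ω ∩ Z' ω}.Nonempty := fun ω => by
    obtain ⟨z, hz⟩ := hne ω
    obtain ⟨n, rfl⟩ := hf z
    exact ⟨n, hz⟩
  set n0 : Om → ℕ := fun ω => sInf {n | f n ∈ Z ω ∩ Z' ω} with hn0
  have hmem : ∀ ω, f (n0 ω) ∈ Z ω ∩ Z' ω := fun ω => Nat.sInf_mem (hn ω)
  have hDM : DM n0 := by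
    intro c
    have : {ω | n0 ω = c} = ({ω | f c ∈ Z ω} ∩ {ω | f c ∈ Z' ω}) ∩
        ⋂ i, ⋂ _ : i < c, ({ω | f i ∈ Z ω} ∩ {ω | f i ∈ Z' ω})ᶜ := by
      ext ω
      simp only [Set.mem_ofPred_eq, Set.mem_inter_iff, Set.mem_iInter, Set.mem_compl_iff]
      constructor
      · rintro rfl
        exact ⟨hmem ω, fun i hi => Nat.notMem_of_lt_sInf hi⟩
      · rintro ⟨a, b⟩
        refine le_antisymm (Nat.sInf_le a) (not_lt.1 fun hc => b _ hc (hmem ω))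
    rw [this]
    exact ((h.mZ _).inter (h'.mZ _)).inter (MeasurableSet.iInter fun i =>
      MeasurableSet.iInter fun _ => ((h.mZ _).inter (h'.mZ _)).compl)
  refine ⟨fun ω z => if z ∈ Z ω then τ ω z else τ' ω z + (τ ω (f (n0 ω)) - τ' ω (f (n0 ω))),
    fun z => (h.mZ z).union (h'.mZ z), fun z => Measurable.ite (h.mZ z) (h.mτ z)
      ((h'.mτ z).add (hDM.sel (fun n ω => τ ω (f n) - τ' ω (f n))
        fun n => (h.mτ _).sub (h'.mτ _))), fun ω ω' e => ?_, fun ω ω' e => ?_, ?_⟩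
  · simp only [h.lZ ω ω' fun x hx => e x (Or.inl hx), h'.lZ ω ω' fun x hx => e x (Or.inr hx)]
  · simp only [hn0, h.lZ ω ω' fun x hx => e x (Or.inl hx), h'.lZ ω ω' fun x hx => e x (Or.inr hx),
      h.lτ ω ω' fun x hx => e x (Or.inl hx), h'.lτ ω ω' fun x hx => e x (Or.inr hx)]
  · refine (h.err.and h'.err).mono fun ζ ⟨a, b⟩ ω z z' hz hz' => ?_
    obtain ⟨m1, m2⟩ := hmem ω
    have a0 := a ω _ _ m1 m1
    have b0 := b ω _ _ m2 m2
    by_cases c : z ∈ Z ω <;> by_cases c' : z' ∈ Z ω <;> simp only [c, c', if_true, if_false]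
    · linarith [a ω z z' c c']
    · linarith [a ω z _ c m1, b ω _ z' m2 (hz'.resolve_left c')]
    · linarith [a ω _ z' m1 c', b ω z _ (hz.resolve_left c) m2]
    · linarith [b ω z z' (hz.resolve_left c) (hz'.resolve_left c')]

lemma net_mono {S S' : Set V} {Z : Om → Set V} {τ : Om → V → ℝ} {E : V → Om → ℝ}
    (h : C.Net S Z τ E) (hS : S ⊆ S') : C.Net S' Z τ E :=
  ⟨h.mZ, h.mτ, h.lZ.mono hS, h.lτ.mono hS, h.err⟩

lemma net_bdd {S : Set V} {Z : Om → Set V} {τ : Om → V → ℝ} {E : V → Om → ℝ}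
    (h : C.Net S Z τ E) (A : Set V) (ω : Om) :
    ∃ a, ∀ p q t, p ∈ Z ω → q ∈ Z ω → Wk ω A p q t → a ≤ t - τ ω p + τ ω q := by
  obtain ⟨ζ, hζ⟩ := h.err.exists
  exact ⟨-E ζ ω, fun p q t a b w => by linarith [hζ ω q p b a, (w.pw ζ).nonneg]⟩

/-- the minimum over a class with ends in the net is a local proxy of the minimal price -/
lemma net_min {S : Set V} {Z : Om → Set V} {τ : Om → V → ℝ} {E : V → Om → ℝ}
    (h : C.Net S Z τ E) (A : Set V) (R : Om → V → V → Prop)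
    (hR : ∀ p q, MeasurableSet {ω | R ω p q}) (hl : Loc S R)
    (hZ : ∀ ω p q, R ω p q → p ∈ Z ω ∧ q ∈ Z ω) (hA : A ⊆ S)
    (hS : ∀ ω p q, R ω p q → p ∈ S ∧ q ∈ S) (hne : ∀ ω, (Cl.mk A (R ω)).NE) :
    Measurable (fun ω => MinP ω ⟨A, R ω⟩ (τ ω)) ∧ Loc S (fun ω => MinP ω ⟨A, R ω⟩ (τ ω)) ∧
      C.Far fun ζ => ∀ ω, |MinP ω ⟨A, R ω⟩ (τ ω) - Pi ⟨A, R ω⟩ ζ ω| ≤ E ζ ω := by
  have hb : ∀ ω, ∃ a, ∀ p q t, R ω p q → Wk ω A p q t → a ≤ t - τ ω p + τ ω q := fun ω => by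
    obtain ⟨a, ha⟩ := net_bdd h A ω
    exact ⟨a, fun p q t r w => ha p q t (hZ ω p q r).1 (hZ ω p q r).2 w⟩
  refine ⟨MinP_meas A R τ hR h.mτ hne hb, fun ω ω' e => ?_, h.err.mono fun ζ hζ ω => ?_⟩
  · show MinP ω ⟨A, R ω⟩ (τ ω) = MinP ω' ⟨A, R ω'⟩ (τ ω')
    rw [← hl ω ω' e, ← h.lτ ω ω' e]
    exact MinP_congr (c := ⟨A, R ω⟩) hA (hS ω) e _
  · obtain ⟨a, ha⟩ := hb ω
    rw [abs_le]
    constructor
    · have : Pi ⟨A, R ω⟩ ζ ω - E ζ ω ≤ MinP ω ⟨A, R ω⟩ (τ ω) := by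
        refine le_MinP (hne ω) fun p q t r w => ?_
        have := Pi_le (c := ⟨A, R ω⟩) r (w.pw ζ)
        linarith [hζ ω q p (hZ ω p q r).2 (hZ ω p q r).1]
      linarith
    · have : MinP ω ⟨A, R ω⟩ (τ ω) - E ζ ω ≤ Pi ⟨A, R ω⟩ ζ ω := by
        refine le_Pi (hne ω) fun p q y r w => ?_
        have := MinP_le (c := ⟨A, R ω⟩) ha r w
        linarith [hζ ω p q (hZ ω p q r).1 (hZ ω p q r).2]
      linarith

/-- the geometric part of `St_LineN` -/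
def LD (C : Cx) (N : ℝ) (p : V) (Z : Om → Set V) : Prop :=
  ∀ ω, Z ω ⊆ {z | z - p ∈ C.Rg N} ∧ ∃ (A : Set V) (t : ℝ), A ⊆ {z | z - p ∈ C.Rg N} ∧
    Wk ω A p (p + C.wN N) t ∧
    ∀ z ∈ A, N / 1000 < C.X z - C.X p → C.X z - C.X p < N - N / 1000 - C.D → z ∈ Z ω

lemma rg_iff {N : ℝ} {p z : V} : z - p ∈ C.Rg N ↔ -(N / 10000) ≤ C.X z - C.X p ∧
    C.X z - C.X p ≤ N + N / 10000 ∧ -(N / 10000) ≤ C.Y z - C.Y p ∧
    C.Y z - C.Y p ≤ N / 100 + N / 10000 := by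
  simp only [Rg, Set.mem_ofPred_eq, map_sub]

/-- a walk that passes from one side of a line to the other meets it at a middle vertex -/
lemma hit {N : ℝ} (hN : 40000 * C.D ≤ N) {pl : V} {Z : Om → Set V} (h : LD C N pl Z) {ζ : V}
    {ω : Om} {A2 : Set V} {p q : V} {y : ℝ} (w : PW ζ ω A2 p q y)
    (hX : ∀ z, (z = p ∨ z = q ∨ z ∈ A2) →
      N / 1000 < C.X z - C.X pl ∧ C.X z - C.X pl < N - N / 1000 - C.D)
    (hY : (C.Y p - C.Y pl < -(N / 10000) ∧ N / 100 + N / 10000 < C.Y q - C.Y pl) ∨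
      (C.Y q - C.Y pl < -(N / 10000) ∧ N / 100 + N / 10000 < C.Y p - C.Y pl)) :
    ∃ z y1 y2, z ∈ Z ω ∧ z ∈ A2 ∧ PW ζ ω A2 p z y1 ∧ PW ζ ω A2 z q y2 ∧ y1 + y2 = y := by
  have hD := C.D1
  obtain ⟨_, A, t, h1, h2, h3⟩ := h ω
  obtain ⟨a, b⟩ := C.wN_spec N
  rw [abs_le] at a b
  have hX' : ∀ z, (z = p ∨ z = q ∨ z ∈ A2) → C.X pl < C.X z ∧ C.X z < C.X (pl + C.wN N) := by
    intro z hz
    have := hX z hz
    rw [map_add]
    constructor <;> linarith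
  have hY' : ∀ z, (z = pl ∨ z = pl + C.wN N ∨ z ∈ A) →
      -(N / 10000) ≤ C.Y z - C.Y pl ∧ C.Y z - C.Y pl ≤ N / 100 + N / 10000 := by
    rintro z (rfl | rfl | hz)
    · constructor <;> linarith
    · rw [map_add]; constructor <;> linarith
    · exact (rg_iff.1 (h1 hz)).2.2
  rcases hY with hY | hY
  · obtain ⟨z, _, _, s, s', z1, z2, _, _, _, e⟩ := PW.cross C.X C.Y C.uv (h2.pw ζ) w hX'
      (fun z hz => by have := hY' z hz; constructor <;> linarith)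
    have := hX z (Or.inr (Or.inr z2))
    exact ⟨z, s, s', h3 z z1 this.1 this.2, z2, e⟩
  · obtain ⟨z, _, _, s, s', z1, z2, _, _, _, e⟩ := PW.cross C.X (-C.Y) (by
      obtain ⟨u, v, huv⟩ := C.uv
      exact ⟨u, -v, fun z i => by simp [huv]⟩) (h2.pw ζ) w hX'
      (fun z hz => by
        have := hY' z hz
        simp only [AddMonoidHom.neg_apply]
        constructor <;> linarith)
    have := hX z (Or.inr (Or.inr z2))
    exact ⟨z, s, s', h3 z z1 this.1 this.2, z2, e⟩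

/-- a horizontal and a vertical line in crossing position meet at a common middle vertex -/
lemma meet {N : ℝ} (hN : 40000 * C.D ≤ N) {p p' : V} {Z Z' : Om → Set V} (h : LD C N p Z)
    (h' : LD C.swap N p' Z') (h1 : N / 500 ≤ C.X p' - C.X p)
    (h2 : C.X p' - C.X p ≤ N - N / 50) (h3 : N / 500 ≤ C.Y p - C.Y p')
    (h4 : C.Y p - C.Y p' ≤ N - N / 50) (ω : Om) : (Z ω ∩ Z' ω).Nonempty := by
  have hD := C.D1
  obtain ⟨_, A, t, a1, a2, a3⟩ := h' ω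
  obtain ⟨a, b⟩ := C.swap.wN_spec N
  rw [abs_le] at a b
  simp only [swap_X, swap_Y, swap_D] at a b a3
  obtain ⟨z, _, _, z1, z2, _⟩ := hit hN h (a2.pw 0) (by
    rintro z (rfl | rfl | hz)
    · constructor <;> linarith
    · rw [map_add]; constructor <;> linarith
    · have := (rg_iff.1 (a1 hz)).2.2
      simp only [swap_Y] at this
      constructor <;> linarith) (Or.inl ⟨by linarith, by rw [map_add]; linarith⟩)
  have := (rg_iff.1 ((h ω).1 z1)).2.2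
  exact ⟨z, z1, a3 z z2 (by linarith) (by linarith)⟩

lemma big (C : Cx) : ∀ᶠ N : ℕ in atTop, 40000 * C.D ≤ (N : ℝ) :=
  tendsto_natCast_atTop_atTop.eventually_ge_atTop _

end NetL

end Pool.Agent.P.MP_dcd5d0_pr.S2
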