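import Pool.Agent.P.MP_dcd5d0_pr.S2.Def
import Pool.Agent.P.MP_dcd5d0_pr.SC.St

/-! Statements of the steps of the proof of strict convexity. -/

set_option autoImplicit false

open MeasureTheory ProbabilityTheory Finset Function Filter

namespace Pool.Agent.P.MP_dcd5d0_pr.S2

open SC

open Cx

/-- lines: admissibility and shift invariance of the middle price -/
def St_LineA : Prop := ∀ C : Cx, ∀ᶠ N : ℕ in atTop, ∀ p : V,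
  C.Adm (C.pr N p) ∧ (∀ ζ ω, 0 ≤ C.pr N p ζ ω) ∧ C.SE (C.pr N p) = C.MH N

/-- lines are nets -/
def St_LineN : Prop := ∀ C : Cx, ∀ᶠ N : ℕ in atTop, ∀ p : V,
  ∃ (Z : Om → Set V) (τ : Om → V → ℝ), C.Net {z | z - p ∈ C.Rg N} Z τ (C.pr N p) ∧
    ∀ ω, Z ω ⊆ {z | z - p ∈ C.Rg N} ∧ ∃ (A : Set V) (t : ℝ), A ⊆ {z | z - p ∈ C.Rg N} ∧
      Wk ω A p (p + C.wN N) t ∧
      ∀ z ∈ A, (N : ℝ) / 1000 < C.X z - C.X p → C.X z - C.X p < N - N / 1000 - C.D → z ∈ Z ω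

/-- lines are optimal in their region -/
def St_Opt : Prop := ∀ C : Cx, ∀ᶠ N : ℕ in atTop, ∀ ζ ω, C.pr N 0 ζ ω = 0 ∨
  ∃ (m1 m2 : V) (y1 y3 : ℝ), m1 ∈ C.Rg N ∧ m2 ∈ C.Rg N ∧ C.mid N m1 ∧ C.mid N m2 ∧
    PW ζ ω (C.Rg N) 0 m1 y1 ∧ PW ζ ω (C.Rg N) m1 m2 (C.pr N 0 ζ ω) ∧
    PW ζ ω (C.Rg N) m2 (C.wN N) y3 ∧
    ∀ y, PW ζ ω (C.Rg N) 0 (C.wN N) y → y1 + C.pr N 0 ζ ω + y3 ≤ y

/-- fat rectangles are crossed by the middle part of a line -/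
def St_S1 : Prop := ∀ C : Cx, ∀ᶠ N : ℕ in atTop, ∀ x0 x1 y0 y1 : ℝ, x0 ≤ x1 →
  x1 - x0 ≤ 9 / 10 * N → (N : ℝ) / 50 ≤ y1 - y0 →
    ∃ p : V, ∀ ζ ω, Pi (C.LR x0 x1 y0 y1) ζ ω ≤ C.pr N p ζ ω

/-- a priori bound for restricted point-to-point prices -/
def St_RA : Prop := ∀ (C : Cx) (θ : ℝ), 0 < θ → ∀ᶠ L : ℝ in atTop, ∀ z : V,
  0 ≤ C.X z → 0 ≤ C.Y z → C.X z + C.Y z ≤ 2 * L → ∀ c : Cl,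
    c = ⟨{y | -(θ * L) ≤ C.X y ∧ C.X y ≤ C.X z + θ * L ∧ -(θ * L) ≤ C.Y y ∧
      C.Y y ≤ C.Y z + θ * L}, fun p q => p = 0 ∧ q = z⟩ →
    c.NE ∧ C.SE (Pi c) ≤ L ^ (77 / 100 : ℝ)

def St_Mle : Prop := ∀ C : Cx, ∀ᶠ N : ℕ in atTop, 0 ≤ C.M N ∧ C.M N ≤ (N : ℝ) ^ (39 / 50 : ℝ)

/-- crude bound -/
def St_Crude : Prop := ∀ C : Cx, ∃ K : ℝ, 0 < K ∧ ∀ x0 x1 y0 y1 : ℝ, x0 ≤ x1 →
  y0 + 4 * C.D ≤ y1 → C.SE (Pi (C.LR x0 x1 y0 y1)) ≤ K * (x1 - x0 + 1)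

/-- uniform linearity -/
def St_UBL : Prop := ∀ C : Cx, ∀ᶠ S : ℝ in atTop,
  C.SP (fun ζ => {ω | ¬ C.Good S ζ ω}) ≤ S ^ (-(1 / 40) : ℝ)

/-- localisation of minimal prices -/
def St_Loc : Prop := ∀ C : Cx, ∀ᶠ L : ℝ in atTop, ∀ (a b : ℝ) (c : Cl), c.NE →
  (∀ z ∈ c.A, |C.X z - a| ≤ L ∧ |C.Y z - b| ≤ L) →
  (∀ p q, c.R p q → (|C.X p - a| ≤ L ∧ |C.Y p - b| ≤ L) ∧ (|C.X q - a| ≤ L ∧ |C.Y q - b| ≤ L)) →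
    ∃ (E : V → Om → ℝ) (Xl : Om → ℝ), C.Adm E ∧ (∀ ζ ω, 0 ≤ E ζ ω) ∧
      C.SE E ≤ 4 * C.M ⌈4 * L⌉₊ ∧ Measurable Xl ∧ C.Loc {z | |C.X z - a| ≤ 5 * L} Xl ∧
      C.Far fun ζ => ∀ ω, |Xl ω - Pi c ζ ω| ≤ E ζ ω

/-- the corner variable -/
def St_Cor : Prop := ∀ C : Cx, ∀ᶠ N : ℕ in atTop, ∀ cx cy τ a1 a2 : ℝ, 4 * C.D ≤ τ →
  τ ≤ N / 100 → (N : ℝ) / 25 ≤ a1 → a1 ≤ 9 / 10 * N → (N : ℝ) / 25 ≤ a2 → a2 ≤ 9 / 10 * N →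
    ∃ (Dv : Om → ℝ) (E : V → Om → ℝ), Measurable Dv ∧
      Loc (C.tube cx cy τ a1 a2 ∪ C.cfr N cx cy τ a1 a2) Dv ∧ C.Adm E ∧ (∀ ζ ω, 0 ≤ E ζ ω) ∧
      C.SE E ≤ 2 * C.Mx N ∧
      (C.Far fun ζ => ∀ ω, -E ζ ω ≤ Dv ω ∧
        Dv ω ≤ Pi (C.swap.LR (cy - a1) (cy + τ + 1) cx (cx + τ)) ζ ω
          + Pi (C.LR (cx - 1) (cx + a2) cy (cy + τ)) ζ ω + E ζ ω) ∧
      (C.Far fun ζ => ∀ ω (δ : ℝ), 0 < δ → ∃ (p q : V) (y : ℝ), p ∈ C.tube cx cy τ a1 a2 ∧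
        q ∈ C.tube cx cy τ a1 a2 ∧ C.Y p ≤ cy - a1 + N / 50 ∧ cx + a2 - N / 50 ≤ C.X q ∧
        PW ζ ω (C.tube cx cy τ a1 a2) p q y ∧ y ≤ Dv ω + E ζ ω + δ) ∧
      ∀ ω (δ : ℝ), 0 < δ → ∃ (p q : V) (t : ℝ), p ∈ C.tube cx cy τ a1 a2 ∧
        q ∈ C.tube cx cy τ a1 a2 ∧ C.Y p ≤ cy - a1 + N / 50 ∧ cx + a2 - N / 50 ≤ C.X q ∧
        Wk ω (C.tube cx cy τ a1 a2) p q t ∧
        ∀ (ω' : Om) (t' : ℝ), (∀ e : Ed, e.1 ∈ C.cfr N cx cy τ a1 a2 → ω e = ω' e) →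
          Wk ω' (C.tube cx cy τ a1 a2) p q t' → Dv ω' ≤ Dv ω + δ - t + t'

/-- lower bound by a tilt -/
def St_MW : Prop := ∀ C : Cx, ∃ c : ℝ, 0 < c ∧ ∀ᶠ N : ℕ in atTop, c ≤ C.M N ∨ c ≤ C.M (4 * N)

/-- staircase -/
def St_Stair : Prop := ∀ C : Cx, ∀ᶠ l : ℕ in atTop, C.MH l ≤ 4 * C.WH l + 3 * C.swap.WH l

/-- amortisation along a long strip -/
def St_AM : Prop := ∀ (C : Cx) (n : ℕ), 1 ≤ n → ∀ᶠ l : ℕ in atTop, ∃ z : ℕ → V, ∀ ζ ω,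
  ∑ s ∈ range n, Pi ((C.win l).shift (z s)) ζ ω ≤ Pi (C.LR 0 (2 * n * l) 0 (l / 20000)) ζ ω

/-- blocking: first scale -/
def St_Base : Prop := ∀ (C : Cx) (φ : ℝ), 0 < φ → φ ≤ 1 → ∀ᶠ N : ℕ in atTop,
  ∀ (lam : ℕ) (π Y e σ : ℝ), 100 ≤ lam → 0 < π → 0 < Y → 0 ≤ σ → 4 * C.M (4 * N) ≤ e →
    8 * e ≤ π * Y → π ≤ C.SP (fun ζ => {ω | Y ≤ Pi (C.LR 0 N 0 (φ * N)) ζ ω}) →
    C.Blk (lam * N) (φ / (4 * lam)) σ (π * lam * Y / 800)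
      (41 * (800 / (π * lam) + 16 * e / (π * Y)))

/-- blocking: from one scale to the next -/
def St_Step : Prop := ∀ (C : Cx) (h : ℝ), 0 < h → h ≤ 1 → ∀ᶠ L : ℝ in atTop,
  ∀ (a : ℕ) (σ σ' P q e : ℝ), 5 ≤ a → (a : ℝ) ^ 4000 ≤ L → h / 8 ≤ σ' → σ' + h / a ^ 2 ≤ σ →
    σ ≤ h / 4 → 0 < P → P ≤ L ^ (4 / 5 : ℝ) → 4 * C.M ⌈8 * L⌉₊ ≤ e → C.Blk L h σ P q →
    C.Blk (a ^ 20 * (L + C.D)) h σ' (a ^ 17 * P)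
      (400 * a ^ 40 * (4 * e / P) + (400 * a ^ 40) ^ 2 * (q + 4 * e / P) ^ 2
        + L ^ (-(1 / 40) : ℝ))

/-- a priori bound on blocking prices -/
def St_BlkLe : Prop := ∀ (C : Cx) (h : ℝ), 0 < h → h ≤ 1 → ∀ᶠ L : ℝ in atTop,
  ∀ σ P q : ℝ, h / 8 ≤ σ → q ≤ 1 / 2 → C.Blk L h σ P q → P ≤ 2 * L ^ (77 / 100 : ℝ)

/-- thin crossings in the end direction are cheap -/
def St_BL : Prop := ∀ C : Cx, ∃ K : ℝ, 20 ≤ K ∧ ∀ φ π : ℝ, 0 < φ → φ ≤ 1 → 0 < π → π ≤ 1 →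
  ∀ᶠ N : ℕ in atTop, ∀ μ Y : ℝ, 0 < μ →
    (∀ N' : ℕ, N ≤ N' → C.M N' ≤ μ * ((N' : ℝ) / N) ^ (4 / 5 : ℝ)) → K * μ ≤ π * Y →
    C.SP (fun ζ => {ω | Y ≤ Pi (C.LR 0 N 0 (φ * N)) ζ ω}) < π

/-- chain lemma -/
def St_B1 : Prop := ∀ (C : Cx) (φ : ℝ), 0 < φ → φ ≤ 1 / 100 → ∃ π1 : ℝ, 0 < π1 ∧ π1 ≤ 1 ∧
  ∀ᶠ N : ℕ in atTop, ∀ (m : ℕ) (y e s x0 y0 : ℝ), 1 ≤ m → 0 < s → 0 < y →
    C.SP (fun ζ => {ω | y ≤ Pi (C.LR 0 N 0 (φ / 4 * N)) ζ ω}) ≤ π1 →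
    C.M N ≤ e → C.M (2 * N) ≤ e → C.M (4 * N) ≤ e → 4 * e ≤ π1 * y →
    C.SP (fun ζ => {ω | 2 * m * y + s ≤
      Pi (C.LR x0 (x0 + 4 / 5 * m * N) y0 (y0 + φ * m * N)) ζ ω})
      ≤ (1 / 2) ^ m + 6 * (m + 1) ^ 2 * e / s

/-- deterministic gluing of a chain of crossings -/
def St_Chain : Prop := ∀ (C : Cx) (ζ : V) (ω : Om) (x0 N d : ℝ) (yy hh' : ℕ → ℝ) (m : ℕ),
  0 < d → d + 2 + 4 * C.D ≤ N → N ≤ 2 * d → (∀ j, 4 * C.D ≤ hh' j) →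
  (∀ j, yy (j + 1) = yy j + hh' j + C.D + 2) →
    Pi (C.LR x0 (x0 + m * d + N) (yy 0 - 1 - C.D) (yy (m + 1))) ζ ω ≤
      ∑ j ∈ range (m + 1), Pi (C.LR (x0 + j * d) (x0 + j * d + N) (yy j) (yy j + hh' j)) ζ ω +
      ∑ j ∈ range m, Pi (C.swap.LR (yy j - 1) (yy (j + 1) + hh' (j + 1) + 1)
        (x0 + (j + 1) * d + 1) (x0 + j * d + N - 1)) ζ ω

/-- two independent options -/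
def St_TL : Prop := ∀ (C : Cx) (k : ℕ), 1 ≤ k → ∀ᶠ l : ℕ in atTop,
  ∃ (DA DB : Om → ℝ) (E : V → Om → ℝ), Measurable DA ∧ Measurable DB ∧ IndepFun DA DB C.Pm ∧
    C.Adm E ∧ (∀ ζ ω, 0 ≤ E ζ ω) ∧ C.SE E ≤ 4 * C.M (4 * k * l) ∧
    (C.Far fun ζ => ∀ ω, Pi (C.LR 0 (2 * k * l) 0 (l / 20000)) ζ ω ≤ min (DA ω) (DB ω) + E ζ ω) ∧
    ∀ Dv : Om → ℝ, Dv = DA ∨ Dv = DB → ∃ x0 y0 x1 y1 : ℝ, C.Far fun ζ => ∀ ω,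
      Dv ω ≤ Pi (C.LR x0 (x0 + 3 * k * l) y0 (y0 + l / 80000)) ζ ω
        + Pi (C.swap.LR x1 (x1 + 3 * k * l) y1 (y1 + l / 80000)) ζ ω + E ζ ω

/-- a scale with the two-sided envelope -/
def Env (C : Cx) (c : ℝ) (l : ℕ) : Prop := c ≤ C.M l ∧
  (∀ N : ℕ, l ≤ N → C.M N ≤ C.M l * ((N : ℝ) / l) ^ (4 / 5 : ℝ)) ∧
  ∀ N : ℕ, N ≤ l → (l : ℝ) ^ (19 / 20 : ℝ) ≤ N → C.M N ≤ C.M l * ((l : ℝ) / N)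

/-- tails of long thin crossings at such a scale -/
def St_Tail : Prop := ∀ (C : Cx) (c : ℝ) (k : ℕ), 0 < c → 1 ≤ k → ∃ K : ℝ, 0 < K ∧
  ∀ᶠ l : ℕ in atTop, Env C c l → ∀ (m : ℕ) (x0 y0 : ℝ), 1 ≤ m → (2 : ℝ) ^ m ≤ (l : ℝ) ^ 3 →
    C.SP (fun ζ => {ω | 2 ^ m * C.M l ≤
      Pi (C.LR x0 (x0 + 3 * k * l) y0 (y0 + l / 80000)) ζ ω}) ≤ K * m ^ 3 / 2 ^ m

/-- the upper part of the window price -/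
def St_Up : Prop := ∀ (C : Cx) (c : ℝ), 0 < c → ∃ T0 : ℝ, 0 < T0 ∧
  ∀ᶠ l : ℕ in atTop, Env C c l →
    C.SE (fun ζ ω => max (Pi (C.win l) ζ ω - T0 * C.M l) 0) ≤ C.M l / 40

/-- the lower part of the window price -/
def St_Low : Prop := ∀ (C : Cx) (c T0 : ℝ), 0 < c → 0 < T0 →
  ∀ᶠ l : ℕ in atTop, Env C c l →
    C.SE (fun ζ ω => min (Pi (C.win l) ζ ω) (T0 * C.M l)) ≤ C.M l / 40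

end Pool.Agent.P.MP_dcd5d0_pr.S2
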